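import Pool.Agent.Lib.P51a855.Defs

/-!
Marchaud inequality for orders `r < 1` (module Marchaud of MP_51a855_an).
-/

set_option autoImplicit false

open MeasureTheory
open scoped ENNReal NNReal

noncomputable section

namespace Pool.Agent.Lib.P51a855

private lemma marchaud_step {R : Type} [CommRing R] [Algebra ℝ R] (N : Seminorm ℝ R)
    (T : ℝ → R) (hT : ∀ s t, T (s + t) = T s * T t) (hN : ∀ t a, N (T t * a) ≤ N a) (n : ℕ)
    (hn : 1 ≤ n) (v : R) {A r : ℝ} (hA : 0 ≤ A) (hr0 : 0 < r) (hr1 : r < 1)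
    (h : ∀ t, N ((T t - 1) ^ (n + 1) * v) ≤ A * |t| ^ r) (t : ℝ) :
    N ((T t - 1) ^ n * v) ≤ (n / 2 * (1 / (1 - 2 ^ (r - 1)))) * A * |t| ^ r := by
  have hsmul : ∀ (c : ℝ) (b : R), 0 ≤ c → N (algebraMap ℝ R c * b) = c * N b := by
    intro c b hc
    rw [← Algebra.smul_def, map_smul_eq_mul, Real.norm_eq_abs, abs_of_nonneg hc]
  have hplus : ∀ t b, N ((T t + 1) * b) ≤ 2 * N b := by
    intro t b
    rw [add_mul, one_mul]
    calc N (T t * b + b) ≤ N (T t * b) + N b := map_add_le_add N _ _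
      _ ≤ N b + N b := by gcongr; exact hN t b
      _ = 2 * N b := by ring
  have hminus : ∀ t b, N ((T t - 1) * b) ≤ 2 * N b := by
    intro t b
    rw [sub_mul, one_mul]
    calc N (T t * b - b) ≤ N (T t * b) + N b := map_sub_le_add N _ _
      _ ≤ N b + N b := by gcongr; exact hN t b
      _ = 2 * N b := by ring
  have hplusn : ∀ (i : ℕ) t b, N ((T t + 1) ^ i * b) ≤ 2 ^ i * N b := by
    intro i t
    induction i with
    | zero => intro b; simp
    | succ i ih =>
      intro b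
      rw [pow_succ, mul_assoc]
      calc N ((T t + 1) ^ i * ((T t + 1) * b)) ≤ 2 ^ i * N ((T t + 1) * b) := ih _
        _ ≤ 2 ^ i * (2 * N b) := by gcongr; exact hplus t b
        _ = 2 ^ (i + 1) * N b := by ring
  have hminusn : ∀ (i : ℕ) t b, N ((T t - 1) ^ i * b) ≤ 2 ^ i * N b := by
    intro i t
    induction i with
    | zero => intro b; simp
    | succ i ih =>
      intro b
      rw [pow_succ, mul_assoc]
      calc N ((T t - 1) ^ i * ((T t - 1) * b)) ≤ 2 ^ i * N ((T t - 1) * b) := ih _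
        _ ≤ 2 ^ i * (2 * N b) := by gcongr; exact hminus t b
        _ = 2 ^ (i + 1) * N b := by ring
  -- one step of the recursion
  have hrec : ∀ t, N ((T t - 1) ^ n * v) ≤ 1 / 2 * N ((T (2 * t) - 1) ^ n * v) +
      n / 2 * A * |t| ^ r := by
    intro t
    set x := T t with hx
    have hx2 : T (2 * t) = x * x := by rw [two_mul, hT]
    set q : R := ∑ i ∈ Finset.range n, (x + 1) ^ i * 2 ^ (n - 1 - i) with hq
    have hgeo : q * (x - 1) = (x + 1) ^ n - 2 ^ n := by
      have := (Commute.all (x + 1) (2 : R)).geom_sum₂_mul n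
      rw [hq, ← this]
      ring
    have hid : (2 : R) ^ n * ((x - 1) ^ n * v) = (T (2 * t) - 1) ^ n * v -
        q * ((x - 1) ^ (n + 1) * v) := by
      rw [hx2]
      have e1 : x * x - 1 = (x - 1) * (x + 1) := by ring
      rw [e1, mul_pow]
      have e2 : (x + 1) ^ n = q * (x - 1) + 2 ^ n := by rw [hgeo]; ring
      rw [e2]; ring
    have hqN : ∀ b, N (q * b) ≤ n * 2 ^ (n - 1) * N b := by
      intro b
      rw [hq, Finset.sum_mul]
      calc N (∑ i ∈ Finset.range n, (x + 1) ^ i * 2 ^ (n - 1 - i) * b)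
          ≤ ∑ i ∈ Finset.range n, N ((x + 1) ^ i * 2 ^ (n - 1 - i) * b) :=
            Finset.le_sum_of_subadditive N (map_zero N).le (map_add_le_add N) _ _
        _ ≤ ∑ i ∈ Finset.range n, 2 ^ (n - 1) * N b := by
            refine Finset.sum_le_sum fun i hi => ?_
            have hi' : i < n := Finset.mem_range.1 hi
            rw [mul_assoc]
            refine (hplusn i t _).trans ?_
            have e1 : (2 : R) ^ (n - 1 - i) = algebraMap ℝ R (2 ^ (n - 1 - i)) := by
              rw [map_pow, map_ofNat]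
            rw [e1, hsmul _ _ (by positivity), ← mul_assoc, ← pow_add]
            rw [Nat.add_sub_cancel' (by omega)]
        _ = n * 2 ^ (n - 1) * N b := by simp; ring
    have h1 : (2 : ℝ) ^ n * N ((x - 1) ^ n * v) ≤ N ((T (2 * t) - 1) ^ n * v) +
        n * 2 ^ (n - 1) * (A * |t| ^ r) := by
      have e1 : (2 : R) ^ n = algebraMap ℝ R (2 ^ n) := by rw [map_pow, map_ofNat]
      calc (2 : ℝ) ^ n * N ((x - 1) ^ n * v) = N ((2 : R) ^ n * ((x - 1) ^ n * v)) := by
            rw [e1, hsmul _ _ (by positivity)]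
        _ ≤ N ((T (2 * t) - 1) ^ n * v) + N (q * ((x - 1) ^ (n + 1) * v)) := by
            rw [hid]; exact map_sub_le_add N _ _
        _ ≤ _ := by
            gcongr
            refine (hqN _).trans ?_
            gcongr
            exact h t
    obtain ⟨m, rfl⟩ : ∃ m, n = m + 1 := ⟨n - 1, by omega⟩
    have h2 : (2 : ℝ) ^ (m + 1) = 2 * 2 ^ m := by ring
    have h3 : (1 : ℝ) ≤ 2 ^ m := one_le_pow₀ (by norm_num)
    rw [Nat.add_sub_cancel, h2] at h1
    have h4 : 0 ≤ N ((T (2 * t) - 1) ^ (m + 1) * v) := apply_nonneg N _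
    have h5 : 0 ≤ A * |t| ^ r := by positivity
    have h6 : 2 * 2 ^ m * N ((x - 1) ^ (m + 1) * v) ≤ 2 * 2 ^ m *
        (1 / 2 * N ((T (2 * t) - 1) ^ (m + 1) * v) + ((m + 1 : ℕ) : ℝ) / 2 * A * |t| ^ r) := by
      refine h1.trans ?_
      nlinarith
    exact le_of_mul_le_mul_left h6 (by positivity)
  set ρ : ℝ := 2 ^ (r - 1) with hρ
  have hρ0 : 0 < ρ := by positivity
  have hρ1 : ρ < 1 := Real.rpow_lt_one_of_one_lt_of_neg (by norm_num) (by linarith)
  have hρ2 : (2 : ℝ) ^ r = 2 * ρ := by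
    rw [hρ, Real.rpow_sub (by norm_num), Real.rpow_one]; ring
  set D : ℝ := n / 2 * A with hD
  have hD0 : 0 ≤ D := by positivity
  have hit : ∀ (k : ℕ) t, N ((T t - 1) ^ n * v) ≤ (1 / 2) ^ k * (2 ^ n * N v) +
      D * |t| ^ r * ∑ j ∈ Finset.range k, ρ ^ j := by
    intro k
    induction k with
    | zero => intro t; simpa using hminusn n t v
    | succ k ih =>
      intro t
      refine (hrec t).trans ?_
      have h1 := ih (2 * t)
      rw [abs_mul, abs_two, Real.mul_rpow (by norm_num) (abs_nonneg t), hρ2] at h1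
      rw [Finset.sum_range_succ', pow_zero]
      have h2 : ∑ j ∈ Finset.range k, ρ ^ (j + 1) = ρ * ∑ j ∈ Finset.range k, ρ ^ j := by
        rw [Finset.mul_sum]
        exact Finset.sum_congr rfl fun j _ => by ring
      rw [h2, pow_succ]
      nlinarith
  have hsum : ∀ k : ℕ, ∑ j ∈ Finset.range k, ρ ^ j ≤ 1 / (1 - ρ) := by
    intro k
    rw [geom_sum_eq hρ1.ne, le_div_iff₀ (by linarith)]
    have h1 : (ρ ^ k - 1) / (ρ - 1) * (1 - ρ) = 1 - ρ ^ k := by
      have : ρ - 1 ≠ 0 := by linarith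
      field_simp
      ring
    rw [h1]
    have : 0 ≤ ρ ^ k := by positivity
    linarith
  have hlim : Filter.Tendsto (fun k : ℕ => ((1 : ℝ) / 2) ^ k * (2 ^ n * N v) +
      D * |t| ^ r * (1 / (1 - ρ))) Filter.atTop (nhds (0 * (2 ^ n * N v) +
      D * |t| ^ r * (1 / (1 - ρ)))) := by
    refine Filter.Tendsto.add_const _ (Filter.Tendsto.mul_const _ ?_)
    exact tendsto_pow_atTop_nhds_zero_of_lt_one (by norm_num) (by norm_num)
  have hfin := ge_of_tendsto' hlim fun k => (hit k t).trans (by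
    have := hsum k
    gcongr)
  refine hfin.trans (le_of_eq ?_)
  rw [hD]; ring

theorem marchaud (l : ℕ) (hl : 1 ≤ l) (r : ℝ) (hr0 : 0 < r) (hr1 : r < 1) :
    ∃ C : ℝ, 0 ≤ C ∧ ∀ (R : Type) [CommRing R] [Algebra ℝ R] (N : Seminorm ℝ R) (T : ℝ → R),
      (∀ s t, T (s + t) = T s * T t) → (∀ t a, N (T t * a) ≤ N a) →
      ∀ (v : R) (A : ℝ), 0 ≤ A → (∀ t, N ((T t - 1) ^ l * v) ≤ A * |t| ^ r) →
        ∀ t, N ((T t - 1) * v) ≤ C * A * |t| ^ r := by
  induction l, hl using Nat.le_induction with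
  | base => exact ⟨1, zero_le_one, fun R _ _ N T hT hN v A hA h t => by simpa using h t⟩
  | succ n hn ih =>
    obtain ⟨C, hC, ih⟩ := ih
    have hρ1 : (2 : ℝ) ^ (r - 1) < 1 :=
      Real.rpow_lt_one_of_one_lt_of_neg (by norm_num) (by linarith)
    have hK : 0 ≤ (n / 2 * (1 / (1 - (2 : ℝ) ^ (r - 1)))) :=
      mul_nonneg (by positivity) (by rw [one_div]; exact inv_nonneg.2 (by linarith))
    refine ⟨C * (n / 2 * (1 / (1 - (2 : ℝ) ^ (r - 1)))), mul_nonneg hC hK,
      fun R _ _ N T hT hN v A hA h t => ?_⟩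
    have h1 := fun t => marchaud_step N T hT hN n hn v hA hr0 hr1 h t
    have h2 := ih R N T hT hN v _ (mul_nonneg hK hA) h1 t
    refine h2.trans (le_of_eq ?_)
    ring

end Pool.Agent.Lib.P51a855
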