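import Pool.Agent.Lib.P51a855.Diff
import Pool.Agent.Lib.P51a855.Marchaud

/-!
Reduction of the mixed differences of order `l` to first order mixed differences.
-/

set_option autoImplicit false

open MeasureTheory
open scoped ENNReal NNReal

noncomputable section

namespace Pool.Agent.Lib.P51a855

variable {d : ℕ}

/-- the seminorm `a ↦ ‖a f‖_p` on the algebra of translations -/
def Nf (p : ℝ≥0∞) [Fact (1 ≤ p)] (f : C(Torus d, ℝ)) : Seminorm ℝ (TA d) :=
  (Np p).comp ((LinearMap.applyₗ f).comp (act (d := d)).toLinearMap)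

lemma Nf_apply (p : ℝ≥0∞) [Fact (1 ≤ p)] (f : C(Torus d, ℝ)) (a : TA d) :
    Nf p f a = Np p (act a f) := rfl

lemma mixed_partial {l : ℕ} {r : ℝ} {p : ℝ≥0∞} [Fact (1 ≤ p)] {C0 C1 : ℝ}
    (hC0 : 0 ≤ C0) (hC1 : C0 ≤ C1)
    (hM : ∀ (R : Type) [CommRing R] [Algebra ℝ R] (N : Seminorm ℝ R) (T : ℝ → R),
      (∀ s t, T (s + t) = T s * T t) → (∀ t a, N (T t * a) ≤ N a) →
      ∀ (v : R) (A : ℝ), 0 ≤ A → (∀ t, N ((T t - 1) ^ l * v) ≤ A * |t| ^ r) →
        ∀ t, N ((T t - 1) * v) ≤ C0 * A * |t| ^ r)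
    {f : C(Torus d, ℝ)} (h0 : Np p f ≤ 1)
    (hf : ∀ e : Finset (Fin d), e.Nonempty → ∀ t : Fin d → ℝ,
      Np p (act (∏ j ∈ e, (trj j (t j) - 1) ^ l) f) ≤ ∏ j ∈ e, |t j| ^ r)
    (S : Finset (Fin d)) : ∀ E : Finset (Fin d), Disjoint S E → ∀ t : Fin d → ℝ,
      Np p (act ((∏ j ∈ S, (trj j (t j) - 1)) * ∏ j ∈ E, (trj j (t j) - 1) ^ l) f) ≤
        C1 ^ S.card * ((∏ j ∈ S, |t j| ^ r) * ∏ j ∈ E, |t j| ^ r) := by
  induction S using Finset.induction_on with
  | empty =>
    intro E _ t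
    simp only [Finset.prod_empty, one_mul, Finset.card_empty, pow_zero]
    rcases E.eq_empty_or_nonempty with hE | hE
    · subst hE
      simpa using h0
    · exact hf E hE t
  | insert j S hj ih =>
    intro E hE t
    rw [Finset.disjoint_insert_left] at hE
    have hjE : j ∉ E := hE.1
    have hd : Disjoint S (insert j E) := by
      rw [Finset.disjoint_insert_right]
      exact ⟨hj, hE.2⟩
    set A : ℝ := C1 ^ S.card * ((∏ j ∈ S, |t j| ^ r) * ∏ j ∈ E, |t j| ^ r) with hA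
    have hC10 : 0 ≤ C1 := hC0.trans hC1
    have hA0 : 0 ≤ A := by
      rw [hA]
      refine mul_nonneg (pow_nonneg hC10 _) (mul_nonneg ?_ ?_) <;>
        exact Finset.prod_nonneg fun _ _ => Real.rpow_nonneg (abs_nonneg _) _
    have h1 := hM (TA d) (Nf p f) (trj j) (trj_add j)
      (fun t a => by
        rw [Nf_apply, Nf_apply]
        exact (Np_tr_mul p _ a f).le)
      ((∏ j ∈ S, (trj j (t j) - 1)) * ∏ j ∈ E, (trj j (t j) - 1) ^ l) A hA0
      (fun u => by
        have h2 := ih (insert j E) hd (Function.update t j u)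
        rw [Finset.prod_insert hjE, Finset.prod_insert hjE, Function.update_self] at h2
        have e1 : ∏ i ∈ S, (trj i (Function.update t j u i) - 1) = ∏ i ∈ S, (trj i (t i) - 1) := by
          refine Finset.prod_congr rfl fun i hi => ?_
          rw [Function.update_of_ne (ne_of_mem_of_not_mem hi hj)]
        have e2 : ∏ i ∈ E, (trj i (Function.update t j u i) - 1) ^ l =
            ∏ i ∈ E, (trj i (t i) - 1) ^ l := by
          refine Finset.prod_congr rfl fun i hi => ?_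
          rw [Function.update_of_ne (ne_of_mem_of_not_mem hi hjE)]
        have e3 : ∏ i ∈ S, |Function.update t j u i| ^ r = ∏ i ∈ S, |t i| ^ r := by
          refine Finset.prod_congr rfl fun i hi => ?_
          rw [Function.update_of_ne (ne_of_mem_of_not_mem hi hj)]
        have e4 : ∏ i ∈ E, |Function.update t j u i| ^ r = ∏ i ∈ E, |t i| ^ r := by
          refine Finset.prod_congr rfl fun i hi => ?_
          rw [Function.update_of_ne (ne_of_mem_of_not_mem hi hjE)]
        rw [e1, e2, e3, e4] at h2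
        rw [Nf_apply]
        calc Np p (act ((trj j u - 1) ^ l *
              ((∏ j ∈ S, (trj j (t j) - 1)) * ∏ j ∈ E, (trj j (t j) - 1) ^ l)) f) =
            Np p (act ((∏ j ∈ S, (trj j (t j) - 1)) *
              ((trj j u - 1) ^ l * ∏ j ∈ E, (trj j (t j) - 1) ^ l)) f) := by
              congr 2
              ring_nf
          _ ≤ _ := h2
          _ = A * |u| ^ r := by rw [hA]; ring) (t j)
    rw [Nf_apply] at h1
    rw [Finset.prod_insert hj, Finset.prod_insert hj, Finset.card_insert_of_notMem hj, mul_assoc]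
    refine h1.trans ?_
    have h3 : 0 ≤ |t j| ^ r := Real.rpow_nonneg (abs_nonneg _) _
    calc C0 * A * |t j| ^ r ≤ C1 * A * |t j| ^ r := by gcongr
      _ = _ := by rw [hA, pow_succ]; ring

theorem mixed_first (d l : ℕ) (hl : 1 ≤ l) (r : ℝ) (hr0 : 0 < r) (hr1 : r < 1) (p : ℝ≥0∞)
    [Fact (1 ≤ p)] : ∃ C : ℝ, 0 ≤ C ∧ ∀ f ∈ HClass d l r p, ∀ (e : Finset (Fin d))
      (t : Fin d → ℝ),
      Np p (act (∏ j ∈ e, (trj j (t j) - 1)) f) ≤ C * ∏ j ∈ e, |t j| ^ r := by
  obtain ⟨C0, hC0, hM⟩ := marchaud l hl r hr0 hr1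
  refine ⟨(max 1 C0) ^ d, by positivity, ?_⟩
  intro f hf e t
  have h0 : Np p f ≤ 1 := by
    rw [Np_eq]
    have := ENNReal.toReal_mono ENNReal.one_ne_top hf.1
    simpa using this
  have h1 : ∀ e : Finset (Fin d), e.Nonempty → ∀ t : Fin d → ℝ,
      Np p (act (∏ j ∈ e, (trj j (t j) - 1) ^ l) f) ≤ ∏ j ∈ e, |t j| ^ r := by
    intro e he t
    have h2 := hf.2 e he t
    rw [mixedDiff_eq, eLpNorm_eq_Np] at h2
    have h3 : 0 ≤ ∏ j ∈ e, |t j| ^ r :=
      Finset.prod_nonneg fun _ _ => Real.rpow_nonneg (abs_nonneg _) _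
    exact (ENNReal.ofReal_le_ofReal_iff h3).1 h2
  have h2 := mixed_partial (le_refl C0 |> fun _ => hC0) (le_max_right 1 C0) hM h0 h1 e ∅
    (Finset.disjoint_empty_right e) t
  simp only [Finset.prod_empty, mul_one] at h2
  refine h2.trans ?_
  refine mul_le_mul_of_nonneg_right ?_
    (Finset.prod_nonneg fun _ _ => Real.rpow_nonneg (abs_nonneg _) _)
  exact pow_le_pow_right₀ (le_max_left 1 C0) (by simpa using Finset.card_le_univ e)

end Pool.Agent.Lib.P51a855
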