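import Pool.Agent.Lib.P51a855.Psi
import Pool.Agent.Lib.P51a855.First

/-!
The estimate of the Korobov formula on one dyadic block.
-/

set_option autoImplicit false

open MeasureTheory Finset
open scoped ENNReal NNReal

noncomputable section

namespace Pool.Agent.Lib.P51a855

variable {d : ℕ}

lemma integrable_mul' {f g : Torus d → ℝ} (hf : Continuous f) (hg : Continuous g) :
    Integrable (fun x => f x * g x) (haarT d) := integrable_of_cont (hf.mul hg)

/-- joint continuity of the action of a family of operators -/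
def ActCont (Φ : Torus d → TA d) : Prop :=
  ∀ g : Torus d → C(Torus d, ℝ), Continuous g → Continuous fun u => act (Φ u) (g u)

lemma actCont_one : ActCont (fun _ : Torus d => (1 : TA d)) := by
  intro g hg
  simpa using hg

lemma actCont_tr {h : Torus d → Torus d} (hh : Continuous h) : ActCont (fun u => tr (h u)) := by
  intro g hg
  have e : (fun u => act (tr (h u)) (g u)) = fun u => sh (h u) (g u) := by
    funext u
    exact act_tr _ _
  rw [e]
  refine ContinuousMap.continuous_of_continuous_uncurry _ ?_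
  show Continuous fun p : Torus d × Torus d => (g p.1) (p.2 + h p.1)
  exact (ContinuousEval.continuous_eval).comp ((hg.comp continuous_fst).prodMk
    (continuous_snd.add (hh.comp continuous_fst)))

lemma ActCont.sub_one {Φ : Torus d → TA d} (h : ActCont Φ) : ActCont (fun u => Φ u - 1) := by
  intro g hg
  have e : (fun u => act (Φ u - 1) (g u)) = fun u => act (Φ u) (g u) - g u := by
    funext u
    rw [map_sub, map_one]
    rfl
  rw [e]
  exact (h g hg).sub hg

lemma ActCont.mul {Φ Φ' : Torus d → TA d} (h : ActCont Φ) (h' : ActCont Φ') :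
    ActCont (fun u => Φ u * Φ' u) := by
  intro g hg
  have e : (fun u => act (Φ u * Φ' u) (g u)) = fun u => act (Φ u) (act (Φ' u) (g u)) := by
    funext u
    exact act_mul_apply _ _ _
  rw [e]
  exact h _ (h' g hg)

lemma actCont_prod (S : Finset (Fin d)) (Φ : Fin d → Torus d → TA d)
    (h : ∀ j, ActCont (Φ j)) : ActCont (fun u => ∏ j ∈ S, Φ j u) := by
  induction S using Finset.induction_on with
  | empty => simpa using actCont_one
  | insert j S hj ih =>
    have e : (fun u => ∏ j ∈ insert j S, Φ j u) = fun u => Φ j u * ∏ j ∈ S, Φ j u := by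
      funext u
      exact Finset.prod_insert hj
    rw [e]
    exact (h j).mul ih

/-- the translation by `-u_j` in the direction `j` -/
def tu (j : Fin d) (u : Torus d) : TA d := tr (Pi.single j (-(u j)))

lemma actCont_tu (j : Fin d) : ActCont (tu j) := by
  unfold tu
  refine actCont_tr ?_
  refine continuous_pi fun i => ?_
  by_cases h : i = j
  · subst h
    simp only [Pi.single_eq_same]
    fun_prop
  · simp only [Pi.single_eq_of_ne h]
    exact continuous_const

/-- differences in the directions of `e`, translations in the other ones -/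
def Theta (e : Finset (Fin d)) (u : Torus d) : TA d :=
  (∏ j ∈ e, (tu j u - 1)) * ∏ j ∈ eᶜ, tu j u

lemma actCont_Theta (e : Finset (Fin d)) : ActCont (Theta e) := by
  unfold Theta
  exact (actCont_prod e (fun j u => tu j u - 1) fun j => (actCont_tu j).sub_one).mul
    (actCont_prod eᶜ tu actCont_tu)

lemma tr_sum (S : Finset (Fin d)) (g : Fin d → Torus d) :
    ∏ j ∈ S, tr (g j) = tr (∑ j ∈ S, g j) := by
  induction S using Finset.induction_on with
  | empty => simp [tr_zero]
  | insert j S hj ih => rw [Finset.prod_insert hj, Finset.sum_insert hj, ih, tr_add]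

lemma Theta_empty (u : Torus d) : Theta ∅ u = tr (-u) := by
  unfold Theta tu
  rw [Finset.prod_empty, one_mul, Finset.compl_empty, tr_sum]
  congr 1
  exact Finset.univ_sum_single (-u)

/-- pairing with a continuous function -/
def pair (Ψ : Torus d → ℝ) (g : C(Torus d, ℝ)) : ℝ := ∫ z, Ψ z * g z ∂(haarT d)

lemma pair_sub {Ψ : Torus d → ℝ} (hΨ : Continuous Ψ) (g g' : C(Torus d, ℝ)) :
    pair Ψ (g - g') = pair Ψ g - pair Ψ g' := by
  unfold pair
  rw [← integral_sub (integrable_mul' hΨ g.continuous) (integrable_mul' hΨ g'.continuous)]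
  refine integral_congr_ae (Filter.Eventually.of_forall fun z => ?_)
  show Ψ z * (g z - g' z) = Ψ z * g z - Ψ z * g' z
  ring

lemma continuous_pair {Ψ : Torus d → ℝ} (hΨ : Continuous Ψ) {g : Torus d → C(Torus d, ℝ)}
    (hg : Continuous g) : Continuous fun u => pair Ψ (g u) := by
  unfold pair
  refine continuous_param (F := fun u z => Ψ z * g u z) ?_
  show Continuous fun p : Torus d × Torus d => Ψ p.2 * g p.1 p.2
  exact (hΨ.comp continuous_snd).mul (ContinuousEval.continuous_eval.comp
    ((hg.comp continuous_fst).prodMk continuous_snd))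

/-- the integral vanishes if one factor has mean zero and the rest does not depend on that
variable -/
lemma integral_mul_eq_zero (j : Fin d) {v : Circ → ℝ} (hv : Continuous v)
    (h0 : ∫ y, v y ∂AddCircle.haarAddCircle = 0) {G : Torus d → ℝ} (hG : Continuous G)
    (hinv : ∀ u (y : Circ), G (u + Pi.single j y) = G u) :
    ∫ u, v (u j) * G u ∂(haarT d) = 0 := by
  have h1 : ∀ y : Circ, ∫ u, v (u j) * G u ∂(haarT d) = ∫ u, v (u j + y) * G u ∂(haarT d) := by
    intro y
    rw [← integral_add_right_eq_self (fun u : Torus d => v (u j) * G u)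
      (Pi.single j y : Torus d)]
    refine integral_congr_ae (Filter.Eventually.of_forall fun u => ?_)
    show v ((u + (Pi.single j y : Torus d)) j) * G (u + (Pi.single j y : Torus d)) =
      v (u j + y) * G u
    rw [hinv, Pi.add_apply, Pi.single_eq_same]
  have h2 : ∫ u, v (u j) * G u ∂(haarT d) =
      ∫ y, ∫ u, v (u j + y) * G u ∂(haarT d) ∂AddCircle.haarAddCircle := by
    rw [← integral_congr_ae (Filter.Eventually.of_forall h1), integral_const]
    simp
  rw [h2, integral_integral_swap]
  · have h3 : ∀ u : Torus d, ∫ y, v (u j + y) * G u ∂AddCircle.haarAddCircle = 0 := by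
      intro u
      rw [integral_mul_const, integral_add_left_eq_self v (u j), h0, zero_mul]
    simp only [h3, integral_zero]
  · refine integrable_of_cont ?_
    show Continuous fun p : Circ × Torus d => v (p.2 j + p.1) * G p.2
    exact (hv.comp (by fun_prop : Continuous fun p : Circ × Torus d => p.2 j + p.1)).mul
      (hG.comp continuous_snd)

lemma tu_shift_ne {i j : Fin d} (h : i ≠ j) (u : Torus d) (y : Circ) :
    tu i (u + Pi.single j y) = tu i u := by
  unfold tu
  rw [Pi.add_apply, Pi.single_eq_of_ne h, add_zero]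

/-- the part that does not depend on one variable -/
def Gam (e e' : Finset (Fin d)) (u : Torus d) : TA d :=
  (∏ i ∈ e, (tu i u - 1)) * ∏ i ∈ e', tu i u

lemma actCont_Gam (e e' : Finset (Fin d)) : ActCont (Gam e e') := by
  unfold Gam
  exact (actCont_prod e (fun j u => tu j u - 1) fun j => (actCont_tu j).sub_one).mul
    (actCont_prod _ tu actCont_tu)

lemma Gam_shift {e e' : Finset (Fin d)} {j : Fin d} (hj : j ∉ e) (hj' : j ∉ e') (u : Torus d)
    (y : Circ) : Gam e e' (u + Pi.single j y) = Gam e e' u := by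
  have h1 : ∏ i ∈ e, (tu i (u + Pi.single j y) - 1) = ∏ i ∈ e, (tu i u - 1) :=
    Finset.prod_congr rfl fun i hi => by rw [tu_shift_ne (ne_of_mem_of_not_mem hi hj)]
  have h2 : ∏ i ∈ e', tu i (u + Pi.single j y) = ∏ i ∈ e', tu i u :=
    Finset.prod_congr rfl fun i hi => by rw [tu_shift_ne (ne_of_mem_of_not_mem hi hj')]
  unfold Gam
  rw [h1, h2]

lemma Theta_sub {e : Finset (Fin d)} {j : Fin d} (hj : j ∉ e) (u : Torus d) :
    Theta e u - Theta (insert j e) u = Gam e (insert j e)ᶜ u := by
  have hcompl : eᶜ = insert j (insert j e)ᶜ := by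
    ext i
    simp only [Finset.mem_compl, Finset.mem_insert]
    constructor
    · intro hi
      by_cases hij : i = j
      · exact Or.inl hij
      · exact Or.inr (fun h => h.elim hij hi)
    · rintro (rfl | h)
      · exact hj
      · exact fun hi => h (Or.inr hi)
  have hnot : j ∉ (insert j e)ᶜ := by simp
  unfold Theta Gam
  rw [hcompl, Finset.prod_insert hnot, Finset.prod_insert hj]
  ring

lemma insert_diff {Ψ : Torus d → ℝ} (hΨ : Continuous Ψ) (f : C(Torus d, ℝ)) (s : Fin d → ℕ)
    (e : Finset (Fin d)) (he : ∀ j ∈ e, s j ≠ 0) :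
    ∫ u, VK s u * pair Ψ (act (Theta ∅ u) f) ∂(haarT d) =
      ∫ u, VK s u * pair Ψ (act (Theta e u) f) ∂(haarT d) := by
  induction e using Finset.induction_on with
  | empty => rfl
  | insert j e hj ih =>
    rw [ih fun i hi => he i (Finset.mem_insert_of_mem hi)]
    have hsj : s j ≠ 0 := he j (Finset.mem_insert_self j e)
    have hVK := continuous_VK s
    have hc : ∀ E : Finset (Fin d), Continuous fun u => pair Ψ (act (Theta E u) f) := fun E =>
      continuous_pair hΨ ((actCont_Theta E) (fun _ => f) continuous_const)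
    rw [← sub_eq_zero, ← integral_sub (integrable_mul' hVK (hc e))
      (integrable_mul' hVK (hc (insert j e)))]
    have hnot : j ∉ (insert j e)ᶜ := by simp
    have hz := integral_mul_eq_zero (d := d) j (continuous_vker (s j))
      (integral_vker (s j) (Nat.one_le_iff_ne_zero.2 hsj))
      (G := fun u => (∏ i ∈ Finset.univ.erase j, vker (s i) (u i)) *
        pair Ψ (act (Gam e (insert j e)ᶜ u) f))
      ((continuous_finsetProd _ fun i _ => (continuous_vker (s i)).comp (continuous_apply i)).mul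
        (continuous_pair hΨ (actCont_Gam e (insert j e)ᶜ (fun _ => f) continuous_const)))
      (by
        intro u y
        have h1 : ∏ i ∈ Finset.univ.erase j, vker (s i) ((u + (Pi.single j y : Torus d)) i) =
            ∏ i ∈ Finset.univ.erase j, vker (s i) (u i) := by
          refine Finset.prod_congr rfl fun i hi => ?_
          rw [Pi.add_apply, Pi.single_eq_of_ne (Finset.ne_of_mem_erase hi), add_zero]
        rw [Gam_shift hj hnot, h1])
    rw [← hz]
    refine integral_congr_ae (Filter.Eventually.of_forall fun u => ?_)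
    show VK s u * pair Ψ (act (Theta e u) f) - VK s u * pair Ψ (act (Theta (insert j e) u) f) =
      vker (s j) (u j) * ((∏ i ∈ Finset.univ.erase j, vker (s i) (u i)) *
        pair Ψ (act (Gam e (insert j e)ᶜ u) f))
    have e5 : VK s u = vker (s j) (u j) * ∏ i ∈ Finset.univ.erase j, vker (s i) (u i) :=
      (Finset.mul_prod_erase Finset.univ (fun i => vker (s i) (u i)) (Finset.mem_univ j)).symm
    have e6 : act (Theta e u) f - act (Theta (insert j e) u) f =
        act (Gam e (insert j e)ᶜ u) f := by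
      rw [← Theta_sub hj, map_sub, LinearMap.sub_apply]
    rw [← mul_sub, ← pair_sub hΨ, ← mul_assoc, ← e5, e6]

/-- Hölder's inequality for the pairing -/
lemma abs_pair_le {p : ℝ≥0∞} [hp : Fact (1 ≤ p)] {Ψ : Torus d → ℝ} (hΨ : Continuous Ψ) {D : ℕ}
    (hD : ∀ z, |Ψ z| ≤ D) {M : ℝ} (hM : 1 ≤ M) (hL1 : ∫ z, |Ψ z| ∂(haarT d) ≤ M)
    (g : C(Torus d, ℝ)) : |pair Ψ g| ≤ M * phi (1 / p.toReal) D * Np p g := by
  have hM0 : (0 : ℝ) ≤ M := by linarith
  have hN0 : 0 ≤ Np p g := apply_nonneg _ _
  have hg := g.continuous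
  have habs : |pair Ψ g| ≤ ∫ z, |Ψ z| * |g z| ∂(haarT d) := by
    unfold pair
    refine (abs_integral_le_integral_abs).trans (le_of_eq ?_)
    refine integral_congr_ae (Filter.Eventually.of_forall fun z => ?_)
    exact abs_mul _ _
  rcases Nat.eq_zero_or_pos D with hD0 | hDpos
  · -- the kernel vanishes
    have h1 : ∀ z, Ψ z = 0 := by
      intro z
      have := hD z
      rw [hD0] at this
      simpa using this
    have h2 : pair Ψ g = 0 := by
      unfold pair
      simp [h1]
    rw [h2, hD0]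
    simp [phi]
  have hphi : phi (1 / p.toReal) D = (D : ℝ) ^ (1 / p.toReal) := by
    unfold phi
    rw [if_neg (by omega)]
  have hD1 : (1 : ℝ) ≤ D := by exact_mod_cast hDpos
  rw [hphi]
  rcases eq_or_ne p ⊤ with hptop | hptop
  · -- `p = ∞`
    subst hptop
    have hae : ∀ᵐ z ∂(haarT d), |g z| ≤ Np ⊤ g := by
      have h1 := ae_le_eLpNormEssSup (f := (g : Torus d → ℝ)) (μ := haarT d)
      filter_upwards [h1] with z hz
      rw [Np_eq, eLpNorm_exponent_top]
      rw [← Real.norm_eq_abs, ← toReal_enorm]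
      refine ENNReal.toReal_mono ?_ hz
      have := eLpNorm_ne_top ⊤ g
      rwa [eLpNorm_exponent_top] at this
    rw [ENNReal.toReal_top, div_zero, Real.rpow_zero, mul_one]
    calc |pair Ψ g| ≤ ∫ z, |Ψ z| * |g z| ∂(haarT d) := habs
      _ ≤ ∫ z, |Ψ z| * Np ⊤ g ∂(haarT d) := by
          refine integral_mono_ae (integrable_mul' hΨ.abs hg.abs)
            ((integrable_of_cont hΨ.abs).mul_const _) ?_
          filter_upwards [hae] with z hz
          exact mul_le_mul_of_nonneg_left hz (abs_nonneg _)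
      _ = (∫ z, |Ψ z| ∂(haarT d)) * Np ⊤ g := integral_mul_const _ _
      _ ≤ M * Np ⊤ g := mul_le_mul_of_nonneg_right hL1 hN0
  rcases eq_or_ne p 1 with hp1 | hp1
  · -- `p = 1`
    subst hp1
    have h1 : Np 1 g = ∫ z, |g z| ∂(haarT d) := by
      rw [Np_eq, eLpNorm_one_eq_lintegral_enorm, ← integral_norm_eq_lintegral_enorm
        hg.aestronglyMeasurable]
      rfl
    rw [ENNReal.toReal_one, div_one, Real.rpow_one]
    calc |pair Ψ g| ≤ ∫ z, |Ψ z| * |g z| ∂(haarT d) := habs
      _ ≤ ∫ z, (D : ℝ) * |g z| ∂(haarT d) := by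
          refine integral_mono (integrable_mul' hΨ.abs hg.abs)
            ((integrable_of_cont hg.abs).const_mul _) fun z => ?_
          exact mul_le_mul_of_nonneg_right (hD z) (abs_nonneg _)
      _ = D * Np 1 g := by rw [integral_const_mul, h1]
      _ ≤ M * D * Np 1 g := by
          refine mul_le_mul_of_nonneg_right ?_ hN0
          nlinarith
  · -- `1 < p < ∞`
    set P : ℝ := p.toReal with hP
    have hP1 : 1 < P := by
      have h1 : 1 < p := lt_of_le_of_ne hp.out (Ne.symm hp1)
      have := (ENNReal.toReal_lt_toReal ENNReal.one_ne_top hptop).2 h1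
      simpa using this
    have hP0 : 0 < P := by linarith
    set Q : ℝ := P.conjExponent with hQ
    have hPQ : P.HolderConjugate Q := Real.HolderConjugate.conjExponent hP1
    have hQ1 : 1 < Q := hPQ.symm.lt
    have hQ0 : 0 < Q := by linarith
    have hmem : ∀ (F : Torus d → ℝ) (P' : ℝ), Continuous F →
        MemLp F (ENNReal.ofReal P') (haarT d) := by
      intro F P' hF
      obtain ⟨B, hB⟩ : ∃ B, ∀ z, ‖F z‖ ≤ B := by
        obtain ⟨B, hB⟩ := (isCompact_range hF).isBounded.exists_norm_le
        exact ⟨B, fun z => hB _ (Set.mem_range_self z)⟩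
      exact MemLp.of_bound hF.aestronglyMeasurable B (Filter.Eventually.of_forall hB)
    have hH := integral_mul_le_Lp_mul_Lq_of_nonneg hPQ (μ := haarT d)
      (f := fun z => |g z|) (g := fun z => |Ψ z|)
      (Filter.Eventually.of_forall fun z => abs_nonneg _)
      (Filter.Eventually.of_forall fun z => abs_nonneg _) (hmem _ P hg.abs) (hmem _ Q hΨ.abs)
    have hNg : Np p g = (∫ z, |g z| ^ P ∂(haarT d)) ^ (1 / P) := by
      have h1 : MemLp (g : Torus d → ℝ) p (haarT d) := by
        have := hmem g P hg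
        rwa [hP, ENNReal.ofReal_toReal hptop] at this
      rw [Np_eq, h1.eLpNorm_eq_integral_rpow_norm (by
        intro h0
        rw [h0] at hp
        exact absurd hp.out (by simp)) hptop, ENNReal.toReal_ofReal (by positivity), one_div]
      rfl
    have hPsi : (∫ z, |Ψ z| ^ Q ∂(haarT d)) ^ (1 / Q) ≤ M * (D : ℝ) ^ (1 / P) := by
      have h1 : ∫ z, |Ψ z| ^ Q ∂(haarT d) ≤ (D : ℝ) ^ (Q - 1) * M := by
        calc ∫ z, |Ψ z| ^ Q ∂(haarT d) ≤ ∫ z, (D : ℝ) ^ (Q - 1) * |Ψ z| ∂(haarT d) := by
              refine integral_mono (integrable_of_cont ?_)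
                ((integrable_of_cont hΨ.abs).const_mul _) fun z => ?_
              · exact hΨ.abs.rpow_const fun _ => Or.inr hQ0.le
              · show |Ψ z| ^ Q ≤ (D : ℝ) ^ (Q - 1) * |Ψ z|
                have h2 : |Ψ z| ^ Q = |Ψ z| ^ (Q - 1) * |Ψ z| := by
                  rcases eq_or_lt_of_le (abs_nonneg (Ψ z)) with h | h
                  · rw [← h, Real.zero_rpow hQ0.ne', mul_zero]
                  · rw [← Real.rpow_add_one h.ne', sub_add_cancel]
                rw [h2]
                refine mul_le_mul_of_nonneg_right ?_ (abs_nonneg _)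
                exact Real.rpow_le_rpow (abs_nonneg _) (hD z) (by linarith)
          _ = (D : ℝ) ^ (Q - 1) * ∫ z, |Ψ z| ∂(haarT d) := integral_const_mul _ _
          _ ≤ (D : ℝ) ^ (Q - 1) * M := mul_le_mul_of_nonneg_left hL1 (by positivity)
      have h3 : (0 : ℝ) ≤ ∫ z, |Ψ z| ^ Q ∂(haarT d) :=
        integral_nonneg fun z => Real.rpow_nonneg (abs_nonneg _) _
      calc (∫ z, |Ψ z| ^ Q ∂(haarT d)) ^ (1 / Q) ≤ ((D : ℝ) ^ (Q - 1) * M) ^ (1 / Q) :=
            Real.rpow_le_rpow h3 h1 (by positivity)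
        _ = (D : ℝ) ^ ((Q - 1) * (1 / Q)) * M ^ (1 / Q) := by
            rw [Real.mul_rpow (by positivity) hM0, ← Real.rpow_mul (by positivity)]
        _ ≤ (D : ℝ) ^ (1 / P) * M := by
            have h4 : (Q - 1) * (1 / Q) = 1 / P := by
              have h5 := hPQ.inv_add_inv_eq_one
              field_simp
              field_simp at h5
              linarith
            rw [h4]
            refine mul_le_mul_of_nonneg_left ?_ (by positivity)
            calc M ^ (1 / Q) ≤ M ^ (1 : ℝ) := by
                  refine Real.rpow_le_rpow_of_exponent_le hM ?_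
                  rw [div_le_one hQ0]
                  exact hQ1.le
              _ = M := Real.rpow_one M
        _ = M * (D : ℝ) ^ (1 / P) := mul_comm _ _
    calc |pair Ψ g| ≤ ∫ z, |Ψ z| * |g z| ∂(haarT d) := habs
      _ = ∫ z, |g z| * |Ψ z| ∂(haarT d) := by simp_rw [mul_comm]
      _ ≤ (∫ z, |g z| ^ P ∂(haarT d)) ^ (1 / P) * (∫ z, |Ψ z| ^ Q ∂(haarT d)) ^ (1 / Q) := hH
      _ ≤ Np p g * (M * (D : ℝ) ^ (1 / P)) := by
          rw [← hNg]
          exact mul_le_mul_of_nonneg_left hPsi hN0
      _ = M * (D : ℝ) ^ (1 / P) * Np p g := mul_comm _ _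

/-- every point of the circle has a representative of minimal absolute value -/
lemma exists_rep (u : Circ) : ∃ t : ℝ, (t : Circ) = u ∧ |t| = ‖u‖ := by
  induction u using QuotientAddGroup.induction_on with
  | H x =>
    refine ⟨x - round ((2 * Real.pi)⁻¹ * x) * (2 * Real.pi), ?_, ?_⟩
    · rw [AddCircle.coe_sub]
      have : ((round ((2 * Real.pi)⁻¹ * x) * (2 * Real.pi) : ℝ) : Circ) = 0 := by
        rw [AddCircle.coe_eq_zero_iff]
        exact ⟨round ((2 * Real.pi)⁻¹ * x), by simp⟩
      rw [this, sub_zero]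
    · exact (AddCircle.norm_eq (2 * Real.pi)).symm

lemma Np_prod_tr (p : ℝ≥0∞) [Fact (1 ≤ p)] (S : Finset (Fin d)) (u : Torus d) (a : TA d)
    (f : C(Torus d, ℝ)) : Np p (act (a * ∏ j ∈ S, tu j u) f) = Np p (act a f) := by
  unfold tu
  rw [tr_sum]
  have h : a * tr (∑ j ∈ S, (Pi.single j (-(u j)) : Torus d)) =
      tr (∑ j ∈ S, (Pi.single j (-(u j)) : Torus d)) * a := mul_comm _ _
  rw [h, Np_tr_mul]

lemma rep_single (j : Fin d) (u : Torus d) {t : ℝ} (ht : (t : Circ) = u j) :
    tu j u = trj j (-t) := by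
  unfold tu trj
  rw [AddCircle.coe_neg, ht]

/-- the norm of the differences -/
lemma Np_Theta_le {r : ℝ} {p : ℝ≥0∞} [Fact (1 ≤ p)] {C : ℝ} {f : C(Torus d, ℝ)}
    (hf : ∀ (e : Finset (Fin d)) (t : Fin d → ℝ),
      Np p (act (∏ j ∈ e, (trj j (t j) - 1)) f) ≤ C * ∏ j ∈ e, |t j| ^ r)
    (e : Finset (Fin d)) (u : Torus d) :
    Np p (act (Theta e u) f) ≤ C * ∏ j ∈ e, ‖u j‖ ^ r := by
  choose t ht using fun j => exists_rep (u j)
  unfold Theta
  rw [Np_prod_tr]
  have h1 := hf e (fun j => -(t j))
  have h2 : ∏ j ∈ e, (trj j (-(t j)) - 1) = ∏ j ∈ e, (tu j u - 1) :=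
    Finset.prod_congr rfl fun j _ => by rw [rep_single j u (ht j).1]
  have h3 : ∏ j ∈ e, |-(t j)| ^ r = ∏ j ∈ e, ‖u j‖ ^ r :=
    Finset.prod_congr rfl fun j _ => by rw [abs_neg, (ht j).2]
  rw [h2, h3] at h1
  exact h1

/-- the estimate of one block -/
lemma block_bound {r : ℝ} (hr0 : 0 < r) (hr1 : r < 1) {p : ℝ≥0∞} [Fact (1 ≤ p)] {C : ℝ}
    (hC : 0 ≤ C) {Cv : ℝ} (hCv1 : 1 ≤ Cv)
    (hCv : ∀ s : ℕ, 1 ≤ s →
      ∫ x, |vker s x| * ‖x‖ ^ r ∂AddCircle.haarAddCircle ≤ Cv * (2 : ℝ) ^ (-(r * s)))
    {f : C(Torus d, ℝ)}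
    (hf : ∀ (e : Finset (Fin d)) (t : Fin d → ℝ),
      Np p (act (∏ j ∈ e, (trj j (t j) - 1)) f) ≤ C * ∏ j ∈ e, |t j| ^ r)
    {m : ℕ} (hm : 1 ≤ m) (a : Fin d → ℤ) (s : Fin d → ℕ) :
    |korobov m a (blk s f)| ≤ 4 ^ d * C * Cv ^ d *
      ((2 : ℝ) ^ (-(r * ∑ j, (s j : ℝ))) * phi (1 / p.toReal) (Dcount m s a)) := by
  have hΨ := continuous_Psi m a s
  set e : Finset (Fin d) := Finset.univ.filter fun j => s j ≠ 0 with he
  set Φ : ℝ := phi (1 / p.toReal) (Dcount m s a) with hΦ
  have hΦ0 : 0 ≤ Φ := by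
    rw [hΦ]
    unfold phi
    split_ifs
    · exact le_rfl
    · positivity
  have h4 : (1 : ℝ) ≤ 4 ^ d := one_le_pow₀ (by norm_num)
  have hVK := continuous_VK s
  -- rewrite the formula with differences
  have h1 : korobov m a (blk s f) =
      ∫ u, VK s u * pair (Psi m a s) (act (Theta e u) f) ∂(haarT d) := by
    rw [korobov_blk, ← insert_diff hΨ f s e (fun j hj => (Finset.mem_filter.1 hj).2)]
    refine integral_congr_ae (Filter.Eventually.of_forall fun u => ?_)
    show VK s u * ∫ z, Psi m a s z * f (z - u) ∂(haarT d) =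
      VK s u * pair (Psi m a s) (act (Theta ∅ u) f)
    rw [Theta_empty, act_tr]
    unfold pair
    simp only [sh_apply, sub_eq_add_neg]
  -- the pointwise estimate
  have h2 : ∀ u, |VK s u * pair (Psi m a s) (act (Theta e u) f)| ≤
      (4 ^ d * Φ * C) * ∏ j, (fun (j : Fin d) (y : Circ) =>
        |vker (s j) y| * (if s j ≠ 0 then ‖y‖ ^ r else 1)) j (u j) := by
    intro u
    have h3 := abs_pair_le (p := p) hΨ (abs_Psi_le m hm a s) h4 (integral_abs_Psi m hm a s)
      (act (Theta e u) f)
    have h5 := Np_Theta_le hf e u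
    have h6 : ∏ j ∈ e, ‖u j‖ ^ r = ∏ j, (if s j ≠ 0 then ‖u j‖ ^ r else 1) := by
      rw [he, Finset.prod_filter]
    have h7 : |VK s u| = ∏ j, |vker (s j) (u j)| := by
      unfold VK
      rw [Finset.abs_prod]
    rw [abs_mul, Finset.prod_mul_distrib, ← h6, ← h7]
    have h8 : (0 : ℝ) ≤ 4 ^ d * Φ := mul_nonneg (by positivity) hΦ0
    calc |VK s u| * |pair (Psi m a s) (act (Theta e u) f)| ≤
        |VK s u| * (4 ^ d * Φ * (C * ∏ j ∈ e, ‖u j‖ ^ r)) := by
          refine mul_le_mul_of_nonneg_left (h3.trans ?_) (abs_nonneg _)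
          exact mul_le_mul_of_nonneg_left h5 h8
      _ = _ := by ring
  have hcont : Continuous fun u : Torus d => ∏ j, (fun (j : Fin d) (y : Circ) =>
        |vker (s j) y| * (if s j ≠ 0 then ‖y‖ ^ r else 1)) j (u j) := by
    refine continuous_finsetProd _ fun j _ => ?_
    have h9 : Continuous fun y : Circ => |vker (s j) y| * (if s j ≠ 0 then ‖y‖ ^ r else 1) := by
      refine (continuous_vker (s j)).abs.mul ?_
      split_ifs
      · exact continuous_norm.rpow_const fun _ => Or.inr hr0.le
      · exact continuous_const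
    exact h9.comp (continuous_apply j)
  rw [h1]
  have hint : Integrable (fun u => VK s u * pair (Psi m a s) (act (Theta e u) f)) (haarT d) :=
    integrable_mul' hVK (continuous_pair hΨ ((actCont_Theta e) (fun _ => f) continuous_const))
  have h10 : ∏ j, ∫ y, (fun (j : Fin d) (y : Circ) =>
        |vker (s j) y| * (if s j ≠ 0 then ‖y‖ ^ r else 1)) j y ∂AddCircle.haarAddCircle ≤
      ∏ j : Fin d, (Cv * (2 : ℝ) ^ (-(r * (s j : ℝ)))) := by
    refine Finset.prod_le_prod (fun j _ => integral_nonneg fun y => ?_) fun j _ => ?_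
    · refine mul_nonneg (abs_nonneg _) ?_
      split_ifs
      · exact Real.rpow_nonneg (norm_nonneg _) _
      · exact zero_le_one
    · by_cases hs : s j = 0
      · simp only [hs, ne_eq, not_true_eq_false, if_false, mul_one, vker, abs_one]
        simp only [Nat.cast_zero, mul_zero, neg_zero, Real.rpow_zero, mul_one]
        rw [integral_const]
        simpa using hCv1
      · simp only [ne_eq, hs, not_false_eq_true, if_true]
        exact hCv (s j) (Nat.one_le_iff_ne_zero.2 hs)
  calc |∫ u, VK s u * pair (Psi m a s) (act (Theta e u) f) ∂(haarT d)| ≤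
      ∫ u, |VK s u * pair (Psi m a s) (act (Theta e u) f)| ∂(haarT d) :=
        abs_integral_le_integral_abs
    _ ≤ ∫ u, (4 ^ d * Φ * C) * ∏ j, (fun (j : Fin d) (y : Circ) =>
        |vker (s j) y| * (if s j ≠ 0 then ‖y‖ ^ r else 1)) j (u j) ∂(haarT d) :=
        integral_mono hint.abs ((integrable_of_cont hcont).const_mul _) h2
    _ = (4 ^ d * Φ * C) * ∏ j, ∫ y, (fun (j : Fin d) (y : Circ) =>
        |vker (s j) y| * (if s j ≠ 0 then ‖y‖ ^ r else 1)) j y ∂AddCircle.haarAddCircle := by
        rw [integral_const_mul]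
        congr 1
        exact integral_prod_haarT (fun (j : Fin d) (y : Circ) =>
          |vker (s j) y| * (if s j ≠ 0 then ‖y‖ ^ r else 1))
    _ ≤ (4 ^ d * Φ * C) * ∏ j : Fin d, (Cv * (2 : ℝ) ^ (-(r * (s j : ℝ)))) := by
        refine mul_le_mul_of_nonneg_left h10 ?_
        exact mul_nonneg (mul_nonneg (by positivity) hΦ0) hC
    _ = 4 ^ d * C * Cv ^ d * ((2 : ℝ) ^ (-(r * ∑ j, (s j : ℝ))) * Φ) := by
        have h11 : ∏ j : Fin d, (Cv * (2 : ℝ) ^ (-(r * (s j : ℝ)))) =
            Cv ^ d * (2 : ℝ) ^ (-(r * ∑ j, (s j : ℝ))) := by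
          rw [Finset.prod_mul_distrib, Finset.prod_const, Finset.card_univ, Fintype.card_fin,
            ← Real.rpow_sum_of_pos (by norm_num : (0 : ℝ) < 2), Finset.sum_neg_distrib,
            ← Finset.mul_sum]
        rw [h11]
        ring

end Pool.Agent.Lib.P51a855
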