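import Pool.Agent.Lib.P51a855.Defs

/-!
Module Count: the average number of dual lattice points in dyadic boxes.
-/

set_option autoImplicit false

open Finset

noncomputable section

namespace Pool.Agent.Lib.P51a855

namespace CountAux

/-- number of solutions of one linear congruence -/
theorem count_kernel {d m : ℕ} (hm : 1 ≤ m) (k : Fin d → ℤ) :
    ∃ δ : ℕ, 1 ≤ δ ∧ δ ∣ m ∧ (∀ j, (δ : ℤ) ∣ k j) ∧
      ((univ : Finset (Fin d → Fin m)).filter
        (fun a => (m : ℤ) ∣ ∑ j, k j * ((a j : ℕ) : ℤ))).card * m ≤ δ * m ^ d := by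
  have : NeZero m := ⟨by omega⟩
  set φ : (Fin d → ZMod m) →+ ZMod m :=
    { toFun := fun a => ∑ j, (k j : ZMod m) * a j
      map_zero' := by simp
      map_add' := fun a b => by simp [mul_add, sum_add_distrib] } with hφ
  have hφapp : ∀ a, φ a = ∑ j, (k j : ZMod m) * a j := fun a => rfl
  set h := Nat.card φ.range with hh
  have hcard : Nat.card φ.ker * h = m ^ d := by
    have h1 := φ.ker.card_mul_index
    rw [AddSubgroup.index_ker] at h1
    rw [h1]; simp
  have hdvd : h ∣ m := by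
    have := φ.range.card_addSubgroup_dvd_card
    rw [Nat.card_zmod] at this
    exact this
  obtain ⟨δ, hδ⟩ := hdvd
  have hh0 : 0 < h := Nat.card_pos
  have hδ0 : 0 < δ := by
    rcases Nat.eq_zero_or_pos δ with h0 | h0
    · rw [h0, mul_zero] at hδ; omega
    · exact h0
  refine ⟨δ, hδ0, ⟨h, by rw [hδ, mul_comm]⟩, fun j => ?_, ?_⟩
  · have h1 : (k j : ZMod m) ∈ φ.range := by
      refine ⟨Pi.single j 1, ?_⟩
      rw [hφapp, Finset.sum_eq_single j]
      · simp
      · intro i _ hi; simp [Pi.single_eq_of_ne hi]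
      · intro hj; exact absurd (mem_univ j) hj
    have h2 : h • (⟨(k j : ZMod m), h1⟩ : φ.range) = 0 := card_nsmul_eq_zero'
    have h3 : h • (k j : ZMod m) = 0 := by
      have := congrArg (fun x : φ.range => (x : ZMod m)) h2
      simpa using this
    rw [nsmul_eq_mul] at h3
    have h4 : (((h : ℤ) * k j : ℤ) : ZMod m) = 0 := by push_cast; exact_mod_cast h3
    rw [ZMod.intCast_zmod_eq_zero_iff_dvd] at h4
    have h5 : ((h : ℤ) * (δ : ℤ)) ∣ (h : ℤ) * k j := by
      have : (m : ℤ) = (h : ℤ) * (δ : ℤ) := by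
        have := congrArg (fun x : ℕ => (x : ℤ)) hδ
        simpa using this
      rw [← this]; exact h4
    exact (mul_dvd_mul_iff_left (by exact_mod_cast hh0.ne')).1 h5
  · have h1 : ((univ : Finset (Fin d → Fin m)).filter
        (fun a => (m : ℤ) ∣ ∑ j, k j * ((a j : ℕ) : ℤ))).card ≤ Nat.card φ.ker := by
      set f : (Fin d → Fin m) → (Fin d → ZMod m) := fun a j => ((a j : ℕ) : ZMod m) with hf
      have hfinj : Function.Injective f := by
        intro a b hab
        funext j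
        have h3 : ((a j : ℕ) : ZMod m) = ((b j : ℕ) : ZMod m) := congrFun hab j
        rw [ZMod.natCast_eq_natCast_iff'] at h3
        rw [Nat.mod_eq_of_lt (a j).2, Nat.mod_eq_of_lt (b j).2] at h3
        exact Fin.ext h3
      have h4 : Nat.card φ.ker = ((univ : Finset (Fin d → ZMod m)).filter
          (fun x => φ x = 0)).card := by
        rw [← Fintype.card_subtype, ← Nat.card_eq_fintype_card]
        rfl
      rw [h4]
      refine card_le_card_of_injOn f (fun a ha => ?_) hfinj.injOn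
      have ha := (mem_filter.1 ha).2
      rw [mem_coe, mem_filter]
      refine ⟨mem_univ _, ?_⟩
      rw [hφapp]
      rw [← ZMod.intCast_zmod_eq_zero_iff_dvd] at ha
      rw [← ha]; push_cast; rfl
    have h2 : Nat.card φ.ker * m = δ * m ^ d := by
      calc Nat.card φ.ker * m = Nat.card φ.ker * (h * δ) := congrArg _ hδ
        _ = δ * (Nat.card φ.ker * h) := by ring
        _ = δ * m ^ d := by rw [hcard]
    calc _ ≤ Nat.card φ.ker * m := Nat.mul_le_mul_right _ h1
      _ = δ * m ^ d := h2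

/-- number of multiples of `δ` in the box of level `s` -/
theorem card_fbox_dvd (s : ℕ) (δ : ℕ) (hδ : 1 ≤ δ) :
    (((fbox s).filter (fun x => (δ : ℤ) ∣ x)).card : ℝ) ≤
      if s = 0 then 1 else (2 : ℝ) ^ (s + 2) / δ := by
  unfold fbox
  split_ifs with hs
  · calc (((({0} : Finset ℤ)).filter (fun x => (δ : ℤ) ∣ x)).card : ℝ)
        ≤ ((({0} : Finset ℤ)).card : ℝ) := by exact_mod_cast card_filter_le _ _
      _ = 1 := by simp
  · have hδ0 : (0 : ℤ) < δ := by exact_mod_cast hδ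
    -- the multiples are `δ * y`, `y ≠ 0`, `|y| ≤ q`, `q = (2^(s+1)-1)/δ`
    set q : ℕ := 2 ^ (s + 1) / δ with hq
    have hsub : ((Finset.Ioo (-(2 : ℤ) ^ (s + 1)) ((2 : ℤ) ^ (s + 1))).erase 0).filter
        (fun x => (δ : ℤ) ∣ x) ⊆
        ((Finset.Icc (-(q : ℤ)) (q : ℤ)).erase 0).image (fun y => (δ : ℤ) * y) := by
      intro x hx
      rw [mem_filter, mem_erase, mem_Ioo] at hx
      obtain ⟨⟨hx0, hx1, hx2⟩, y, hy⟩ := hx
      rw [mem_image]
      refine ⟨y, ?_, hy.symm⟩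
      rw [mem_erase, mem_Icc]
      have hy0 : y ≠ 0 := by
        rintro rfl; apply hx0; rw [hy, mul_zero]
      have hle : ∀ z : ℤ, (δ : ℤ) * z < 2 ^ (s + 1) → z ≤ q := by
        intro z hz
        have : (q : ℤ) = 2 ^ (s + 1) / (δ : ℤ) := by rw [hq]; push_cast; rfl
        rw [this, Int.le_ediv_iff_mul_le hδ0, mul_comm]
        exact hz.le
      refine ⟨hy0, ?_, ?_⟩
      · have := hle (-y) (by rw [mul_neg, ← hy]; linarith)
        linarith
      · exact hle y (by rw [← hy]; exact hx2)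
    have hcard : (((Finset.Icc (-(q : ℤ)) (q : ℤ)).erase 0).image
        (fun y => (δ : ℤ) * y)).card ≤ 2 * q := by
      refine card_image_le.trans ?_
      rw [card_erase_of_mem (by rw [mem_Icc]; constructor <;> simp), Int.card_Icc]
      omega
    have h1 := (card_le_card hsub).trans hcard
    have h2 : (q : ℝ) ≤ 2 ^ (s + 1) / δ := by
      rw [hq]
      have := @Nat.cast_div_le ℝ _ _ _ (2 ^ (s + 1)) δ
      push_cast at this
      exact this
    calc _ ≤ ((2 * q : ℕ) : ℝ) := by exact_mod_cast h1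
      _ = 2 * (q : ℝ) := by push_cast; ring
      _ ≤ 2 * (2 ^ (s + 1) / δ) := by linarith
      _ = 2 ^ (s + 2) / δ := by rw [pow_succ 2 (s + 1)]; ring

/-- the size of the support -/
def supp {d : ℕ} (s : Fin d → ℕ) : ℕ := (univ.filter fun j => s j ≠ 0).card

/-- number of points of the box all of whose coordinates are divisible by `δ` -/
theorem card_box_dvd {d : ℕ} (s : Fin d → ℕ) (δ : ℕ) (hδ : 1 ≤ δ) :
    (((Fintype.piFinset fun j => fbox (s j)).filter
      (fun k => ∀ j, (δ : ℤ) ∣ k j)).card : ℝ) ≤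
      4 ^ d * 2 ^ (∑ j, s j) / (δ : ℝ) ^ supp s := by
  have h1 : (Fintype.piFinset fun j => fbox (s j)).filter (fun k => ∀ j, (δ : ℤ) ∣ k j) =
      Fintype.piFinset fun j => (fbox (s j)).filter (fun x => (δ : ℤ) ∣ x) := by
    ext k
    simp only [mem_filter, Fintype.mem_piFinset]
    constructor
    · rintro ⟨h1, h2⟩ j; exact ⟨h1 j, h2 j⟩
    · intro h; exact ⟨fun j => (h j).1, fun j => (h j).2⟩
  rw [h1, Fintype.card_piFinset]
  push_cast
  have hδ0 : (0 : ℝ) < δ := by exact_mod_cast hδ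
  calc ∏ j, (((fbox (s j)).filter (fun x => (δ : ℤ) ∣ x)).card : ℝ)
      ≤ ∏ j, (4 * 2 ^ (s j) * (if s j ≠ 0 then (1 / (δ : ℝ)) else 1)) := by
        refine prod_le_prod (fun j _ => Nat.cast_nonneg _) (fun j _ => ?_)
        refine (card_fbox_dvd (s j) δ hδ).trans ?_
        by_cases hs : s j = 0
        · simp [hs]
        · rw [if_neg hs, if_pos hs]
          rw [pow_add]
          apply le_of_eq; ring
    _ = (∏ _j : Fin d, (4 : ℝ)) * (∏ j, (2 : ℝ) ^ (s j)) *
          ∏ j, (if s j ≠ 0 then (1 / (δ : ℝ)) else 1) := by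
        rw [prod_mul_distrib, prod_mul_distrib]
    _ = 4 ^ d * 2 ^ (∑ j, s j) / (δ : ℝ) ^ supp s := by
        rw [prod_const, prod_pow_eq_pow_sum, ← prod_filter, prod_const]
        simp only [card_univ, Fintype.card_fin]
        unfold supp
        rw [one_div, inv_pow]
        rfl

/-- `∑_{δ ∣ m} 1 / δ` -/
theorem sum_divisors_inv (m : ℕ) :
    ∑ δ ∈ m.divisors, (1 / (δ : ℝ)) ≤ 1 + Real.log m := by
  have h1 := harmonic_le_one_add_log m
  have h2 : (harmonic m : ℝ) = ∑ δ ∈ Icc 1 m, (1 / (δ : ℝ)) := by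
    rw [harmonic_eq_sum_Icc]; push_cast; simp
  refine le_trans ?_ h1
  rw [h2]
  refine sum_le_sum_of_subset_of_nonneg (fun δ hδ => ?_) (fun δ _ _ => by positivity)
  rw [mem_Icc]
  exact ⟨Nat.pos_of_mem_divisors hδ, Nat.divisor_le hδ⟩

theorem sum_Icc_sq (m : ℕ) (hm : 1 ≤ m) :
    ∑ δ ∈ Icc 1 m, (1 / (δ : ℝ) ^ 2) ≤ 2 - 1 / (m : ℝ) := by
  induction m, hm using Nat.le_induction with
  | base => norm_num
  | succ n hn ih =>
    rw [sum_Icc_succ_top (by omega)]
    have hn0 : (0 : ℝ) < n := by exact_mod_cast hn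
    have : (1 : ℝ) / ((n + 1 : ℕ) : ℝ) ^ 2 ≤ 1 / n - 1 / ((n + 1 : ℕ) : ℝ) := by
      push_cast
      rw [div_sub_div _ _ hn0.ne' (by positivity), div_le_div_iff₀ (by positivity) (by positivity)]
      nlinarith
    linarith

/-- `∑_{δ ∣ m} 1 / δ^2` -/
theorem sum_divisors_inv_sq (m : ℕ) (hm : 1 ≤ m) :
    ∑ δ ∈ m.divisors, (1 / (δ : ℝ) ^ 2) ≤ 2 := by
  have h0 := sum_Icc_sq m hm
  have h1 : (0 : ℝ) ≤ 1 / (m : ℝ) := by positivity
  refine le_trans ?_ (h0.trans (by linarith))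
  refine sum_le_sum_of_subset_of_nonneg (fun δ hδ => ?_) (fun δ _ _ => by positivity)
  rw [mem_Icc]
  exact ⟨Nat.pos_of_mem_divisors hδ, Nat.divisor_le hδ⟩

/-- the weight of a level -/
def wt (m u : ℕ) : ℝ := if u = 2 then 1 + Real.log m else 2

theorem sum_div_pow (m u : ℕ) (hm : 1 ≤ m) (hu : 2 ≤ u) :
    ∑ δ ∈ m.divisors, ((δ : ℝ) / (δ : ℝ) ^ u) ≤ wt m u := by
  unfold wt
  split_ifs with h
  · subst h
    refine le_trans (le_of_eq ?_) (sum_divisors_inv m)
    refine sum_congr rfl fun δ hδ => ?_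
    have : (0 : ℝ) < δ := by exact_mod_cast Nat.pos_of_mem_divisors hδ
    field_simp
  · refine le_trans (sum_le_sum fun δ hδ => ?_) (sum_divisors_inv_sq m hm)
    have h1 : (1 : ℝ) ≤ δ := by exact_mod_cast Nat.pos_of_mem_divisors hδ
    rw [div_le_div_iff₀ (by positivity) (by positivity)]
    calc (δ : ℝ) * (δ : ℝ) ^ 2 = (δ : ℝ) ^ 3 := by ring
      _ ≤ (δ : ℝ) ^ u := pow_le_pow_right₀ h1 (by omega)
      _ = 1 * (δ : ℝ) ^ u := by ring

/-- the mean count at one level -/
theorem mean_level {d : ℕ} (hd : 1 ≤ d) (m : ℕ) (hm : 1 ≤ m) (s : Fin d → ℕ) (hs : 2 ≤ supp s) :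
    ∑ a : Fin d → Fin m, (Dcount m s (fun j => ((a j : ℕ) : ℤ)) : ℝ) ≤
      4 ^ d * 2 ^ (∑ j, s j) * wt m (supp s) * (m : ℝ) ^ (d - 1) := by
  have hm0 : (0 : ℝ) < m := by exact_mod_cast hm
  -- exchange the sums
  have h1 : ∑ a : Fin d → Fin m, (Dcount m s (fun j => ((a j : ℕ) : ℤ)) : ℝ) =
      ∑ k ∈ Fintype.piFinset (fun j => fbox (s j)),
        (((univ : Finset (Fin d → Fin m)).filter
          (fun a => (m : ℤ) ∣ ∑ j, k j * ((a j : ℕ) : ℤ))).card : ℝ) := by
    unfold Dcount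
    simp only [card_filter]
    push_cast
    rw [sum_comm]
  rw [h1]
  have h2 : ∀ k ∈ Fintype.piFinset (fun j => fbox (s j)),
      (((univ : Finset (Fin d → Fin m)).filter
          (fun a => (m : ℤ) ∣ ∑ j, k j * ((a j : ℕ) : ℤ))).card : ℝ) ≤
        ∑ δ ∈ m.divisors, (if (∀ j, (δ : ℤ) ∣ k j) then (δ : ℝ) * (m : ℝ) ^ (d - 1) else 0) := by
    intro k _
    obtain ⟨δ, hδ1, hδm, hδk, hcard⟩ := count_kernel hm k
    have h3 : (((univ : Finset (Fin d → Fin m)).filter
          (fun a => (m : ℤ) ∣ ∑ j, k j * ((a j : ℕ) : ℤ))).card : ℝ) ≤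
          (δ : ℝ) * (m : ℝ) ^ (d - 1) := by
      have h4 : (((univ : Finset (Fin d → Fin m)).filter
          (fun a => (m : ℤ) ∣ ∑ j, k j * ((a j : ℕ) : ℤ))).card : ℝ) * m ≤
          (δ : ℝ) * (m : ℝ) ^ d := by exact_mod_cast hcard
      have h5 : (m : ℝ) ^ d = (m : ℝ) ^ (d - 1) * m := by
        rw [← pow_succ]; congr 1; omega
      rw [h5, ← mul_assoc] at h4
      exact le_of_mul_le_mul_right h4 hm0
    refine h3.trans ?_
    have h6 := single_le_sum (f := fun δ : ℕ =>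
      (if (∀ j, (δ : ℤ) ∣ k j) then (δ : ℝ) * (m : ℝ) ^ (d - 1) else 0)) (s := m.divisors)
      (fun δ _ => by
        show (0 : ℝ) ≤ (if (∀ j, (δ : ℤ) ∣ k j) then (δ : ℝ) * (m : ℝ) ^ (d - 1) else 0)
        split_ifs <;> positivity)
      (Nat.mem_divisors.2 ⟨hδm, by omega⟩)
    simp only [if_pos hδk] at h6
    exact h6
  refine (sum_le_sum h2).trans ?_
  rw [sum_comm]
  calc ∑ δ ∈ m.divisors, ∑ k ∈ Fintype.piFinset (fun j => fbox (s j)),
        (if (∀ j, (δ : ℤ) ∣ k j) then (δ : ℝ) * (m : ℝ) ^ (d - 1) else 0)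
      = ∑ δ ∈ m.divisors, (((Fintype.piFinset fun j => fbox (s j)).filter
          (fun k => ∀ j, (δ : ℤ) ∣ k j)).card : ℝ) * ((δ : ℝ) * (m : ℝ) ^ (d - 1)) := by
        refine sum_congr rfl fun δ _ => ?_
        rw [← sum_filter, sum_const, nsmul_eq_mul]
    _ ≤ ∑ δ ∈ m.divisors, (4 ^ d * 2 ^ (∑ j, s j) / (δ : ℝ) ^ supp s) *
          ((δ : ℝ) * (m : ℝ) ^ (d - 1)) := by
        refine sum_le_sum fun δ hδ => ?_
        exact mul_le_mul_of_nonneg_right (card_box_dvd s δ (Nat.pos_of_mem_divisors hδ))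
          (by positivity)
    _ = 4 ^ d * 2 ^ (∑ j, s j) * (∑ δ ∈ m.divisors, ((δ : ℝ) / (δ : ℝ) ^ supp s)) *
          (m : ℝ) ^ (d - 1) := by
        rw [mul_sum, sum_mul]
        refine sum_congr rfl fun δ _ => ?_
        ring
    _ ≤ _ := by
        refine mul_le_mul_of_nonneg_right ?_ (by positivity)
        exact mul_le_mul_of_nonneg_left (sum_div_pow m _ hm hs) (by positivity)

/-- number of levels -/
theorem card_levels (d n : ℕ) (hd : 1 ≤ d) :
    ((Fintype.piFinset fun _ : Fin d => Finset.range (n + 1)).filter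
        (fun s => ∑ j, s j = n)).card ≤ (n + 1) ^ (d - 1) := by
  obtain ⟨e, rfl⟩ : ∃ e, d = e + 1 := ⟨d - 1, by omega⟩
  simp only [Nat.add_sub_cancel]
  have h1 : (Fintype.piFinset fun _ : Fin e => Finset.range (n + 1)).card = (n + 1) ^ e := by
    rw [Fintype.card_piFinset]; simp
  rw [← h1]
  refine card_le_card_of_injOn (fun s j => s (Fin.succ j)) (fun s hs => ?_) ?_
  · have h := (mem_filter.1 hs).1
    rw [Fintype.mem_piFinset] at h
    rw [mem_coe, Fintype.mem_piFinset]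
    exact fun j => h _
  · intro s hs t ht hst
    have h1 := (mem_filter.1 hs).2
    have h2 := (mem_filter.1 ht).2
    have h3 : ∀ j : Fin e, s (Fin.succ j) = t (Fin.succ j) := fun j => congrFun hst j
    funext j
    refine Fin.cases ?_ (fun j => h3 j) j
    rw [Fin.sum_univ_succ] at h1 h2
    have h4 : ∑ j : Fin e, s (Fin.succ j) = ∑ j : Fin e, t (Fin.succ j) :=
      sum_congr rfl fun j _ => h3 j
    omega

/-- number of levels with two nonzero coordinates -/
theorem card_levels_two (d n : ℕ) :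
    ((Fintype.piFinset fun _ : Fin d => Finset.range (n + 1)).filter
        (fun s => ∑ j, s j = n ∧ supp s = 2)).card ≤ d ^ 2 * (n + 1) := by
  have h1 : ((Fintype.piFinset fun _ : Fin d => Finset.range (n + 1)).filter
        (fun s => ∑ j, s j = n ∧ supp s = 2)) ⊆
      ((univ : Finset (Fin d)) ×ˢ (univ : Finset (Fin d)) ×ˢ range (n + 1)).image
        (fun p => fun j => if j = p.1 then p.2.2 else if j = p.2.1 then n - p.2.2 else 0) := by
    intro s hs
    obtain ⟨h0, h1, h2⟩ := mem_filter.1 hs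
    unfold supp at h2
    obtain ⟨x, y, hxy, hS⟩ := card_eq_two.1 h2
    rw [mem_image]
    have hz : ∀ j, j ≠ x → j ≠ y → s j = 0 := by
      intro j hjx hjy
      by_contra hne
      have : j ∈ univ.filter (fun j => s j ≠ 0) := mem_filter.2 ⟨mem_univ _, hne⟩
      rw [hS, mem_insert, mem_singleton] at this
      rcases this with h | h
      · exact hjx h
      · exact hjy h
    have hsum : s x + s y = n := by
      rw [← h1]
      rw [← sum_pair hxy]
      refine sum_subset (subset_univ _) (fun j _ hj => ?_)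
      rw [mem_insert, mem_singleton, not_or] at hj
      exact hz j hj.1 hj.2
    refine ⟨(x, y, s x), ?_, ?_⟩
    · rw [mem_product, mem_product]
      refine ⟨mem_univ _, mem_univ _, ?_⟩
      exact Fintype.mem_piFinset.1 h0 x
    · funext j
      show (if j = x then s x else if j = y then n - s x else 0) = s j
      split_ifs with hj1 hj2
      · rw [hj1]
      · rw [hj2]; omega
      · exact (hz j hj1 hj2).symm
  refine (card_le_card h1).trans (card_image_le.trans ?_)
  rw [card_product, card_product]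
  simp only [card_univ, Fintype.card_fin, card_range]
  apply le_of_eq; ring

end CountAux

open CountAux in
theorem mean_count (d : ℕ) (hd : 3 ≤ d) : ∃ C : ℝ, 0 ≤ C ∧ ∀ m n : ℕ, 1 ≤ m →
    ∑ s ∈ (Fintype.piFinset fun _ : Fin d => Finset.range (n + 1)).filter
        (fun s => ∑ j, s j = n ∧ 2 ≤ (Finset.univ.filter fun j => s j ≠ 0).card),
      ∑ a : Fin d → Fin m, (Dcount m s (fun j => ((a j : ℕ) : ℤ)) : ℝ) ≤
    C * (n + 1) ^ (d - 2) * (n + 1 + Real.log m) * 2 ^ n * (m : ℝ) ^ (d - 1) := by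
  refine ⟨4 ^ d * ((d : ℝ) ^ 2 + 2), by positivity, fun m n hm => ?_⟩
  have hlog : 0 ≤ Real.log m := Real.log_nonneg (by exact_mod_cast hm)
  set F := (Fintype.piFinset fun _ : Fin d => Finset.range (n + 1)).filter
        (fun s => ∑ j, s j = n ∧ 2 ≤ (Finset.univ.filter fun j => s j ≠ 0).card) with hF
  have h1 : ∀ s ∈ F, ∑ a : Fin d → Fin m, (Dcount m s (fun j => ((a j : ℕ) : ℤ)) : ℝ) ≤
      4 ^ d * 2 ^ n * (m : ℝ) ^ (d - 1) * (2 + (if supp s = 2 then (Real.log m) else 0)) := by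
    intro s hs
    obtain ⟨_, h2, h3⟩ := mem_filter.1 hs
    refine (mean_level (by omega) m hm s h3).trans ?_
    rw [h2]
    have h4 : wt m (supp s) ≤ (2 + (if supp s = 2 then (Real.log m) else 0)) := by
      unfold wt
      split_ifs <;> linarith
    calc 4 ^ d * 2 ^ n * wt m (supp s) * (m : ℝ) ^ (d - 1)
        = 4 ^ d * 2 ^ n * (m : ℝ) ^ (d - 1) * wt m (supp s) := by ring
      _ ≤ _ := mul_le_mul_of_nonneg_left h4 (by positivity)
  refine (sum_le_sum h1).trans ?_
  rw [← mul_sum, sum_add_distrib]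
  have h5 : ∑ _s ∈ F, (2 : ℝ) ≤ 2 * (n + 1) ^ (d - 1) := by
    rw [sum_const, nsmul_eq_mul, mul_comm]
    have : F.card ≤ (n + 1) ^ (d - 1) := by
      refine le_trans (card_le_card ?_) (card_levels d n (by omega))
      intro s hs
      obtain ⟨h0, h2, h3⟩ := mem_filter.1 hs
      exact mem_filter.2 ⟨h0, h2⟩
    have : (F.card : ℝ) ≤ ((n : ℝ) + 1) ^ (d - 1) := by exact_mod_cast this
    linarith
  have h6 : ∑ s ∈ F, (if supp s = 2 then (Real.log m) else 0) ≤
      (d : ℝ) ^ 2 * (n + 1) * Real.log m := by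
    rw [← sum_filter, sum_const, nsmul_eq_mul]
    refine mul_le_mul_of_nonneg_right ?_ hlog
    have : (F.filter (fun s => supp s = 2)).card ≤ d ^ 2 * (n + 1) := by
      refine le_trans (card_le_card ?_) (card_levels_two d n)
      intro s hs
      obtain ⟨hs1, hs2⟩ := mem_filter.1 hs
      obtain ⟨h0, h2, h3⟩ := mem_filter.1 hs1
      exact mem_filter.2 ⟨h0, h2, hs2⟩
    exact_mod_cast this
  have hn1 : (1 : ℝ) ≤ (n : ℝ) + 1 := by
    have : (0 : ℝ) ≤ n := Nat.cast_nonneg n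
    linarith
  have h7 : ((n : ℝ) + 1) ≤ (n + 1) ^ (d - 2) := by
    calc ((n : ℝ) + 1) = (n + 1) ^ 1 := (pow_one _).symm
      _ ≤ _ := pow_le_pow_right₀ hn1 (by omega)
  have h8 : ((n : ℝ) + 1) ^ (d - 1) = (n + 1) ^ (d - 2) * (n + 1) := by
    rw [← pow_succ]; congr 1; omega
  calc 4 ^ d * 2 ^ n * (m : ℝ) ^ (d - 1) *
        (∑ _s ∈ F, (2 : ℝ) + ∑ s ∈ F, (if supp s = 2 then (Real.log m) else 0))
      ≤ 4 ^ d * 2 ^ n * (m : ℝ) ^ (d - 1) *
        (((d : ℝ) ^ 2 + 2) * ((n + 1) ^ (d - 2) * (n + 1 + Real.log m))) := by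
        refine mul_le_mul_of_nonneg_left ?_ (by positivity)
        have h9 : (0 : ℝ) ≤ (n + 1) ^ (d - 2) := by positivity
        have h10 : (d : ℝ) ^ 2 * (n + 1) * Real.log m ≤
            (d : ℝ) ^ 2 * (n + 1) ^ (d - 2) * Real.log m := by
          refine mul_le_mul_of_nonneg_right ?_ hlog
          exact mul_le_mul_of_nonneg_left h7 (by positivity)
        have h11 : 0 ≤ (d : ℝ) ^ 2 * ((n + 1) ^ (d - 2) * ((n : ℝ) + 1)) := by positivity
        have h12 : 0 ≤ (((n : ℝ) + 1) ^ (d - 2)) * Real.log m := mul_nonneg h9 hlog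
        calc _ ≤ 2 * ((n : ℝ) + 1) ^ (d - 1) + (d : ℝ) ^ 2 * (n + 1) ^ (d - 2) * Real.log m := by
              linarith
          _ ≤ _ := by rw [h8]; nlinarith
    _ = _ := by ring

end Pool.Agent.Lib.P51a855
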