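import Mathlib

/-!
Definitions for MP_51a855_an (order optimality of Korobov cubature for mixed Hölder classes).
-/

set_option autoImplicit false

open MeasureTheory
open scoped ENNReal NNReal

noncomputable section

namespace Pool.Agent.Lib.P51a855

instance factTwoPi : Fact (0 < 2 * Real.pi) := ⟨Real.two_pi_pos⟩

/-- The circle `ℝ / 2πℤ`. -/
abbrev Circ := AddCircle (2 * Real.pi)

/-- The torus `𝕋^d = (ℝ / 2πℤ)^d`. -/
abbrev Torus (d : ℕ) := Fin d → Circ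

/-- The normalised Haar measure of the torus, `(2π)^{-d} dx`. -/
def haarT (d : ℕ) : Measure (Torus d) := Measure.pi fun _ => AddCircle.haarAddCircle

/-- The `l`-th difference with step `t` in the variable `x_j`: the `l`-th iterate of
`f ↦ f(x + t e_j) - f(x)`. -/
def diffOne {d : ℕ} (l : ℕ) (j : Fin d) (t : ℝ) (f : Torus d → ℝ) : Torus d → ℝ :=
  (fwdDiff (Pi.single j (t : Circ)))^[l] f

/-- The mixed difference `Δ^{l,e}_t`, the composition of the operators `Δ^{l,j}_{t_j}`, `j ∈ e`. -/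
def mixedDiff {d : ℕ} (l : ℕ) (e : Finset (Fin d)) (t : Fin d → ℝ) (f : Torus d → ℝ) :
    Torus d → ℝ :=
  (e.sort (· ≤ ·)).foldr (fun j g => diffOne l j (t j) g) f

/-- The class `H^r_p`, defined with differences of order `l`. -/
def HClass (d l : ℕ) (r : ℝ) (p : ℝ≥0∞) : Set C(Torus d, ℝ) :=
  {f | eLpNorm f p (haarT d) ≤ 1 ∧
    ∀ e : Finset (Fin d), e.Nonempty → ∀ t : Fin d → ℝ,
      eLpNorm (mixedDiff l e t f) p (haarT d) ≤ ENNReal.ofReal (∏ j ∈ e, |t j| ^ r)}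

/-- The `μ`-th node of the Korobov formula. -/
def korobovNode {d : ℕ} (m : ℕ) (a : Fin d → ℤ) (μ : ℕ) : Torus d :=
  fun j => ((2 * Real.pi * Int.fract ((μ : ℝ) * (a j : ℝ) / (m : ℝ)) : ℝ) : Circ)

/-- The Korobov formula `P_m(f, a)`. -/
def korobov {d : ℕ} (m : ℕ) (a : Fin d → ℤ) (f : Torus d → ℝ) : ℝ :=
  (1 / (m : ℝ)) * ∑ μ ∈ Finset.Icc 1 m, f (korobovNode m a μ)

/-- The mean value `f^(0)`. -/
def mean {d : ℕ} (f : Torus d → ℝ) : ℝ := ∫ x, f x ∂(haarT d)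

/-- The worst-case error `P_m(F, a)` of the Korobov formula. -/
def korobovErr {d : ℕ} (m : ℕ) (a : Fin d → ℤ) (F : Set C(Torus d, ℝ)) : ℝ≥0∞ :=
  ⨆ f ∈ F, ENNReal.ofReal |korobov m a f - mean f|

/-- The optimal error `κ_m(F)` of cubature formulas with `m` nodes. -/
def kappa {d : ℕ} (m : ℕ) (F : Set C(Torus d, ℝ)) : ℝ≥0∞ :=
  ⨅ (ξ : Fin m → Torus d) (w : Fin m → ℝ),
    ⨆ f ∈ F, ENNReal.ofReal |∑ μ, w μ * f (ξ μ) - mean f|

/-- The Korobov formulas are optimal in the sense of order for `F`. -/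
def KorobovOptimal {d : ℕ} (F : Set C(Torus d, ℝ)) : Prop :=
  ∃ C : ℝ≥0, ∀ m : ℕ, 2 ≤ m → ∃ a : Fin d → ℤ, korobovErr m a F ≤ C * kappa m F

/-! ### Auxiliary objects -/

/-- Fejér kernel -/
def fej (N : ℕ) (x : Circ) : ℝ :=
  (1 / (N : ℝ)) * ‖∑ j ∈ Finset.range N, (fourier (j : ℤ) x : ℂ)‖ ^ 2

/-- dyadic blocks of the Fejér means -/
def vker : ℕ → Circ → ℝ
  | 0, _ => 1
  | s + 1, x => fej (2 ^ (s + 1)) x - fej (2 ^ s) x

/-- reproducing kernels for the dyadic blocks -/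
def wker : ℕ → Circ → ℝ
  | 0, _ => 1
  | s + 1, x => 2 * fej (2 ^ (s + 2)) x - fej (2 ^ (s + 1)) x - 1

/-- the frequencies of `wker s` -/
def fbox (s : ℕ) : Finset ℤ :=
  if s = 0 then {0} else (Finset.Ioo (-(2 : ℤ) ^ (s + 1)) ((2 : ℤ) ^ (s + 1))).erase 0

/-- the number of frequencies in the box `s` that belong to the dual lattice of the formula -/
def Dcount {d : ℕ} (m : ℕ) (s : Fin d → ℕ) (a : Fin d → ℤ) : ℕ :=
  ((Fintype.piFinset fun j => fbox (s j)).filter fun k => (m : ℤ) ∣ ∑ j, k j * a j).card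

/-- `D^θ`, with the value `0` at `D = 0` also for `θ = 0` -/
def phi (θ : ℝ) (D : ℕ) : ℝ := if D = 0 then 0 else (D : ℝ) ^ θ

/-- the indices of level at most `n` in each coordinate, without `0` -/
def idx (d n : ℕ) : Finset (Fin d → ℕ) :=
  (Fintype.piFinset fun _ => Finset.range (n + 1)).erase 0

end Pool.Agent.Lib.P51a855
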