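import Pool.Agent.Lib.P51a855.Defs

/-!
The algebra of translation operators acting on continuous functions on the torus, and the mixed
differences inside it.
-/

set_option autoImplicit false

open MeasureTheory
open scoped ENNReal NNReal

noncomputable section

namespace Pool.Agent.Lib.P51a855

variable {d : ℕ}

instance instProbHaarT : IsProbabilityMeasure (haarT d) := by
  unfold haarT; infer_instance

instance instHaarHaarT : Measure.IsAddHaarMeasure (haarT d) := by
  unfold haarT; infer_instance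

instance instRegHaarT : (haarT d).Regular := by
  unfold haarT; infer_instance

instance instNegHaarT : (haarT d).IsNegInvariant :=
  Measure.IsAddHaarMeasure.isNegInvariant_of_regular (haarT d)

/-- translation -/
def sh (h : Torus d) : C(Torus d, ℝ) →ₗ[ℝ] C(Torus d, ℝ) where
  toFun f := f.comp ⟨fun x => x + h, by fun_prop⟩
  map_add' _ _ := rfl
  map_smul' _ _ := rfl

@[simp] lemma sh_apply (h : Torus d) (f : C(Torus d, ℝ)) (x : Torus d) : sh h f x = f (x + h) := rfl

/-- translations as a monoid homomorphism -/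
def shHom : Multiplicative (Torus d) →* Module.End ℝ C(Torus d, ℝ) where
  toFun h := sh h.toAdd
  map_one' := by
    ext f x
    simp
  map_mul' h k := by
    ext f x
    simp only [toAdd_mul, Module.End.mul_apply, sh_apply]
    congr 1
    abel

/-- the algebra of translation operators -/
abbrev TA (d : ℕ) := AddMonoidAlgebra ℝ (Torus d)

/-- the action of the algebra of translation operators -/
def act : TA d →ₐ[ℝ] Module.End ℝ C(Torus d, ℝ) :=
  AddMonoidAlgebra.lift ℝ (Module.End ℝ C(Torus d, ℝ)) (Torus d) shHom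

/-- the translation by `h` in the algebra -/
def tr (h : Torus d) : TA d := AddMonoidAlgebra.single h 1

lemma tr_add (h k : Torus d) : tr (h + k) = tr h * tr k := by
  unfold tr
  rw [AddMonoidAlgebra.single_mul_single, one_mul]

lemma tr_zero : tr (0 : Torus d) = 1 := rfl

lemma act_tr (h : Torus d) (f : C(Torus d, ℝ)) : act (tr h) f = sh h f := by
  unfold act tr
  rw [AddMonoidAlgebra.lift_single, one_smul]
  rfl

lemma act_mul_apply (a b : TA d) (f : C(Torus d, ℝ)) : act (a * b) f = act a (act b f) := by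
  rw [map_mul]; rfl

lemma act_sub_one (h : Torus d) (f : C(Torus d, ℝ)) (x : Torus d) :
    act (tr h - 1) f x = f (x + h) - f x := by
  rw [map_sub, map_one]
  show (act (tr h) f - f) x = _
  rw [act_tr]
  rfl

lemma act_pow_sub_one (h : Torus d) (l : ℕ) (f : C(Torus d, ℝ)) :
    (act ((tr h - 1) ^ l) f : Torus d → ℝ) = (fwdDiff h)^[l] f := by
  induction l generalizing f with
  | zero => simp
  | succ l ih =>
    rw [pow_succ, act_mul_apply, ih, Function.iterate_succ_apply]
    congr 1
    funext x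
    rw [act_sub_one]
    rfl

/-- the shift by `t` in the direction `j` -/
def trj (j : Fin d) (t : ℝ) : TA d := tr (Pi.single j (t : Circ))

lemma trj_add (j : Fin d) (s t : ℝ) : trj j (s + t) = trj j s * trj j t := by
  unfold trj
  rw [← tr_add, ← Pi.single_add, AddCircle.coe_add]

lemma diffOne_eq (l : ℕ) (j : Fin d) (t : ℝ) (f : C(Torus d, ℝ)) :
    diffOne l j t f = act ((trj j t - 1) ^ l) f := by
  unfold diffOne trj
  rw [act_pow_sub_one]

lemma mixedDiff_list (l : ℕ) (t : Fin d → ℝ) (f : C(Torus d, ℝ)) (L : List (Fin d)) :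
    L.foldr (fun j g => diffOne l j (t j) g) (f : Torus d → ℝ) =
      act ((L.map fun j => (trj j (t j) - 1) ^ l).prod) f := by
  induction L with
  | nil => simp
  | cons j L ih =>
    rw [List.foldr_cons, ih, diffOne_eq, List.map_cons, List.prod_cons, act_mul_apply]

lemma mixedDiff_eq (l : ℕ) (e : Finset (Fin d)) (t : Fin d → ℝ) (f : C(Torus d, ℝ)) :
    mixedDiff l e t f = act (∏ j ∈ e, (trj j (t j) - 1) ^ l) f := by
  unfold mixedDiff
  rw [mixedDiff_list]
  congr 2
  rw [Finset.prod_eq_multiset_prod, ← Multiset.prod_coe, ← Multiset.map_coe, Finset.sort_eq]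

/-- the seminorm `‖f‖_p` on continuous functions -/
def Np (p : ℝ≥0∞) [Fact (1 ≤ p)] : Seminorm ℝ C(Torus d, ℝ) :=
  (normSeminorm ℝ (Lp ℝ p (haarT d))).comp
    (ContinuousMap.toLp p (haarT d) ℝ : C(Torus d, ℝ) →L[ℝ] Lp ℝ p (haarT d)).toLinearMap

lemma Np_eq (p : ℝ≥0∞) [Fact (1 ≤ p)] (f : C(Torus d, ℝ)) :
    Np p f = (eLpNorm f p (haarT d)).toReal := by
  show ‖(ContinuousMap.toLp p (haarT d) ℝ : C(Torus d, ℝ) →L[ℝ] Lp ℝ p (haarT d)) f‖ = _
  rw [Lp.norm_def]
  congr 1
  exact eLpNorm_congr_ae (ContinuousMap.coeFn_toLp (haarT d) f)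

lemma eLpNorm_ne_top (p : ℝ≥0∞) (f : C(Torus d, ℝ)) : eLpNorm f p (haarT d) ≠ ⊤ := by
  have h : MemLp f p (haarT d) := by
    refine MemLp.of_bound f.continuous.aestronglyMeasurable ‖f‖ ?_
    exact Filter.Eventually.of_forall fun x => f.norm_coe_le_norm x
  exact h.2.ne

lemma eLpNorm_eq_Np (p : ℝ≥0∞) [Fact (1 ≤ p)] (f : C(Torus d, ℝ)) :
    eLpNorm f p (haarT d) = ENNReal.ofReal (Np p f) := by
  rw [Np_eq, ENNReal.ofReal_toReal (eLpNorm_ne_top p f)]

lemma Np_sh (p : ℝ≥0∞) [Fact (1 ≤ p)] (h : Torus d) (f : C(Torus d, ℝ)) :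
    Np p (sh h f) = Np p f := by
  rw [Np_eq, Np_eq]
  congr 1
  have hmp : MeasurePreserving (fun x : Torus d => x + h) (haarT d) (haarT d) :=
    measurePreserving_add_right (haarT d) h
  exact eLpNorm_comp_measurePreserving f.continuous.aestronglyMeasurable hmp

lemma Np_tr_mul (p : ℝ≥0∞) [Fact (1 ≤ p)] (h : Torus d) (a : TA d) (f : C(Torus d, ℝ)) :
    Np p (act (tr h * a) f) = Np p (act a f) := by
  rw [act_mul_apply, act_tr, Np_sh]

end Pool.Agent.Lib.P51a855
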