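import Pool.Agent.Lib.P51a855.Defs

/-!
At least a quarter of the residues `a` mod `m` have `gcd (a, m) ≤ (log m)^2` (for large `m`).
-/

set_option autoImplicit false

open MeasureTheory
open scoped ENNReal NNReal

noncomputable section

namespace Pool.Agent.Lib.P51a855

namespace GcdAux

open ArithmeticFunction Finset

/-- `∑_{n ≤ N} Λ(n)/n ≤ log N + 6`. -/
theorem sum_vonMangoldt_div (N : ℕ) (hN : 1 ≤ N) :
    ∑ n ∈ Ioc 0 N, vonMangoldt n / (n : ℝ) ≤ Real.log N + 6 := by
  have h1 : ∑ n ∈ Ioc 0 N, vonMangoldt n * ((N / n : ℕ) : ℝ) = ∑ k ∈ Ioc 0 N, Real.log k := by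
    have h2 : ∀ k ∈ Ioc 0 N, Real.log k = ∑ n ∈ Ioc 0 N, if n ∣ k then vonMangoldt n else 0 := by
      intro k hk
      rw [mem_Ioc] at hk
      rw [← vonMangoldt_sum, ← sum_filter]
      apply sum_congr _ (fun _ _ => rfl)
      ext n
      simp only [Nat.mem_divisors, mem_filter, mem_Ioc]
      constructor
      · rintro ⟨h3, h4⟩
        exact ⟨⟨Nat.pos_of_dvd_of_pos h3 hk.1, (Nat.le_of_dvd hk.1 h3).trans hk.2⟩, h3⟩
      · rintro ⟨_, h3⟩
        exact ⟨h3, by omega⟩
    rw [sum_congr rfl h2, sum_comm]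
    apply sum_congr rfl
    intro n hn
    rw [← sum_filter, sum_const, Nat.Ioc_filter_dvd_card_eq_div, nsmul_eq_mul, mul_comm]
  have h3 : ∑ k ∈ Ioc 0 N, Real.log k ≤ N * Real.log N := by
    calc ∑ k ∈ Ioc 0 N, Real.log k ≤ ∑ k ∈ Ioc 0 N, Real.log N := by
          apply sum_le_sum
          intro k hk
          rw [mem_Ioc] at hk
          exact Real.log_le_log (by exact_mod_cast hk.1) (by exact_mod_cast hk.2)
      _ = N * Real.log N := by simp
  have h4 : ∑ n ∈ Ioc 0 N, vonMangoldt n ≤ 6 * N := by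
    have h5 := Chebyshev.psi_le_const_mul_self (x := (N : ℝ)) (by positivity)
    have h6 : Chebyshev.psi (N : ℝ) = ∑ n ∈ Ioc 0 N, vonMangoldt n := by
      simp [Chebyshev.psi]
    rw [h6] at h5
    have h7 : Real.log 4 ≤ 2 := by
      have : Real.log 4 = 2 * Real.log 2 := by
        rw [show (4 : ℝ) = 2 ^ 2 by norm_num, Real.log_pow]; norm_num
      rw [this]
      have := Real.log_two_lt_d9
      linarith
    have hN0 : (0 : ℝ) ≤ N := by positivity
    nlinarith
  have h5 : ∑ n ∈ Ioc 0 N, vonMangoldt n / (n : ℝ) * N ≤ N * Real.log N + 6 * N := by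
    calc ∑ n ∈ Ioc 0 N, vonMangoldt n / (n : ℝ) * N
        ≤ ∑ n ∈ Ioc 0 N, (vonMangoldt n * ((N / n : ℕ) : ℝ) + vonMangoldt n) := by
          apply sum_le_sum
          intro n hn
          rw [mem_Ioc] at hn
          have hn0 : (0 : ℝ) < n := by exact_mod_cast hn.1
          have h6 : (N : ℝ) / n ≤ ((N / n : ℕ) : ℝ) + 1 := by
            rw [div_le_iff₀ hn0]
            have h7 := Nat.div_add_mod N n
            have h8 := Nat.mod_lt N hn.1
            have h9 : N ≤ (N / n + 1) * n := by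
              calc N = n * (N / n) + N % n := h7.symm
                _ ≤ n * (N / n) + n := by omega
                _ = (N / n + 1) * n := by ring
            exact_mod_cast h9
          have h10 := vonMangoldt_nonneg (n := n)
          calc vonMangoldt n / (n : ℝ) * N = vonMangoldt n * ((N : ℝ) / n) := by ring
            _ ≤ vonMangoldt n * (((N / n : ℕ) : ℝ) + 1) := mul_le_mul_of_nonneg_left h6 h10
            _ = _ := by ring
      _ = ∑ k ∈ Ioc 0 N, Real.log k + ∑ n ∈ Ioc 0 N, vonMangoldt n := by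
          rw [sum_add_distrib, h1]
      _ ≤ _ := add_le_add h3 h4
  rw [← sum_mul] at h5
  have hN0 : (0 : ℝ) < N := by exact_mod_cast hN
  have h6 : (∑ n ∈ Ioc 0 N, vonMangoldt n / (n : ℝ)) * N ≤ (Real.log N + 6) * N := by
    linarith
  exact le_of_mul_le_mul_right h6 hN0

theorem card_dvd (m δ : ℕ) (hm : 0 < m) (hδ : δ ∣ m) :
    ((univ : Finset (Fin m)).filter (fun a : Fin m => δ ∣ (a : ℕ))).card = m / δ := by
  have h1 : ((univ : Finset (Fin m)).filter (fun a : Fin m => δ ∣ (a : ℕ))).card =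
      ((range m).filter (fun a => δ ∣ a)).card := by
    apply card_bij (fun (a : Fin m) _ => (a : ℕ))
    · intro a ha
      simp only [mem_filter, mem_univ, true_and, mem_range] at ha ⊢
      exact ⟨a.2, ha⟩
    · intro a _ b _ h
      exact Fin.ext h
    · intro b hb
      simp only [mem_filter, mem_range] at hb
      exact ⟨⟨b, hb.1⟩, by simp [hb.2], rfl⟩
  rw [h1]
  obtain ⟨q, rfl⟩ := hδ
  have hδ0 : 0 < δ := Nat.pos_of_mul_pos_right hm
  rw [Nat.mul_div_cancel_left _ hδ0]
  have h2 : (range (δ * q)).filter (fun a => δ ∣ a) = (range q).image (fun j => δ * j) := by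
    ext a
    simp only [mem_filter, mem_range, mem_image]
    constructor
    · rintro ⟨h3, j, rfl⟩
      exact ⟨j, by exact Nat.lt_of_mul_lt_mul_left h3, rfl⟩
    · rintro ⟨j, h3, rfl⟩
      exact ⟨Nat.mul_lt_mul_of_pos_left h3 hδ0, dvd_mul_right _ _⟩
  rw [h2, card_image_of_injective, card_range]
  intro a b h
  exact Nat.eq_of_mul_eq_mul_left hδ0 h

/-- `∑_a log gcd(a, m) ≤ m (log log m + 7)` -/
theorem sum_log_gcd (m : ℕ) (hm : 1 ≤ Real.log m) :
    ∑ a : Fin m, Real.log ((Nat.gcd (a : ℕ) m : ℕ) : ℝ) ≤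
      m * (Real.log (Real.log m) + 7) := by
  have hm0 : 0 < m := by
    rcases Nat.eq_zero_or_pos m with h | h
    · subst h; simp at hm; linarith
    · exact h
  have h1 : ∀ a : Fin m, Real.log ((Nat.gcd (a : ℕ) m : ℕ) : ℝ) =
      ∑ δ ∈ m.divisors, if δ ∣ (a : ℕ) then vonMangoldt δ else 0 := by
    intro a
    rw [← vonMangoldt_sum, ← sum_filter]
    apply sum_congr _ (fun _ _ => rfl)
    ext δ
    simp only [Nat.mem_divisors, mem_filter, Nat.dvd_gcd_iff]
    have : Nat.gcd (a : ℕ) m ≠ 0 := Nat.gcd_ne_zero_right (by omega)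
    constructor
    · rintro ⟨⟨h2, h3⟩, _⟩
      exact ⟨⟨h3, by omega⟩, h2⟩
    · rintro ⟨⟨h3, _⟩, h2⟩
      exact ⟨⟨h2, h3⟩, this⟩
  have h2 : ∑ a : Fin m, Real.log ((Nat.gcd (a : ℕ) m : ℕ) : ℝ) =
      ∑ δ ∈ m.divisors, vonMangoldt δ / δ * m := by
    rw [sum_congr rfl (fun a _ => h1 a), sum_comm]
    apply sum_congr rfl
    intro δ hδ
    rw [Nat.mem_divisors] at hδ
    rw [← sum_filter, sum_const, card_dvd m δ hm0 hδ.1, nsmul_eq_mul,
      Nat.cast_div_charZero hδ.1]
    ring
  rw [h2, ← sum_mul, mul_comm]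
  apply mul_le_mul_of_nonneg_left _ (by positivity)
  set N := ⌊Real.log m⌋₊ with hN
  have hN1 : 1 ≤ N := by
    rw [hN, Nat.le_floor_iff (by linarith)]
    exact_mod_cast hm
  have hN2 : Real.log m < N + 1 := Nat.lt_floor_add_one _
  have hN3 : (N : ℝ) ≤ Real.log m := Nat.floor_le (by linarith)
  have h3 : ∑ δ ∈ m.divisors, vonMangoldt δ / (δ : ℝ) ≤
      ∑ n ∈ Ioc 0 N, vonMangoldt n / (n : ℝ) +
      ∑ δ ∈ m.divisors, vonMangoldt δ / (N + 1 : ℝ) := by
    calc ∑ δ ∈ m.divisors, vonMangoldt δ / (δ : ℝ)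
        ≤ ∑ δ ∈ m.divisors, ((if δ ∈ Ioc 0 N then vonMangoldt δ / (δ : ℝ) else 0) +
            vonMangoldt δ / (N + 1 : ℝ)) := by
          apply sum_le_sum
          intro δ hδ
          have h10 := vonMangoldt_nonneg (n := δ)
          have hδ0 : 0 < δ := Nat.pos_of_mem_divisors hδ
          split_ifs with h
          · have : 0 ≤ vonMangoldt δ / (N + 1 : ℝ) := by positivity
            linarith
          · rw [zero_add]
            rw [mem_Ioc] at h
            have h11 : N + 1 ≤ δ := by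
              by_contra h12
              exact h ⟨hδ0, by omega⟩
            have h13 : (N + 1 : ℝ) ≤ δ := by exact_mod_cast h11
            exact div_le_div_of_nonneg_left h10 (by positivity) h13
      _ = ∑ δ ∈ m.divisors, (if δ ∈ Ioc 0 N then vonMangoldt δ / (δ : ℝ) else 0) +
            ∑ δ ∈ m.divisors, vonMangoldt δ / (N + 1 : ℝ) := sum_add_distrib
      _ ≤ _ := by
          gcongr
          rw [← sum_filter]
          apply sum_le_sum_of_subset_of_nonneg
          · intro δ hδ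
            exact (mem_filter.1 hδ).2
          · intro n _ _
            have h10 := vonMangoldt_nonneg (n := n)
            positivity
  have h4 : ∑ δ ∈ m.divisors, vonMangoldt δ / (N + 1 : ℝ) ≤ 1 := by
    rw [← sum_div, vonMangoldt_sum, div_le_one (by positivity)]
    exact hN2.le
  have h5 := sum_vonMangoldt_div N hN1
  have h6 : Real.log N ≤ Real.log (Real.log m) :=
    Real.log_le_log (by exact_mod_cast hN1) hN3
  linarith

end GcdAux

open GcdAux

theorem gcd_small : ∃ m0 : ℕ, ∀ m : ℕ, m0 ≤ m →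
    (m : ℝ) / 4 ≤ ((Finset.univ : Finset (Fin m)).filter
      (fun a : Fin m => ((Nat.gcd (a : ℕ) m : ℕ) : ℝ) ≤ Real.log m ^ 2)).card := by
  refine ⟨⌈Real.exp (Real.exp 14)⌉₊, fun m hm => ?_⟩
  have hm1 : Real.exp (Real.exp 14) ≤ m := (Nat.le_ceil _).trans (by exact_mod_cast hm)
  have hmpos : (0 : ℝ) < m := lt_of_lt_of_le (Real.exp_pos _) hm1
  have hL : Real.exp 14 ≤ Real.log m := by
    rw [Real.le_log_iff_exp_le hmpos]; exact hm1
  have hL0 : 0 < Real.log m := lt_of_lt_of_le (Real.exp_pos _) hL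
  have hLL : 14 ≤ Real.log (Real.log m) := by
    rw [Real.le_log_iff_exp_le hL0]; exact hL
  have hL1 : 1 ≤ Real.log m := by
    have := Real.add_one_le_exp (14 : ℝ)
    linarith
  have h1 := sum_log_gcd m hL1
  set G := (Finset.univ : Finset (Fin m)).filter
      (fun a : Fin m => ((Nat.gcd (a : ℕ) m : ℕ) : ℝ) ≤ Real.log m ^ 2) with hG
  set B := (Finset.univ : Finset (Fin m)).filter
      (fun a : Fin m => ¬ ((Nat.gcd (a : ℕ) m : ℕ) : ℝ) ≤ Real.log m ^ 2) with hB
  have hGB : G.card + B.card = m := by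
    rw [hG, hB, Finset.card_filter_add_card_filter_not]
    simp
  have hm0 : 0 < m := by exact_mod_cast hmpos
  have h2 : (B.card : ℝ) * (2 * Real.log (Real.log m)) ≤
      ∑ a : Fin m, Real.log ((Nat.gcd (a : ℕ) m : ℕ) : ℝ) := by
    calc (B.card : ℝ) * (2 * Real.log (Real.log m))
        = ∑ a ∈ B, 2 * Real.log (Real.log m) := by simp
      _ ≤ ∑ a ∈ B, Real.log ((Nat.gcd (a : ℕ) m : ℕ) : ℝ) := by
          apply Finset.sum_le_sum
          intro a ha
          have h3 := (Finset.mem_filter.1 ha).2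
          push Not at h3
          have h4 : Real.log (Real.log m ^ 2) ≤ Real.log ((Nat.gcd (a : ℕ) m : ℕ) : ℝ) :=
            Real.log_le_log (by positivity) h3.le
          rw [Real.log_pow] at h4
          exact_mod_cast h4
      _ ≤ _ := by
          apply Finset.sum_le_sum_of_subset_of_nonneg (Finset.subset_univ _)
          intro a _ _
          apply Real.log_nonneg
          have : 0 < Nat.gcd (a : ℕ) m := Nat.gcd_pos_of_pos_right _ hm0
          exact_mod_cast this
  have h3 : (G.card : ℝ) + B.card = m := by exact_mod_cast hGB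
  set LL := Real.log (Real.log m)
  -- `B * 2 LL ≤ m (LL + 7) ≤ m * (3/2) LL`
  have h4 : (B.card : ℝ) * (2 * LL) ≤ m * (3 / 2 * LL) := by
    calc _ ≤ _ := h2
      _ ≤ _ := h1
      _ ≤ m * (3 / 2 * LL) := by
          apply mul_le_mul_of_nonneg_left _ hmpos.le
          linarith
  have h5 : (B.card : ℝ) ≤ 3 / 4 * m := by
    have h6 : (B.card : ℝ) * (2 * LL) ≤ (3 / 4 * m) * (2 * LL) := by linarith
    exact le_of_mul_le_mul_right h6 (by linarith)
  linarith

end Pool.Agent.Lib.P51a855
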