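import Pool.Agent.Lib.P51a855.Count
import Pool.Agent.Lib.P51a855.Gcd

/-!
Existence of good generators `a`.
-/

set_option autoImplicit false
set_option linter.unusedVariables false

open Finset

noncomputable section

namespace Pool.Agent.Lib.P51a855

open CountAux

lemma phi_nonneg (θ : ℝ) (D : ℕ) : 0 ≤ phi θ D := by
  unfold phi; split_ifs
  · exact le_rfl
  · positivity

lemma phi_le_self {θ : ℝ} (hθ1 : θ ≤ 1) (D : ℕ) : phi θ D ≤ D := by
  unfold phi; split_ifs with h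
  · positivity
  · have h1 : (1 : ℝ) ≤ D := by exact_mod_cast Nat.one_le_iff_ne_zero.2 h
    calc (D : ℝ) ^ θ ≤ (D : ℝ) ^ (1 : ℝ) := Real.rpow_le_rpow_of_exponent_le h1 hθ1
      _ = D := Real.rpow_one _

lemma phi_le_rpow {θ : ℝ} (hθ0 : 0 ≤ θ) {D : ℕ} {y : ℝ} (hy : (D : ℝ) ≤ y) : phi θ D ≤ y ^ θ := by
  have hy0 : 0 ≤ y := le_trans (Nat.cast_nonneg D) hy
  unfold phi; split_ifs with h
  · positivity
  · exact Real.rpow_le_rpow (Nat.cast_nonneg D) hy hθ0

lemma phi_young {θ : ℝ} (hθ0 : 0 ≤ θ) (hθ1 : θ ≤ 1) (D : ℕ) {x : ℝ} (hx : 0 < x) :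
    phi θ D ≤ x ^ (θ - 1) * D + x ^ θ := by
  have h0 : 0 ≤ x ^ (θ - 1) * (D : ℝ) := by positivity
  have h0' : 0 ≤ x ^ θ := by positivity
  unfold phi; split_ifs with h
  · linarith
  · have h1 := Real.geom_mean_le_arith_mean2_weighted hθ0 (by linarith : 0 ≤ 1 - θ)
      (Nat.cast_nonneg D) hx.le (by ring)
    have h2 : θ * (D : ℝ) + (1 - θ) * x ≤ D + x := by
      have h3 : 0 ≤ (1 - θ) * (D : ℝ) := mul_nonneg (by linarith) (Nat.cast_nonneg D)
      have h4 : 0 ≤ θ * x := by positivity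
      nlinarith
    have h5 : x ^ (1 - θ) * x ^ (θ - 1) = 1 := by
      rw [← Real.rpow_add hx]
      norm_num
    calc (D : ℝ) ^ θ = (D : ℝ) ^ θ * x ^ (1 - θ) * x ^ (θ - 1) := by
          rw [mul_assoc, h5, mul_one]
      _ ≤ (D + x) * x ^ (θ - 1) :=
          mul_le_mul_of_nonneg_right (h1.trans h2) (by positivity)
      _ = x ^ (θ - 1) * D + x ^ θ := by
          have h6 : x * x ^ (θ - 1) = x ^ θ := by
            rw [mul_comm, ← Real.rpow_add_one hx.ne', sub_add_cancel]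
          rw [add_mul, h6]
          ring

/-- the shapes of level `k` with support at least two -/
def lset (d k : ℕ) : Finset (Fin d → ℕ) :=
  (Fintype.piFinset fun _ : Fin d => Finset.range (k + 1)).filter
    (fun s => ∑ j, s j = k ∧ 2 ≤ supp s)

/-- the total of one level -/
def lev (d m : ℕ) (θ : ℝ) (k : ℕ) : ℝ :=
  ∑ s ∈ lset d k, ∑ a : Fin d → Fin m, phi θ (Dcount m s (fun j => ((a j : ℕ) : ℤ)))

lemma lev_bound (d : ℕ) (hd : 3 ≤ d) {θ : ℝ} (hθ0 : 0 ≤ θ) (hθ1 : θ ≤ 1) :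
    ∃ C : ℝ, 0 ≤ C ∧ ∀ m k : ℕ, 1 ≤ m →
      lev d m θ k ≤ C * ((k + 1) ^ (d - 2) * (k + 1 + Real.log m)) * (2 ^ k / m) * (m : ℝ) ^ d ∧
      lev d m θ k ≤ C * ((k + 1) ^ (d - 2) * (k + 1 + Real.log m)) * (2 ^ k / m) ^ θ *
        (m : ℝ) ^ d := by
  obtain ⟨C, hC0, hC⟩ := mean_count d hd
  refine ⟨C + 1, by positivity, ?_⟩
  intro m k hm
  have hm0 : (0 : ℝ) < m := by exact_mod_cast hm
  have hlog : 0 ≤ Real.log m := Real.log_nonneg (by exact_mod_cast hm)
  set x : ℝ := 2 ^ k / m with hx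
  have hx0 : 0 < x := by positivity
  set P : ℝ := (k + 1) ^ (d - 2) * (k + 1 + Real.log m) with hP
  have hP0 : 0 ≤ P := by positivity
  set S : ℝ := ∑ s ∈ lset d k, ∑ a : Fin d → Fin m,
    (Dcount m s (fun j => ((a j : ℕ) : ℤ)) : ℝ) with hS
  have hmd : (m : ℝ) ^ d = m * (m : ℝ) ^ (d - 1) := by
    rw [← pow_succ']
    congr 1
    omega
  have hSle : S ≤ C * P * x * (m : ℝ) ^ d := by
    have h1 := hC m k hm
    have h2 : S ≤ C * (k + 1) ^ (d - 2) * (k + 1 + Real.log m) * 2 ^ k * (m : ℝ) ^ (d - 1) := h1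
    refine h2.trans (le_of_eq ?_)
    rw [hP, hx, hmd]
    field_simp
  have hcard : ((lset d k).card : ℝ) ≤ P := by
    have h1 : (lset d k).card ≤ (k + 1) ^ (d - 1) := by
      refine le_trans (Finset.card_le_card ?_) (card_levels d k (by omega))
      intro s hs
      unfold lset at hs
      rw [Finset.mem_filter] at hs ⊢
      exact ⟨hs.1, hs.2.1⟩
    have h2 : ((k : ℝ) + 1) ^ (d - 1) = (k + 1) ^ (d - 2) * (k + 1) := by
      rw [← pow_succ]
      congr 1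
      omega
    calc ((lset d k).card : ℝ) ≤ ((k : ℝ) + 1) ^ (d - 1) := by exact_mod_cast h1
      _ = (k + 1) ^ (d - 2) * (k + 1) := h2
      _ ≤ P := by
          rw [hP]
          exact mul_le_mul_of_nonneg_left (by linarith) (by positivity)
  constructor
  · calc lev d m θ k ≤ S := by
          refine Finset.sum_le_sum fun s _ => Finset.sum_le_sum fun a _ => ?_
          exact phi_le_self hθ1 _
      _ ≤ C * P * x * (m : ℝ) ^ d := hSle
      _ ≤ (C + 1) * P * x * (m : ℝ) ^ d := by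
          have : 0 ≤ P * x * (m : ℝ) ^ d := by positivity
          nlinarith
  · have h1 : x ^ (θ - 1) * x = x ^ θ := by
      rw [← Real.rpow_add_one hx0.ne', sub_add_cancel]
    calc lev d m θ k ≤ ∑ s ∈ lset d k, ∑ a : Fin d → Fin m,
          (x ^ (θ - 1) * (Dcount m s (fun j => ((a j : ℕ) : ℤ)) : ℝ) + x ^ θ) := by
          refine Finset.sum_le_sum fun s _ => Finset.sum_le_sum fun a _ => ?_
          exact phi_young hθ0 hθ1 _ hx0
      _ = x ^ (θ - 1) * S + (lset d k).card * ((m : ℝ) ^ d * x ^ θ) := by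
          rw [hS, Finset.mul_sum, ← nsmul_eq_mul, ← Finset.sum_const, ← Finset.sum_add_distrib]
          refine Finset.sum_congr rfl fun s _ => ?_
          rw [Finset.sum_add_distrib, ← Finset.mul_sum, Finset.sum_const, nsmul_eq_mul]
          simp
      _ ≤ x ^ (θ - 1) * (C * P * x * (m : ℝ) ^ d) + P * ((m : ℝ) ^ d * x ^ θ) := by
          refine add_le_add (mul_le_mul_of_nonneg_left hSle (by positivity)) ?_
          exact mul_le_mul_of_nonneg_right hcard (by positivity)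
      _ = (C + 1) * P * x ^ θ * (m : ℝ) ^ d := by
          rw [← h1]
          ring

lemma geom_le' {q : ℝ} (h0 : 0 ≤ q) (h1 : q < 1) (n : ℕ) :
    ∑ i ∈ Finset.range n, q ^ i ≤ 1 / (1 - q) := by
  have h2 : 0 < 1 - q := by linarith
  rw [le_div_iff₀ h2, geom_sum_mul_neg q n]
  have : 0 ≤ q ^ n := pow_nonneg h0 n
  linarith

/-- the sum over all levels -/
lemma sum_lev (d : ℕ) (hd : 3 ≤ d) {θ r : ℝ} (hθ0 : 0 ≤ θ) (hθr : θ < r) (hr1 : r < 1) :
    ∃ C : ℝ, 0 ≤ C ∧ ∀ m : ℕ, 2 ≤ m → ∀ N : ℕ,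
      ∑ k ∈ Finset.range (N + 1), (2 : ℝ) ^ (-(r * k)) * lev d m θ k ≤
        C * (m : ℝ) ^ (-r) * Real.log m ^ (d - 1) * (m : ℝ) ^ d := by
  obtain ⟨C, hC0, hC⟩ := lev_bound d hd hθ0 (by linarith : θ ≤ 1)
  have hr0 : 0 < r := by linarith
  set q : ℝ := (2 : ℝ) ^ (-(r - θ)) with hq
  have hq0 : 0 ≤ q := by positivity
  have hq1 : q < 1 := Real.rpow_lt_one_of_one_lt_of_neg (by norm_num) (by linarith)
  have hp1 : (1 : ℝ) < 2 ^ (1 - r) := Real.one_lt_rpow (by norm_num) (by linarith)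
  -- the constant of the tail
  have hsumm : Summable fun i : ℕ => ((i : ℝ) + 1) ^ (d - 1) * q ^ i := by
    have h1 : Summable fun i : ℕ => ((i : ℝ)) ^ (d - 1) * q ^ i :=
      summable_pow_mul_geometric_of_norm_lt_one (d - 1)
        (by rwa [Real.norm_eq_abs, abs_of_nonneg hq0])
    have h2 := (summable_nat_add_iff 1).2 h1
    have hq0' : 0 < q := by rw [hq]; positivity
    have h3 : (fun i : ℕ => ((i : ℝ) + 1) ^ (d - 1) * q ^ i) =
        fun i : ℕ => q⁻¹ * ((((i + 1 : ℕ) : ℝ)) ^ (d - 1) * q ^ (i + 1)) := by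
      funext i
      push_cast
      rw [pow_succ q i]
      field_simp
    rw [h3]
    exact h2.mul_left _
  set C2 : ℝ := ∑' i : ℕ, ((i : ℝ) + 1) ^ (d - 1) * q ^ i with hC2
  have hC20 : 0 ≤ C2 := tsum_nonneg fun i => by positivity
  set C3 : ℝ := 2 / ((2 : ℝ) ^ (1 - r) - 1) with hC3
  have hC30 : 0 ≤ C3 := div_nonneg zero_le_two (by linarith)
  refine ⟨C * (C3 + C2) * (6 ^ (d - 2) * 7), by positivity, ?_⟩
  intro m hm N
  have hm1 : 1 ≤ m := by omega
  have hm0 : (0 : ℝ) < m := by exact_mod_cast hm1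
  set Y : ℝ := Real.log m with hY
  have hY2 : (1 : ℝ) / 2 ≤ Y := by
    have h1 : Real.log 2 ≤ Y := Real.log_le_log (by norm_num) (by exact_mod_cast hm)
    have := Real.log_two_gt_d9
    linarith
  have hY0 : 0 ≤ Y := by linarith
  set L : ℕ := Nat.log 2 m with hL
  have hL1 : (2 : ℝ) ^ L ≤ m := by
    exact_mod_cast Nat.pow_log_le_self 2 (by omega : m ≠ 0)
  have hL2 : (m : ℝ) ≤ 2 ^ (L + 1) := by
    exact_mod_cast (Nat.lt_pow_succ_log_self (by norm_num : 1 < 2) m).le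
  have hLY : (L : ℝ) ≤ 2 * Y := by
    have h1 : Real.log ((2 : ℝ) ^ L) ≤ Y := Real.log_le_log (by positivity) hL1
    rw [Real.log_pow] at h1
    have h2 := Real.log_two_gt_d9
    have h3 : (L : ℝ) * (1 / 2) ≤ L * Real.log 2 :=
      mul_le_mul_of_nonneg_left (by linarith) (Nat.cast_nonneg L)
    linarith
  have hlevnn : ∀ k, 0 ≤ lev d m θ k := fun k =>
    Finset.sum_nonneg fun s _ => Finset.sum_nonneg fun a _ => phi_nonneg _ _
  set P : ℝ := ((L : ℝ) + 2) ^ (d - 2) * (L + 2 + Y) with hP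
  have hP0 : 0 ≤ P := by positivity
  -- split the sum
  have h1 : ∑ k ∈ Finset.range (N + 1), (2 : ℝ) ^ (-(r * k)) * lev d m θ k ≤
      ∑ k ∈ Finset.range (L + 1), (2 : ℝ) ^ (-(r * k)) * lev d m θ k +
        ∑ i ∈ Finset.range (N + 1), (2 : ℝ) ^ (-(r * ((L + 1 + i : ℕ) : ℝ))) *
          lev d m θ (L + 1 + i) := by
    rw [← Finset.sum_range_add]
    refine Finset.sum_le_sum_of_subset_of_nonneg (Finset.range_mono (by omega)) ?_
    intro k _ _
    exact mul_nonneg (by positivity) (hlevnn k)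
  -- the small levels
  have h2 : ∑ k ∈ Finset.range (L + 1), (2 : ℝ) ^ (-(r * k)) * lev d m θ k ≤
      C * P * C3 * (m : ℝ) ^ (-r) * (m : ℝ) ^ d := by
    have h3 : ∀ k ∈ Finset.range (L + 1), (2 : ℝ) ^ (-(r * k)) * lev d m θ k ≤
        C * P / m * (m : ℝ) ^ d * ((2 : ℝ) ^ (1 - r)) ^ k := by
      intro k hk
      have hkL : k ≤ L := Nat.lt_succ_iff.1 (Finset.mem_range.1 hk)
      have hkL' : (k : ℝ) ≤ L := by exact_mod_cast hkL
      have h4 := (hC m k hm1).1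
      have h5 : ((k : ℝ) + 1) ^ (d - 2) * (k + 1 + Y) ≤ P := by
        rw [hP]
        refine mul_le_mul (pow_le_pow_left₀ (by positivity) (by linarith) _) (by linarith)
          (by positivity) (by positivity)
      have h6 : (2 : ℝ) ^ (-(r * k)) * 2 ^ k = ((2 : ℝ) ^ (1 - r)) ^ k := by
        rw [← Real.rpow_natCast (2 : ℝ) k, ← Real.rpow_add (by norm_num), ← Real.rpow_natCast
          ((2 : ℝ) ^ (1 - r)), ← Real.rpow_mul (by norm_num)]
        congr 1
        ring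
      calc (2 : ℝ) ^ (-(r * k)) * lev d m θ k ≤ (2 : ℝ) ^ (-(r * k)) *
            (C * (((k : ℝ) + 1) ^ (d - 2) * (k + 1 + Y)) * (2 ^ k / m) * (m : ℝ) ^ d) :=
            mul_le_mul_of_nonneg_left h4 (by positivity)
        _ = C * (((k : ℝ) + 1) ^ (d - 2) * (k + 1 + Y)) / m * (m : ℝ) ^ d *
            ((2 : ℝ) ^ (1 - r)) ^ k := by
            rw [← h6]; ring
        _ ≤ C * P / m * (m : ℝ) ^ d * ((2 : ℝ) ^ (1 - r)) ^ k := by
            have h7 : C * (((k : ℝ) + 1) ^ (d - 2) * (k + 1 + Y)) ≤ C * P :=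
              mul_le_mul_of_nonneg_left h5 hC0
            gcongr
    refine (Finset.sum_le_sum h3).trans ?_
    rw [← Finset.mul_sum, geom_sum_eq (ne_of_gt hp1)]
    have h8 : ((2 : ℝ) ^ (1 - r)) ^ (L + 1) ≤ 2 * (m : ℝ) ^ (1 - r) := by
      have h9 : (2 : ℝ) ^ (L + 1) ≤ 2 * m := by
        rw [pow_succ']; linarith
      calc ((2 : ℝ) ^ (1 - r)) ^ (L + 1) = ((2 : ℝ) ^ (L + 1)) ^ (1 - r) := by
            rw [← Real.rpow_natCast, ← Real.rpow_mul (by norm_num), mul_comm,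
              Real.rpow_mul (by norm_num), Real.rpow_natCast]
        _ ≤ (2 * m) ^ (1 - r) := Real.rpow_le_rpow (by positivity) h9 (by linarith)
        _ = 2 ^ (1 - r) * (m : ℝ) ^ (1 - r) := Real.mul_rpow (by norm_num) hm0.le
        _ ≤ 2 * (m : ℝ) ^ (1 - r) := by
            refine mul_le_mul_of_nonneg_right ?_ (by positivity)
            calc (2 : ℝ) ^ (1 - r) ≤ 2 ^ (1 : ℝ) :=
                  Real.rpow_le_rpow_of_exponent_le (by norm_num) (by linarith)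
              _ = 2 := Real.rpow_one 2
    have h10 : (((2 : ℝ) ^ (1 - r)) ^ (L + 1) - 1) / ((2 : ℝ) ^ (1 - r) - 1) ≤
        C3 * (m : ℝ) ^ (1 - r) := by
      rw [hC3, div_mul_eq_mul_div]
      refine div_le_div_of_nonneg_right ?_ (by linarith)
      linarith
    have h11 : (m : ℝ) ^ (1 - r) / m = (m : ℝ) ^ (-r) := by
      rw [div_eq_iff hm0.ne', ← Real.rpow_add_one hm0.ne']
      congr 1
      ring
    calc C * P / m * (m : ℝ) ^ d *
          ((((2 : ℝ) ^ (1 - r)) ^ (L + 1) - 1) / ((2 : ℝ) ^ (1 - r) - 1)) ≤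
        C * P / m * (m : ℝ) ^ d * (C3 * (m : ℝ) ^ (1 - r)) :=
          mul_le_mul_of_nonneg_left h10 (by positivity)
      _ = C * P * C3 * ((m : ℝ) ^ (1 - r) / m) * (m : ℝ) ^ d := by ring
      _ = _ := by rw [h11]
  -- the large levels
  have h3 : ∑ i ∈ Finset.range (N + 1), (2 : ℝ) ^ (-(r * ((L + 1 + i : ℕ) : ℝ))) *
      lev d m θ (L + 1 + i) ≤ C * P * C2 * (m : ℝ) ^ (-r) * (m : ℝ) ^ d := by
    have h4 : ∀ i ∈ Finset.range (N + 1), (2 : ℝ) ^ (-(r * ((L + 1 + i : ℕ) : ℝ))) *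
        lev d m θ (L + 1 + i) ≤
        C * P * (m : ℝ) ^ (-r) * (m : ℝ) ^ d * (((i : ℝ) + 1) ^ (d - 1) * q ^ i) := by
      intro i _
      have h5 := (hC m (L + 1 + i) hm1).2
      have h6 : (((L + 1 + i : ℕ) : ℝ) + 1) ^ (d - 2) * (((L + 1 + i : ℕ) : ℝ) + 1 + Y) ≤
          P * ((i : ℝ) + 1) ^ (d - 1) := by
        have hi0 : (0 : ℝ) ≤ i := Nat.cast_nonneg i
        have hL0 : (0 : ℝ) ≤ L := Nat.cast_nonneg L
        have h7 : ((L + 1 + i : ℕ) : ℝ) + 1 ≤ (L + 2) * (i + 1) := by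
          push_cast
          nlinarith
        have h8 : ((L + 1 + i : ℕ) : ℝ) + 1 + Y ≤ (L + 2 + Y) * (i + 1) := by
          push_cast
          nlinarith
        have h9 : ((i : ℝ) + 1) ^ (d - 1) = (i + 1) ^ (d - 2) * (i + 1) := by
          rw [← pow_succ]
          congr 1
          omega
        calc (((L + 1 + i : ℕ) : ℝ) + 1) ^ (d - 2) * (((L + 1 + i : ℕ) : ℝ) + 1 + Y) ≤
            ((L + 2) * (i + 1)) ^ (d - 2) * ((L + 2 + Y) * (i + 1)) :=
              mul_le_mul (pow_le_pow_left₀ (by positivity) h7 _) h8 (by positivity)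
                (by positivity)
          _ = P * ((i : ℝ) + 1) ^ (d - 1) := by
              rw [hP, h9, mul_pow]; ring
      have h10 : (2 : ℝ) ^ (-(r * ((L + 1 + i : ℕ) : ℝ))) * (2 ^ (L + 1 + i) / m) ^ θ ≤
          (m : ℝ) ^ (-r) * q ^ i := by
        have e1 : (2 : ℝ) ^ (-(r * ((L + 1 + i : ℕ) : ℝ))) = ((2 : ℝ) ^ (L + 1 + i)) ^ (-r) := by
          rw [← Real.rpow_natCast, ← Real.rpow_mul (by norm_num)]
          congr 1
          ring
        have e2 : ((2 : ℝ) ^ (L + 1 + i) / m) ^ θ =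
            ((2 : ℝ) ^ (L + 1 + i)) ^ θ * (m : ℝ) ^ (-θ) := by
          rw [Real.div_rpow (by positivity) hm0.le, Real.rpow_neg hm0.le, div_eq_mul_inv]
        have e3 : ((2 : ℝ) ^ (L + 1 + i)) ^ (-r) * ((2 : ℝ) ^ (L + 1 + i)) ^ θ =
            ((2 : ℝ) ^ (L + 1 + i)) ^ (-(r - θ)) := by
          rw [← Real.rpow_add (by positivity)]
          congr 1
          ring
        have e4 : ((2 : ℝ) ^ (L + 1 + i)) ^ (-(r - θ)) ≤ ((m : ℝ) * 2 ^ i) ^ (-(r - θ)) := by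
          refine Real.rpow_le_rpow_of_nonpos (by positivity) ?_ (by linarith)
          rw [pow_add]
          exact mul_le_mul_of_nonneg_right hL2 (by positivity)
        have e5 : ((m : ℝ) * 2 ^ i) ^ (-(r - θ)) = (m : ℝ) ^ (-(r - θ)) * q ^ i := by
          rw [Real.mul_rpow hm0.le (by positivity), hq, ← Real.rpow_natCast (2 : ℝ) i,
            ← Real.rpow_natCast ((2 : ℝ) ^ (-(r - θ))) i, ← Real.rpow_mul (by norm_num),
            ← Real.rpow_mul (by norm_num), mul_comm (i : ℝ)]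
        have e6 : (m : ℝ) ^ (-(r - θ)) * (m : ℝ) ^ (-θ) = (m : ℝ) ^ (-r) := by
          rw [← Real.rpow_add hm0]
          congr 1
          ring
        rw [e1, e2, ← mul_assoc, e3]
        calc ((2 : ℝ) ^ (L + 1 + i)) ^ (-(r - θ)) * (m : ℝ) ^ (-θ) ≤
            ((m : ℝ) ^ (-(r - θ)) * q ^ i) * (m : ℝ) ^ (-θ) := by
              rw [← e5]
              exact mul_le_mul_of_nonneg_right e4 (by positivity)
          _ = (m : ℝ) ^ (-r) * q ^ i := by rw [← e6]; ring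
      calc (2 : ℝ) ^ (-(r * ((L + 1 + i : ℕ) : ℝ))) * lev d m θ (L + 1 + i) ≤
          (2 : ℝ) ^ (-(r * ((L + 1 + i : ℕ) : ℝ))) *
          (C * ((((L + 1 + i : ℕ) : ℝ) + 1) ^ (d - 2) * (((L + 1 + i : ℕ) : ℝ) + 1 + Y)) *
            (2 ^ (L + 1 + i) / m) ^ θ * (m : ℝ) ^ d) :=
            mul_le_mul_of_nonneg_left h5 (by positivity)
        _ = C * ((((L + 1 + i : ℕ) : ℝ) + 1) ^ (d - 2) * (((L + 1 + i : ℕ) : ℝ) + 1 + Y)) *
            ((2 : ℝ) ^ (-(r * ((L + 1 + i : ℕ) : ℝ))) * (2 ^ (L + 1 + i) / m) ^ θ) *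
              (m : ℝ) ^ d := by ring
        _ ≤ C * (P * ((i : ℝ) + 1) ^ (d - 1)) * ((m : ℝ) ^ (-r) * q ^ i) * (m : ℝ) ^ d := by
            refine mul_le_mul_of_nonneg_right ?_ (by positivity)
            refine mul_le_mul (mul_le_mul_of_nonneg_left h6 hC0) h10 (by positivity)
              (by positivity)
        _ = _ := by ring
    refine (Finset.sum_le_sum h4).trans ?_
    rw [← Finset.mul_sum]
    calc C * P * (m : ℝ) ^ (-r) * (m : ℝ) ^ d *
          ∑ i ∈ Finset.range (N + 1), ((i : ℝ) + 1) ^ (d - 1) * q ^ i ≤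
        C * P * (m : ℝ) ^ (-r) * (m : ℝ) ^ d * C2 := by
          refine mul_le_mul_of_nonneg_left ?_ (by positivity)
          exact hsumm.sum_le_tsum _ fun i _ => by positivity
      _ = _ := by ring
  -- conclusion
  have h12 : P ≤ 6 ^ (d - 2) * 7 * Y ^ (d - 1) := by
    have h13 : (L : ℝ) + 2 ≤ 6 * Y := by linarith
    have h14 : (L : ℝ) + 2 + Y ≤ 7 * Y := by linarith
    have h15 : Y ^ (d - 1) = Y ^ (d - 2) * Y := by
      rw [← pow_succ]
      congr 1
      omega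
    calc P ≤ (6 * Y) ^ (d - 2) * (7 * Y) :=
          mul_le_mul (pow_le_pow_left₀ (by positivity) h13 _) h14 (by positivity) (by positivity)
      _ = _ := by rw [h15, mul_pow]; ring
  calc ∑ k ∈ Finset.range (N + 1), (2 : ℝ) ^ (-(r * k)) * lev d m θ k ≤
      C * P * C3 * (m : ℝ) ^ (-r) * (m : ℝ) ^ d + C * P * C2 * (m : ℝ) ^ (-r) * (m : ℝ) ^ d :=
        h1.trans (add_le_add h2 h3)
    _ = C * (C3 + C2) * (m : ℝ) ^ (-r) * (m : ℝ) ^ d * P := by ring
    _ ≤ C * (C3 + C2) * (m : ℝ) ^ (-r) * (m : ℝ) ^ d * (6 ^ (d - 2) * 7 * Y ^ (d - 1)) :=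
        mul_le_mul_of_nonneg_left h12 (by positivity)
    _ = _ := by ring

end Pool.Agent.Lib.P51a855
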