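import Pool.Agent.Lib.P51a855.Defs

/-!
One-dimensional Fejér kernels (module Fejer of MP_51a855_an).
-/

set_option autoImplicit false

open MeasureTheory
open scoped ENNReal NNReal ComplexConjugate

noncomputable section

namespace Pool.Agent.Lib.P51a855

/-- the character `e^{ikx}` -/
private def ek (k : ℤ) (x : Circ) : ℂ := fourier k x

private lemma ek_add (m n : ℤ) (x : Circ) : ek (m + n) x = ek m x * ek n x := fourier_add

private lemma ek_zero (x : Circ) : ek 0 x = 1 := fourier_zero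

private lemma ek_neg (n : ℤ) (x : Circ) : ek (-n) x = conj (ek n x) := fourier_neg

private lemma norm_ek (n : ℤ) (x : Circ) : ‖ek n x‖ = 1 := Circle.norm_coe _

private lemma continuous_ek (n : ℤ) : Continuous (ek n) := (fourier n).continuous

private lemma ek_sub (k : ℤ) (x y : Circ) : ek k (x - y) = ek k x * ek (-k) y := by
  unfold ek
  rw [fourier_apply, fourier_apply, fourier_apply, zsmul_sub, sub_eq_add_neg, ← neg_zsmul,
    AddCircle.toCircle_add, Circle.coe_mul]

private lemma integral_ek (k : ℤ) :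
    ∫ x, ek k x ∂AddCircle.haarAddCircle = if k = 0 then 1 else 0 := by
  have h := congrFun (fourierCoeff_fourier (T := 2 * Real.pi) k) 0
  unfold fourierCoeff at h
  simp only [neg_zero, fourier_zero, one_smul] at h
  unfold ek
  rw [h]
  by_cases hk : k = 0
  · subst hk; simp
  · rw [Pi.single_eq_of_ne (Ne.symm hk), if_neg hk]

private lemma integrable_of_cont {f : Circ → ℝ} (hf : Continuous f) :
    Integrable f AddCircle.haarAddCircle := by
  obtain ⟨C, hC⟩ := isCompact_univ.exists_bound_of_continuousOn hf.continuousOn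
  exact Integrable.of_bound hf.aestronglyMeasurable C
    (Filter.Eventually.of_forall fun x => hC x (Set.mem_univ x))

private lemma integrable_of_contC {f : Circ → ℂ} (hf : Continuous f) :
    Integrable f AddCircle.haarAddCircle := by
  obtain ⟨C, hC⟩ := isCompact_univ.exists_bound_of_continuousOn hf.continuousOn
  exact Integrable.of_bound hf.aestronglyMeasurable C
    (Filter.Eventually.of_forall fun x => hC x (Set.mem_univ x))

private lemma integrable_ek_mul (c : ℂ) (k : ℤ) :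
    Integrable (fun x : Circ => c * ek k x) AddCircle.haarAddCircle :=
  integrable_of_contC (continuous_const.mul (continuous_ek k))

/-! ### Expansion -/

/-- Fourier coefficients of the Fejér kernel -/
private def cf (N : ℕ) (k : ℤ) : ℝ := ((N - k.natAbs : ℕ) : ℝ) / N

private lemma card_diff (N : ℕ) (k : ℤ) :
    ((Finset.range N ×ˢ Finset.range N).filter (fun p => (p.1 : ℤ) - p.2 = k)).card =
      N - k.natAbs := by
  have : (Finset.range N ×ˢ Finset.range N).filter (fun p => (p.1 : ℤ) - p.2 = k) =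
      (Finset.range (N - k.natAbs)).image (fun m => (m + k.toNat, m + (-k).toNat)) := by
    ext ⟨j, l⟩
    simp only [Finset.mem_filter, Finset.mem_product, Finset.mem_range, Finset.mem_image,
      Prod.mk.injEq]
    constructor
    · rintro ⟨⟨h1, h2⟩, h3⟩
      refine ⟨min j l, ?_, ?_, ?_⟩ <;> omega
    · rintro ⟨m, h1, h2, h3⟩
      refine ⟨⟨?_, ?_⟩, ?_⟩ <;> omega
  rw [this, Finset.card_image_of_injective, Finset.card_range]
  intro a b h
  simp only [Prod.mk.injEq] at h
  omega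

private lemma fej_expand (N K : ℕ) (hNK : N ≤ K) (x : Circ) :
    (fej N x : ℂ) = ∑ k ∈ Finset.Ioo (-(K : ℤ)) K, (cf N k : ℂ) * ek k x := by
  have h1 : ((‖∑ j ∈ Finset.range N, (fourier (j : ℤ) x : ℂ)‖ ^ 2 : ℝ) : ℂ) =
      ∑ p ∈ Finset.range N ×ˢ Finset.range N, ek ((p.1 : ℤ) - p.2) x := by
    rw [Complex.ofReal_pow, ← Complex.mul_conj', Finset.sum_product, map_sum, Finset.sum_mul_sum]
    refine Finset.sum_congr rfl fun i _ => Finset.sum_congr rfl fun j _ => ?_
    dsimp only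
    rw [sub_eq_add_neg, ek_add, ek_neg]
    rfl
  have h2 : ∑ p ∈ Finset.range N ×ˢ Finset.range N, ek ((p.1 : ℤ) - p.2) x =
      ∑ k ∈ Finset.Ioo (-(K : ℤ)) K, ((N - k.natAbs : ℕ) : ℂ) * ek k x := by
    rw [← Finset.sum_fiberwise_of_maps_to (g := fun p : ℕ × ℕ => (p.1 : ℤ) - p.2)
      (t := Finset.Ioo (-(K : ℤ)) K)]
    · refine Finset.sum_congr rfl fun k _ => ?_
      rw [← card_diff N k, ← nsmul_eq_mul, ← Finset.sum_const]
      refine Finset.sum_congr rfl fun p hp => ?_
      rw [(Finset.mem_filter.1 hp).2]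
    · intro p hp
      rw [Finset.mem_product, Finset.mem_range, Finset.mem_range] at hp
      rw [Finset.mem_Ioo]
      constructor <;> omega
  unfold fej
  rw [Complex.ofReal_mul, h1, h2, Finset.mul_sum]
  refine Finset.sum_congr rfl fun k _ => ?_
  unfold cf
  push_cast
  ring

private lemma cf_of_lt {N : ℕ} {k : ℤ} (h : k.natAbs < N) :
    cf N k = 1 - (k.natAbs : ℝ) / N := by
  unfold cf
  have hN : (N : ℝ) ≠ 0 := by
    have : 0 < N := by omega
    exact_mod_cast this.ne'
  rw [Nat.cast_sub h.le]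
  field_simp

private lemma cf_of_ge {N : ℕ} {k : ℤ} (h : N ≤ k.natAbs) : cf N k = 0 := by
  unfold cf
  rw [Nat.sub_eq_zero_of_le h]; simp

private lemma cf_zero {N : ℕ} (hN : 1 ≤ N) : cf N 0 = 1 := by
  rw [cf_of_lt (by rw [Int.natAbs_zero]; omega)]; simp

theorem continuous_fej (N : ℕ) : Continuous (fej N) := by
  unfold fej
  have h : Continuous fun x : Circ => ∑ j ∈ Finset.range N, (fourier (j : ℤ) x : ℂ) :=
    continuous_finsetSum (Finset.range N) fun (j : ℕ) _ => (fourier (j : ℤ)).continuous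
  exact continuous_const.mul (h.norm.pow 2)

theorem fej_nonneg (N : ℕ) (x : Circ) : 0 ≤ fej N x := by
  unfold fej
  positivity

theorem integral_fej (N : ℕ) (hN : 1 ≤ N) : ∫ x, fej N x ∂AddCircle.haarAddCircle = 1 := by
  have h : ((∫ x, fej N x ∂AddCircle.haarAddCircle : ℝ) : ℂ) = 1 := by
    rw [← integral_complex_ofReal]
    have h1 : ∀ x : Circ, ((fej N x : ℝ) : ℂ) =
        ∑ k ∈ Finset.Ioo (-(N : ℤ)) N, (cf N k : ℂ) * ek k x := fej_expand N N le_rfl
    refine (integral_congr_ae (Filter.Eventually.of_forall h1)).trans ?_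
    rw [integral_finsetSum _ fun k _ => integrable_ek_mul _ k]
    simp_rw [integral_const_mul, integral_ek]
    rw [Finset.sum_eq_single 0]
    · rw [cf_zero hN]; simp
    · intro k _ hk; simp [hk]
    · intro h0
      exact absurd (Finset.mem_Ioo.2 ⟨by omega, by omega⟩) h0
  exact_mod_cast h

/-! ### Moments -/

private lemma norm_dir_le (N : ℕ) (x : Circ) :
    ‖∑ j ∈ Finset.range N, (fourier (j : ℤ) x : ℂ)‖ ≤ N := by
  calc _ ≤ ∑ j ∈ Finset.range N, ‖(fourier (j : ℤ) x : ℂ)‖ := norm_sum_le _ _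
    _ = N := by
      have : ∀ j ∈ Finset.range N, ‖(fourier (j : ℤ) x : ℂ)‖ = 1 := fun j _ => norm_ek j x
      rw [Finset.sum_congr rfl this]; simp

private lemma fej_le_N (N : ℕ) (x : Circ) : fej N x ≤ N := by
  unfold fej
  rcases Nat.eq_zero_or_pos N with h | h
  · subst h; simp
  · have hN : (0 : ℝ) < N := by exact_mod_cast h
    rw [one_div, inv_mul_le_iff₀ hN, ← sq]
    exact pow_le_pow_left₀ (norm_nonneg _) (norm_dir_le N x) 2

private lemma norm_sub_one_ge {x : ℝ} (hx : |x| ≤ Real.pi) :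
    2 / Real.pi * |x| ≤ ‖(ek 1 (x : Circ)) - 1‖ := by
  unfold ek
  rw [fourier_coe_apply]
  have h1 : Complex.exp (2 * Real.pi * Complex.I * (1 : ℤ) * x / (2 * Real.pi : ℝ)) =
      Complex.exp (Complex.I * x) := by
    congr 1
    push_cast
    have : (Real.pi : ℂ) ≠ 0 := by exact_mod_cast Real.pi_ne_zero
    field_simp
  rw [h1, Complex.norm_exp_I_mul_ofReal_sub_one, Real.norm_eq_abs, abs_mul, abs_two]
  have h2 : |Real.sin (x / 2)| = Real.sin (|x| / 2) := by
    have h3 : 0 ≤ Real.sin (|x| / 2) :=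
      Real.sin_nonneg_of_nonneg_of_le_pi (by positivity) (by linarith [abs_nonneg x])
    rcases abs_cases x with ⟨h, _⟩ | ⟨h, _⟩
    · rw [h] at h3 ⊢
      exact abs_of_nonneg h3
    · rw [h] at h3 ⊢
      rw [neg_div, Real.sin_neg] at h3 ⊢
      rw [abs_of_nonpos (by linarith)]
  rw [h2]
  have h4 := Real.mul_le_sin (x := |x| / 2) (by positivity) (by linarith)
  linarith

private lemma fej_le_sq (N : ℕ) {x : ℝ} (hx : |x| ≤ Real.pi) (hx0 : x ≠ 0) :
    fej N (x : Circ) ≤ Real.pi ^ 2 / N * (|x|) ^ (-2 : ℝ) := by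
  have hpos : 0 < |x| := abs_pos.2 hx0
  have hge := norm_sub_one_ge hx
  have hpi := Real.pi_pos
  have h0 : 0 < ‖(ek 1 (x : Circ)) - 1‖ := lt_of_lt_of_le (by positivity) hge
  have hgeo : (∑ j ∈ Finset.range N, (fourier (j : ℤ) (x : Circ) : ℂ)) * (ek 1 (x : Circ) - 1) =
      ek N (x : Circ) - 1 := by
    have h1 : ∀ j : ℕ, (fourier (j : ℤ) (x : Circ) : ℂ) = (ek 1 (x : Circ)) ^ j := by
      intro j
      induction j with
      | zero => simp
      | succ j ih =>
        have := ek_add (j : ℤ) 1 (x : Circ)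
        rw [pow_succ, ← ih]
        push_cast
        exact this
    simp_rw [h1]
    rw [geom_sum_mul, ← h1]
    rfl
  have hn : ‖∑ j ∈ Finset.range N, (fourier (j : ℤ) (x : Circ) : ℂ)‖ ≤ Real.pi / |x| := by
    have h2 : ‖∑ j ∈ Finset.range N, (fourier (j : ℤ) (x : Circ) : ℂ)‖ *
        ‖ek 1 (x : Circ) - 1‖ ≤ 2 := by
      rw [← norm_mul, hgeo]
      calc _ ≤ ‖ek N (x : Circ)‖ + ‖(1 : ℂ)‖ := norm_sub_le _ _
        _ = 2 := by rw [norm_ek, norm_one]; norm_num
    have h3 : ‖∑ j ∈ Finset.range N, (fourier (j : ℤ) (x : Circ) : ℂ)‖ *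
        (2 / Real.pi * |x|) ≤ 2 :=
      (mul_le_mul_of_nonneg_left hge (norm_nonneg _)).trans h2
    rw [le_div_iff₀ hpos]
    have h4 : ‖∑ j ∈ Finset.range N, (fourier (j : ℤ) (x : Circ) : ℂ)‖ *
        (2 / Real.pi * |x|) = 2 / Real.pi *
        (‖∑ j ∈ Finset.range N, (fourier (j : ℤ) (x : Circ) : ℂ)‖ * |x|) := by ring
    rw [h4, div_mul_eq_mul_div, div_le_iff₀ hpi] at h3
    linarith
  unfold fej
  have h5 : (|x|) ^ (-2 : ℝ) = 1 / |x| ^ 2 := by
    rw [Real.rpow_neg hpos.le, one_div]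
    norm_num
  rw [h5]
  calc 1 / (N : ℝ) * ‖∑ j ∈ Finset.range N, (fourier (j : ℤ) (x : Circ) : ℂ)‖ ^ 2
      ≤ 1 / (N : ℝ) * (Real.pi / |x|) ^ 2 := by gcongr
    _ = _ := by ring

private lemma half_moment {r : ℝ} (hr0 : 0 < r) (hr1 : r < 1) {N : ℕ} (hN : 1 ≤ N)
    {G : ℝ → ℝ} (hG : Continuous G) (h1 : ∀ x, 0 ≤ x → x ≤ Real.pi → G x ≤ N * x ^ r)
    (h2 : ∀ x, 0 < x → x ≤ Real.pi → G x ≤ Real.pi ^ 2 / N * x ^ (r - 2)) :
    ∫ x in (0 : ℝ)..Real.pi, G x ≤ (1 + Real.pi ^ 2 / (1 - r)) * (N : ℝ) ^ (-r) := by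
  have hN' : (1 : ℝ) ≤ N := by exact_mod_cast hN
  have hN0 : (0 : ℝ) < N := by linarith
  have hpi := Real.pi_gt_three
  have ha0 : (0 : ℝ) < 1 / N := by positivity
  have ha1 : (1 : ℝ) / N ≤ Real.pi := by
    have : (1 : ℝ) / N ≤ 1 := by rw [div_le_one hN0]; exact hN'
    linarith
  rw [← intervalIntegral.integral_add_adjacent_intervals (b := 1 / (N : ℝ))
    (hG.intervalIntegrable _ _) (hG.intervalIntegrable _ _)]
  have e1 : ∫ x in (0 : ℝ)..(1 / N), G x ≤ (N : ℝ) ^ (-r) := by
    calc ∫ x in (0 : ℝ)..(1 / N), G x ≤ ∫ x in (0 : ℝ)..(1 / N), (N : ℝ) * x ^ r := by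
          refine intervalIntegral.integral_mono_on ha0.le (hG.intervalIntegrable _ _)
            ((continuous_const.mul (Real.continuous_rpow_const hr0.le)).intervalIntegrable _ _)
            fun x hx => h1 x hx.1 (hx.2.trans ha1)
      _ = N * ((1 / N : ℝ) ^ (r + 1) / (r + 1)) := by
          rw [intervalIntegral.integral_const_mul, integral_rpow (Or.inl (by linarith)),
            Real.zero_rpow (by linarith), sub_zero]
      _ ≤ N * ((1 / N : ℝ) ^ (r + 1)) := by
          refine mul_le_mul_of_nonneg_left ?_ hN0.le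
          exact div_le_self (by positivity) (by linarith)
      _ = (N : ℝ) ^ (-r) := by
          rw [one_div, Real.inv_rpow hN0.le, Real.rpow_add hN0, Real.rpow_one, Real.rpow_neg hN0.le]
          field_simp
  have e2 : ∫ x in (1 / N : ℝ)..Real.pi, G x ≤ Real.pi ^ 2 / (1 - r) * (N : ℝ) ^ (-r) := by
    have hnot : (0 : ℝ) ∉ Set.uIcc (1 / (N : ℝ)) Real.pi := by
      rw [Set.uIcc_of_le ha1]
      intro h
      linarith [h.1]
    have hcont : ContinuousOn (fun x : ℝ => Real.pi ^ 2 / N * x ^ (r - 2))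
        (Set.uIcc (1 / (N : ℝ)) Real.pi) := by
      refine continuousOn_const.mul (ContinuousOn.rpow_const continuousOn_id fun x hx => ?_)
      left
      rintro rfl
      exact hnot hx
    calc ∫ x in (1 / N : ℝ)..Real.pi, G x
        ≤ ∫ x in (1 / N : ℝ)..Real.pi, Real.pi ^ 2 / N * x ^ (r - 2) := by
          refine intervalIntegral.integral_mono_on ha1 (hG.intervalIntegrable _ _)
            hcont.intervalIntegrable fun x hx => h2 x (ha0.trans_le hx.1) hx.2
      _ = Real.pi ^ 2 / N * ((Real.pi ^ (r - 1) - (1 / N : ℝ) ^ (r - 1)) / (r - 1)) := by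
          rw [intervalIntegral.integral_const_mul,
            integral_rpow (Or.inr ⟨by linarith, hnot⟩)]
          have : r - 2 + 1 = r - 1 := by ring
          rw [this]
      _ ≤ Real.pi ^ 2 / N * ((1 / N : ℝ) ^ (r - 1) / (1 - r)) := by
          refine mul_le_mul_of_nonneg_left ?_ (by positivity)
          have h3 : (Real.pi ^ (r - 1) - (1 / N : ℝ) ^ (r - 1)) / (r - 1) =
              ((1 / N : ℝ) ^ (r - 1) - Real.pi ^ (r - 1)) / (1 - r) := by
            rw [← neg_sub (Real.pi ^ (r - 1)), ← neg_sub r 1, neg_div_neg_eq]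
          rw [h3]
          refine div_le_div_of_nonneg_right ?_ (by linarith)
          have : (0 : ℝ) ≤ Real.pi ^ (r - 1) := by positivity
          linarith
      _ = Real.pi ^ 2 / (1 - r) * (N : ℝ) ^ (-r) := by
          have h4 : (1 / N : ℝ) ^ (r - 1) = (N : ℝ) ^ (-r) * N := by
            rw [one_div, Real.inv_rpow hN0.le, ← Real.rpow_neg hN0.le]
            have : -(r - 1) = -r + 1 := by ring
            rw [this, Real.rpow_add hN0, Real.rpow_one]
          rw [h4]
          have : (1 : ℝ) - r ≠ 0 := by linarith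
          field_simp
  linarith

theorem fej_moment (r : ℝ) (hr0 : 0 < r) (hr1 : r < 1) :
    ∃ C : ℝ, 0 ≤ C ∧ ∀ N : ℕ, 1 ≤ N →
      ∫ x, fej N x * ‖x‖ ^ r ∂AddCircle.haarAddCircle ≤ C * (N : ℝ) ^ (-r) := by
  have hpi := Real.pi_gt_three
  have h1r : (0 : ℝ) < 1 - r := by linarith
  refine ⟨1 + Real.pi ^ 2 / (1 - r), by positivity, fun N hN => ?_⟩
  rw [AddCircle.integral_haarAddCircle, ← AddCircle.intervalIntegral_preimage (2 * Real.pi)
    (-Real.pi), smul_eq_mul]
  have e0 : -Real.pi + 2 * Real.pi = Real.pi := by ring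
  rw [e0]
  set F : ℝ → ℝ := fun x => fej N (x : Circ) * ‖(x : Circ)‖ ^ r with hF
  have hFc : Continuous F := by
    have h1 : Continuous fun x : ℝ => (x : Circ) := AddCircle.continuous_mk' (2 * Real.pi)
    exact ((continuous_fej N).comp h1).mul
      ((Real.continuous_rpow_const hr0.le).comp (continuous_norm.comp h1))
  have hnorm : ∀ x : ℝ, |x| ≤ Real.pi → ‖(x : Circ)‖ = |x| := by
    intro x hx
    rw [AddCircle.norm_coe_eq_abs_iff _ Real.two_pi_pos.ne', abs_of_pos Real.two_pi_pos]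
    linarith
  have hF1 : ∀ x : ℝ, |x| ≤ Real.pi → F x ≤ N * |x| ^ r := by
    intro x hx
    rw [hF]; dsimp only
    rw [hnorm x hx]
    gcongr
    exact fej_le_N N _
  have hF2 : ∀ x : ℝ, |x| ≤ Real.pi → x ≠ 0 → F x ≤ Real.pi ^ 2 / N * |x| ^ (r - 2) := by
    intro x hx hx0
    rw [hF]; dsimp only
    rw [hnorm x hx]
    have h3 : |x| ^ (r - 2) = |x| ^ (-2 : ℝ) * |x| ^ r := by
      rw [← Real.rpow_add (abs_pos.2 hx0)]
      congr 1; ring
    rw [h3, ← mul_assoc]
    gcongr
    exact fej_le_sq N hx hx0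
  have i1 : ∫ x in (0 : ℝ)..Real.pi, F x ≤ (1 + Real.pi ^ 2 / (1 - r)) * (N : ℝ) ^ (-r) := by
    refine half_moment hr0 hr1 hN hFc (fun x h h' => ?_) fun x h h' => ?_
    · simpa [abs_of_nonneg h] using hF1 x (by rwa [abs_of_nonneg h])
    · simpa [abs_of_pos h] using hF2 x (by rwa [abs_of_pos h]) h.ne'
  have i2 : ∫ x in (0 : ℝ)..Real.pi, F (-x) ≤
      (1 + Real.pi ^ 2 / (1 - r)) * (N : ℝ) ^ (-r) := by
    refine half_moment hr0 hr1 hN (hFc.comp continuous_neg) (fun x h h' => ?_) fun x h h' => ?_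
    · simpa [abs_of_nonneg h] using hF1 (-x) (by rwa [abs_neg, abs_of_nonneg h])
    · simpa [abs_of_pos h] using hF2 (-x) (by rwa [abs_neg, abs_of_pos h])
        (neg_ne_zero.2 h.ne')
  have i3 : ∫ x in (-Real.pi)..Real.pi, F x =
      (∫ x in (0 : ℝ)..Real.pi, F (-x)) + ∫ x in (0 : ℝ)..Real.pi, F x := by
    rw [intervalIntegral.integral_comp_neg, neg_zero,
      intervalIntegral.integral_add_adjacent_intervals (hFc.intervalIntegrable _ _)
        (hFc.intervalIntegrable _ _)]
  rw [i3]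
  have i4 : 0 ≤ (1 + Real.pi ^ 2 / (1 - r)) * (N : ℝ) ^ (-r) := by positivity
  have i5 : (2 * Real.pi)⁻¹ * (2 * ((1 + Real.pi ^ 2 / (1 - r)) * (N : ℝ) ^ (-r))) ≤
      (1 + Real.pi ^ 2 / (1 - r)) * (N : ℝ) ^ (-r) := by
    rw [inv_mul_le_iff₀ (by positivity)]
    nlinarith
  refine le_trans (mul_le_mul_of_nonneg_left ?_ (by positivity)) i5
  linarith

/-! ### Dyadic blocks -/

theorem continuous_vker (s : ℕ) : Continuous (vker s) := by
  cases s with
  | zero => exact continuous_const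
  | succ s => exact (continuous_fej _).sub (continuous_fej _)

theorem continuous_wker (s : ℕ) : Continuous (wker s) := by
  cases s with
  | zero => exact continuous_const
  | succ s =>
    exact ((continuous_const.mul (continuous_fej _)).sub (continuous_fej _)).sub continuous_const

theorem sum_vker (n : ℕ) (x : Circ) : ∑ s ∈ Finset.range (n + 1), vker s x = fej (2 ^ n) x := by
  induction n with
  | zero =>
    have h : ‖(fourier (0 : ℤ) x : ℂ)‖ = 1 := norm_ek 0 x
    simp only [vker, fej, zero_add, Finset.range_one, Finset.sum_singleton, pow_zero,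
      Nat.cast_one, Nat.cast_zero, h]
    norm_num
  | succ n ih =>
    rw [Finset.sum_range_succ, ih]
    simp only [vker]
    ring

theorem integral_vker (s : ℕ) (hs : 1 ≤ s) :
    ∫ x, vker s x ∂AddCircle.haarAddCircle = 0 := by
  obtain ⟨t, rfl⟩ : ∃ t, s = t + 1 := ⟨s - 1, by omega⟩
  simp only [vker]
  rw [integral_sub (integrable_of_cont (continuous_fej _)) (integrable_of_cont (continuous_fej _)),
    integral_fej _ Nat.one_le_two_pow, integral_fej _ Nat.one_le_two_pow, sub_self]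

theorem vker_moment (r : ℝ) (hr0 : 0 < r) (hr1 : r < 1) :
    ∃ C : ℝ, 0 ≤ C ∧ ∀ s : ℕ, 1 ≤ s →
      ∫ x, |vker s x| * ‖x‖ ^ r ∂AddCircle.haarAddCircle ≤ C * (2 : ℝ) ^ (-(r * s)) := by
  obtain ⟨C, hC, h⟩ := fej_moment r hr0 hr1
  refine ⟨C * (1 + 2 ^ r), by positivity, fun s hs => ?_⟩
  obtain ⟨t, rfl⟩ : ∃ t, s = t + 1 := ⟨s - 1, by omega⟩
  have hc : Continuous fun x : Circ => ‖x‖ ^ r :=
    (Real.continuous_rpow_const hr0.le).comp continuous_norm
  have hpow : ∀ n : ℕ, ((2 ^ n : ℕ) : ℝ) ^ (-r) = (2 : ℝ) ^ (-(r * n)) := by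
    intro n
    push_cast
    rw [← Real.rpow_natCast, ← Real.rpow_mul (by norm_num)]
    congr 1; ring
  calc ∫ x, |vker (t + 1) x| * ‖x‖ ^ r ∂AddCircle.haarAddCircle
      ≤ ∫ x, (fej (2 ^ (t + 1)) x * ‖x‖ ^ r + fej (2 ^ t) x * ‖x‖ ^ r)
          ∂AddCircle.haarAddCircle := by
        refine integral_mono (integrable_of_cont ((continuous_abs.comp
          (continuous_vker (t + 1))).mul hc)) (integrable_of_cont
          (((continuous_fej _).mul hc).add ((continuous_fej _).mul hc))) fun x => ?_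
        dsimp only
        rw [← add_mul]
        gcongr
        simp only [vker]
        refine (abs_sub _ _).trans (le_of_eq ?_)
        rw [abs_of_nonneg (fej_nonneg _ _), abs_of_nonneg (fej_nonneg _ _)]
    _ ≤ C * (2 : ℝ) ^ (-(r * ((t + 1 : ℕ) : ℝ))) + C * (2 : ℝ) ^ (-(r * (t : ℝ))) := by
        have i1 : ∀ n, Integrable (fun x : Circ => fej n x * ‖x‖ ^ r) AddCircle.haarAddCircle :=
          fun n => integrable_of_cont ((continuous_fej n).mul hc)
        rw [integral_add (i1 _) (i1 _), ← hpow, ← hpow]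
        exact add_le_add (h _ Nat.one_le_two_pow) (h _ Nat.one_le_two_pow)
    _ = C * (1 + 2 ^ r) * (2 : ℝ) ^ (-(r * ((t + 1 : ℕ) : ℝ))) := by
        have : (2 : ℝ) ^ (-(r * (t : ℝ))) = 2 ^ r * (2 : ℝ) ^ (-(r * ((t + 1 : ℕ) : ℝ))) := by
          rw [← Real.rpow_add (by norm_num)]
          congr 1; push_cast; ring
        rw [this]; ring

theorem wker_L1 (s : ℕ) : ∫ x, |wker s x| ∂AddCircle.haarAddCircle ≤ 4 := by
  cases s with
  | zero => simp [wker]
  | succ s =>
    calc ∫ x, |wker (s + 1) x| ∂AddCircle.haarAddCircle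
        ≤ ∫ x, (2 * fej (2 ^ (s + 2)) x + fej (2 ^ (s + 1)) x + 1) ∂AddCircle.haarAddCircle := by
          refine integral_mono (integrable_of_cont (continuous_abs.comp (continuous_wker (s + 1))))
            (integrable_of_cont (((continuous_const.mul (continuous_fej _)).add
              (continuous_fej _)).add continuous_const)) fun x => ?_
          dsimp only [wker]
          have h1 := fej_nonneg (2 ^ (s + 2)) x
          have h2 := fej_nonneg (2 ^ (s + 1)) x
          rw [abs_le]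
          constructor <;> linarith
      _ = 4 := by
          have i1 : Integrable (fun x : Circ => 2 * fej (2 ^ (s + 2)) x)
              AddCircle.haarAddCircle :=
            integrable_of_cont (continuous_const.mul (continuous_fej _))
          have i2 : Integrable (fun x : Circ => fej (2 ^ (s + 1)) x) AddCircle.haarAddCircle :=
            integrable_of_cont (continuous_fej _)
          have i3 : Integrable (fun x : Circ => 2 * fej (2 ^ (s + 2)) x + fej (2 ^ (s + 1)) x)
              AddCircle.haarAddCircle := i1.add i2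
          rw [integral_add i3 (integrable_const _), integral_add i1 i2, integral_const_mul,
            integral_fej _ Nat.one_le_two_pow, integral_fej _ Nat.one_le_two_pow]
          simp
          norm_num

/-- coefficients of `vker (s + 1)` -/
private def ca (s : ℕ) (k : ℤ) : ℝ := cf (2 ^ (s + 1)) k - cf (2 ^ s) k

/-- coefficients of `wker (s + 1)` -/
private def cc (s : ℕ) (k : ℤ) : ℝ :=
  2 * cf (2 ^ (s + 2)) k - cf (2 ^ (s + 1)) k - if k = 0 then 1 else 0

private lemma vker_expand (s : ℕ) (x : Circ) : (vker (s + 1) x : ℂ) =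
    ∑ k ∈ Finset.Ioo (-((2 ^ (s + 2) : ℕ) : ℤ)) ((2 ^ (s + 2) : ℕ) : ℤ), (ca s k : ℂ) * ek k x := by
  simp only [vker]
  rw [Complex.ofReal_sub, fej_expand (2 ^ (s + 1)) (2 ^ (s + 2))
    (Nat.pow_le_pow_right (by norm_num) (by omega)), fej_expand (2 ^ s) (2 ^ (s + 2))
    (Nat.pow_le_pow_right (by norm_num) (by omega)), ← Finset.sum_sub_distrib]
  refine Finset.sum_congr rfl fun k _ => ?_
  unfold ca
  push_cast; ring

private lemma wker_expand (s : ℕ) (x : Circ) : (wker (s + 1) x : ℂ) =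
    ∑ k ∈ Finset.Ioo (-((2 ^ (s + 2) : ℕ) : ℤ)) ((2 ^ (s + 2) : ℕ) : ℤ), (cc s k : ℂ) * ek k x := by
  simp only [wker]
  have h0 : (0 : ℤ) ∈ Finset.Ioo (-((2 ^ (s + 2) : ℕ) : ℤ)) ((2 ^ (s + 2) : ℕ) : ℤ) := by
    rw [Finset.mem_Ioo]
    have : 0 < 2 ^ (s + 2) := by positivity
    omega
  have h1 : (1 : ℂ) = ∑ k ∈ Finset.Ioo (-((2 ^ (s + 2) : ℕ) : ℤ)) ((2 ^ (s + 2) : ℕ) : ℤ),
      (if k = 0 then 1 else 0) * ek k x := by
    rw [Finset.sum_eq_single 0]
    · rw [if_pos rfl, ek_zero, one_mul]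
    · intro k _ hk; rw [if_neg hk, zero_mul]
    · intro h; exact absurd h0 h
  rw [Complex.ofReal_sub, Complex.ofReal_sub, Complex.ofReal_mul,
    fej_expand (2 ^ (s + 2)) (2 ^ (s + 2)) le_rfl, fej_expand (2 ^ (s + 1)) (2 ^ (s + 2))
    (Nat.pow_le_pow_right (by norm_num) (by omega)), Complex.ofReal_one, h1, Finset.mul_sum,
    ← Finset.sum_sub_distrib, ← Finset.sum_sub_distrib]
  refine Finset.sum_congr rfl fun k _ => ?_
  unfold cc
  push_cast
  split_ifs <;> simp <;> ring

private lemma cc_zero (s : ℕ) : cc s 0 = 0 := by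
  unfold cc
  rw [cf_zero Nat.one_le_two_pow, cf_zero Nat.one_le_two_pow]; norm_num

private lemma ca_zero (s : ℕ) : ca s 0 = 0 := by
  unfold ca
  rw [cf_zero Nat.one_le_two_pow, cf_zero Nat.one_le_two_pow]; norm_num

private lemma cc_one (s : ℕ) {k : ℤ} (hk : k ≠ 0) (h : k.natAbs < 2 ^ (s + 1)) : cc s k = 1 := by
  unfold cc
  have h2 : k.natAbs < 2 ^ (s + 2) :=
    h.trans_le (Nat.pow_le_pow_right (by norm_num) (by omega))
  rw [cf_of_lt h, cf_of_lt h2, if_neg hk]
  push_cast
  rw [pow_succ (2 : ℝ) (s + 1)]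
  field_simp
  ring

private lemma ca_eq_zero (s : ℕ) {k : ℤ} (h : 2 ^ (s + 1) ≤ k.natAbs) : ca s k = 0 := by
  unfold ca
  rw [cf_of_ge h, cf_of_ge ((Nat.pow_le_pow_right (by norm_num) (by omega)).trans h), sub_self]

private lemma cc_mem (s : ℕ) {k : ℤ} (h : k.natAbs < 2 ^ (s + 2)) : 0 ≤ cc s k ∧ cc s k ≤ 1 := by
  by_cases hk : k = 0
  · subst hk; rw [cc_zero]; norm_num
  · by_cases h1 : k.natAbs < 2 ^ (s + 1)
    · rw [cc_one s hk h1]; norm_num
    · push Not at h1
      unfold cc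
      rw [cf_of_ge h1, cf_of_lt h, if_neg hk]
      have h2 : ((2 ^ (s + 1) : ℕ) : ℝ) ≤ k.natAbs := by exact_mod_cast h1
      have h3 : ((k.natAbs : ℕ) : ℝ) < ((2 ^ (s + 2) : ℕ) : ℝ) := by exact_mod_cast h
      have h4 : ((2 ^ (s + 2) : ℕ) : ℝ) = 2 * ((2 ^ (s + 1) : ℕ) : ℝ) := by push_cast; ring
      have h5 : (0 : ℝ) < ((2 ^ (s + 2) : ℕ) : ℝ) := by positivity
      have h6 : ((k.natAbs : ℕ) : ℝ) / ((2 ^ (s + 2) : ℕ) : ℝ) ≤ 1 := by
        rw [div_le_one h5]; exact h3.le
      have h7 : (1 : ℝ) / 2 ≤ ((k.natAbs : ℕ) : ℝ) / ((2 ^ (s + 2) : ℕ) : ℝ) := by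
        rw [le_div_iff₀ h5, h4]; linarith
      constructor <;> linarith

theorem wker_expansion (s : ℕ) : ∃ c : ℤ → ℝ, (∀ k, 0 ≤ c k ∧ c k ≤ 1) ∧
    ∀ x, (wker s x : ℂ) = ∑ k ∈ fbox s, (c k : ℂ) * fourier k x := by
  cases s with
  | zero =>
    refine ⟨fun _ => 1, fun _ => ⟨zero_le_one, le_rfl⟩, fun x => ?_⟩
    have h : (fourier (0 : ℤ) x : ℂ) = 1 := ek_zero x
    simp only [wker, fbox, if_true, Finset.sum_singleton, h]
    simp
  | succ s =>
    refine ⟨fun k => if k.natAbs < 2 ^ (s + 2) then cc s k else 0, fun k => ?_, fun x => ?_⟩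
    · dsimp only
      split_ifs with h
      · exact cc_mem s h
      · exact ⟨le_rfl, zero_le_one⟩
    · rw [wker_expand]
      have hb : fbox (s + 1) =
          (Finset.Ioo (-((2 ^ (s + 2) : ℕ) : ℤ)) ((2 ^ (s + 2) : ℕ) : ℤ)).erase 0 := by
        simp only [fbox, Nat.add_eq_zero_iff, one_ne_zero, and_false, if_false]
        push_cast
        rfl
      have h0 : (0 : ℤ) ∈ Finset.Ioo (-((2 ^ (s + 2) : ℕ) : ℤ)) ((2 ^ (s + 2) : ℕ) : ℤ) := by
        rw [Finset.mem_Ioo]
        have : 0 < 2 ^ (s + 2) := by positivity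
        omega
      rw [hb, ← Finset.add_sum_erase _ _ h0, cc_zero]
      simp only [Complex.ofReal_zero, zero_mul, zero_add]
      refine Finset.sum_congr rfl fun k hk => ?_
      have hk' : k.natAbs < 2 ^ (s + 2) := by
        have := Finset.mem_Ioo.1 (Finset.mem_of_mem_erase hk)
        omega
      rw [if_pos hk']
      rfl

theorem vker_conv_wker (s : ℕ) (x : Circ) :
    ∫ t, vker s t * wker s (x - t) ∂AddCircle.haarAddCircle = vker s x := by
  cases s with
  | zero => simp [vker, wker]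
  | succ s =>
    have h : ((∫ t, vker (s + 1) t * wker (s + 1) (x - t) ∂AddCircle.haarAddCircle : ℝ) : ℂ) =
        (vker (s + 1) x : ℂ) := by
      rw [← integral_complex_ofReal]
      set S := Finset.Ioo (-((2 ^ (s + 2) : ℕ) : ℤ)) ((2 ^ (s + 2) : ℕ) : ℤ) with hS
      have h1 : ∀ t : Circ, ((vker (s + 1) t * wker (s + 1) (x - t) : ℝ) : ℂ) =
          ∑ k ∈ S, ∑ l ∈ S, ((ca s k : ℂ) * (cc s l : ℂ) * ek l x) * ek (k - l) t := by
        intro t
        rw [Complex.ofReal_mul, vker_expand, wker_expand, Finset.sum_mul_sum]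
        refine Finset.sum_congr rfl fun k _ => Finset.sum_congr rfl fun l _ => ?_
        rw [ek_sub, sub_eq_add_neg, ek_add]
        ring
      refine (integral_congr_ae (Filter.Eventually.of_forall h1)).trans ?_
      rw [integral_finsetSum _ fun k _ => integrable_finsetSum _ fun l _ =>
        integrable_ek_mul _ _, vker_expand]
      refine Finset.sum_congr rfl fun k hk => ?_
      rw [integral_finsetSum _ fun l _ => integrable_ek_mul _ _]
      simp_rw [integral_const_mul, integral_ek]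
      rw [Finset.sum_eq_single k]
      · rw [sub_self, if_pos rfl, mul_one]
        by_cases hk0 : k = 0
        · subst hk0; rw [ca_zero]; simp
        · by_cases h2 : k.natAbs < 2 ^ (s + 1)
          · rw [cc_one s hk0 h2]; simp
          · rw [ca_eq_zero s (by omega)]; simp
      · intro l _ hl
        rw [if_neg (by omega), mul_zero]
      · intro h3; exact absurd hk h3
    exact_mod_cast h

end Pool.Agent.Lib.P51a855
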