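import Pool.Agent.Lib.P51a855.Single

/-!
Existence of good generators `a`: assembly.
-/

set_option autoImplicit false
set_option linter.unusedVariables false

open Finset

noncomputable section

namespace Pool.Agent.Lib.P51a855

open CountAux

variable {d : ℕ}

/-- the terms of the error sum -/
def term (m : ℕ) (θ r : ℝ) (a : Fin d → ℤ) (s : Fin d → ℕ) : ℝ :=
  (2 : ℝ) ^ (-(r * ∑ j, (s j : ℝ))) * phi θ (Dcount m s a)

lemma term_nonneg (m : ℕ) (θ r : ℝ) (a : Fin d → ℤ) (s : Fin d → ℕ) : 0 ≤ term m θ r a s :=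
  mul_nonneg (by positivity) (phi_nonneg _ _)

lemma idx_mono {n N : ℕ} (h : n ≤ N) : idx d n ⊆ idx d N := by
  intro s hs
  unfold idx at hs ⊢
  rw [Finset.mem_erase, Fintype.mem_piFinset] at hs ⊢
  refine ⟨hs.1, fun j => ?_⟩
  have := Finset.mem_range.1 (hs.2 j)
  rw [Finset.mem_range]
  omega

/-- the part with support at least two -/
def T2 (m : ℕ) (θ r : ℝ) (n : ℕ) (a : Fin d → ℤ) : ℝ :=
  ∑ s ∈ (idx d n).filter (fun s => 2 ≤ supp s), term m θ r a s

lemma T2_mono (m : ℕ) (θ r : ℝ) {n N : ℕ} (h : n ≤ N) (a : Fin d → ℤ) :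
    T2 m θ r n a ≤ T2 m θ r N a := by
  unfold T2
  refine Finset.sum_le_sum_of_subset_of_nonneg ?_ fun s _ _ => term_nonneg _ _ _ _ _
  exact Finset.filter_subset_filter _ (idx_mono h)

lemma T2_nonneg (m : ℕ) (θ r : ℝ) (n : ℕ) (a : Fin d → ℤ) : 0 ≤ T2 m θ r n a :=
  Finset.sum_nonneg fun s _ => term_nonneg _ _ _ _ _

lemma sum_T2 (m : ℕ) (θ r : ℝ) (n : ℕ) :
    ∑ a : Fin d → Fin m, T2 m θ r n (fun j => ((a j : ℕ) : ℤ)) ≤
      ∑ k ∈ Finset.range (d * n + 1), (2 : ℝ) ^ (-(r * k)) * lev d m θ k := by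
  unfold T2
  rw [Finset.sum_comm]
  have hmaps : ∀ s ∈ (idx d n).filter (fun s => 2 ≤ supp s),
      ∑ j, s j ∈ Finset.range (d * n + 1) := by
    intro s hs
    have h1 := (Finset.mem_filter.1 hs).1
    unfold idx at h1
    rw [Finset.mem_erase, Fintype.mem_piFinset] at h1
    rw [Finset.mem_range]
    have h2 : ∑ j, s j ≤ ∑ j : Fin d, n :=
      Finset.sum_le_sum fun j _ => Nat.lt_succ_iff.1 (Finset.mem_range.1 (h1.2 j))
    simp only [Finset.sum_const, Finset.card_univ, Fintype.card_fin, smul_eq_mul] at h2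
    omega
  rw [← Finset.sum_fiberwise_of_maps_to hmaps]
  refine Finset.sum_le_sum fun k _ => ?_
  unfold lev
  rw [Finset.mul_sum]
  have hsub : ((idx d n).filter (fun s => 2 ≤ supp s)).filter (fun s => ∑ j, s j = k) ⊆
      lset d k := by
    intro s hs
    rw [Finset.mem_filter, Finset.mem_filter] at hs
    unfold lset
    rw [Finset.mem_filter, Fintype.mem_piFinset]
    refine ⟨fun j => ?_, hs.2, hs.1.2⟩
    have h2 : s j ≤ ∑ j, s j :=
      Finset.single_le_sum (fun _ _ => Nat.zero_le _) (Finset.mem_univ j)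
    rw [Finset.mem_range]
    have := hs.2
    omega
  refine le_trans (Finset.sum_le_sum_of_subset_of_nonneg hsub fun s _ _ =>
    Finset.sum_nonneg fun a _ => term_nonneg _ _ _ _ _) ?_
  refine Finset.sum_le_sum fun s hs => le_of_eq ?_
  have h3 : ∑ j, s j = k := (Finset.mem_filter.1 hs).2.1
  have h4 : ∑ j, (s j : ℝ) = k := by exact_mod_cast h3
  unfold term
  rw [h4, Finset.mul_sum]

/-- the part with one-dimensional support -/
lemma sum_T1 {θ r : ℝ} (hθ0 : 0 ≤ θ) (hθr : θ < r) (hr1 : r < 1) {m : ℕ} (hm : 1 ≤ m)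
    (a : Fin d → Fin m) (n : ℕ) :
    ∑ s ∈ (idx d n).filter (fun s => ¬ 2 ≤ supp s), term m θ r (fun j => ((a j : ℕ) : ℤ)) s ≤
      ∑ j : Fin d, 8 / (1 - (2 : ℝ) ^ (-(r - θ))) * ((Nat.gcd (a j) m : ℕ) / m : ℝ) ^ r := by
  have hsub : (idx d n).filter (fun s => ¬ 2 ≤ supp s) ⊆
      ((Finset.univ : Finset (Fin d)) ×ˢ Finset.Icc 1 n).image
        (fun p => (Pi.single p.1 p.2 : Fin d → ℕ)) := by
    intro s hs
    rw [Finset.mem_filter] at hs
    obtain ⟨hs1, hs2⟩ := hs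
    unfold idx at hs1
    rw [Finset.mem_erase, Fintype.mem_piFinset] at hs1
    obtain ⟨hs0, hs3⟩ := hs1
    obtain ⟨j, hj⟩ : ∃ j, s j ≠ 0 := by
      by_contra hcon
      push Not at hcon
      exact hs0 (funext hcon)
    have hother : ∀ i, i ≠ j → s i = 0 := by
      intro i hij
      by_contra hi
      apply hs2
      unfold supp
      have h1 : ({i, j} : Finset (Fin d)) ⊆ Finset.univ.filter fun j => s j ≠ 0 := by
        intro x hx
        rw [Finset.mem_insert, Finset.mem_singleton] at hx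
        rw [Finset.mem_filter]
        rcases hx with rfl | rfl
        · exact ⟨Finset.mem_univ _, hi⟩
        · exact ⟨Finset.mem_univ _, hj⟩
      have h2 := Finset.card_le_card h1
      rwa [Finset.card_pair hij] at h2
    rw [Finset.mem_image]
    refine ⟨(j, s j), ?_, ?_⟩
    · rw [Finset.mem_product, Finset.mem_Icc]
      have := Finset.mem_range.1 (hs3 j)
      exact ⟨Finset.mem_univ _, Nat.one_le_iff_ne_zero.2 hj, by omega⟩
    · funext i
      by_cases hij : i = j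
      · subst hij; simp
      · simp only
        rw [Pi.single_eq_of_ne hij, hother i hij]
  refine le_trans (Finset.sum_le_sum_of_subset_of_nonneg hsub fun s _ _ =>
    term_nonneg _ _ _ _ _) ?_
  rw [Finset.sum_image, Finset.sum_product]
  · refine Finset.sum_le_sum fun j _ => ?_
    refine le_trans (le_of_eq ?_) (single_sum hθ0 hθr hr1 hm a j n)
    refine Finset.sum_congr rfl fun k _ => ?_
    unfold term
    have h1 : ∑ i, ((Pi.single j k : Fin d → ℕ) i : ℝ) = k := by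
      rw [Finset.sum_eq_single j]
      · simp
      · intro i _ hij
        rw [Pi.single_eq_of_ne hij]
        simp
      · intro h
        exact absurd (Finset.mem_univ j) h
    simp only [h1]
  · rintro ⟨j, k⟩ hjk ⟨j', k'⟩ hjk' h
    rw [Finset.mem_coe, Finset.mem_product, Finset.mem_Icc] at hjk hjk'
    simp only at h hjk hjk'
    have h1 : j = j' := by
      by_contra hne
      have h2 := congrFun h j
      rw [Pi.single_eq_same, Pi.single_eq_of_ne hne] at h2
      omega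
    subst h1
    have h2 := congrFun h j
    rw [Pi.single_eq_same, Pi.single_eq_same] at h2
    rw [h2]

/-- the trivial bound -/
lemma term_trivial {θ r : ℝ} (hθ0 : 0 ≤ θ) (hθr : θ < r) (hr1 : r < 1) (m : ℕ)
    (a : Fin d → ℤ) (n : ℕ) :
    ∑ s ∈ idx d n, term m θ r a s ≤ 4 ^ d * (1 / (1 - (2 : ℝ) ^ (-(r - θ)))) ^ d := by
  set q : ℝ := (2 : ℝ) ^ (-(r - θ)) with hq
  have hq0 : 0 ≤ q := by positivity
  have hq1 : q < 1 := Real.rpow_lt_one_of_one_lt_of_neg (by norm_num) (by linarith)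
  have h1 : ∀ s : Fin d → ℕ, term m θ r a s ≤ 4 ^ d * ∏ j, q ^ (s j) := by
    intro s
    have h2 : ((Dcount m s a : ℕ) : ℝ) ≤ 4 ^ d * 2 ^ (∑ j, s j) := by
      have h3 := card_box_dvd s 1 le_rfl
      simp only [Nat.cast_one, isUnit_one, IsUnit.dvd, implies_true, Finset.filter_true,
        one_pow, div_one] at h3
      refine le_trans ?_ h3
      unfold Dcount
      exact_mod_cast Finset.card_le_card (Finset.filter_subset _ _)
    have h4 := phi_le_rpow hθ0 h2
    have h5 : ((4 : ℝ) ^ d * 2 ^ (∑ j, s j)) ^ θ ≤ 4 ^ d * ((2 : ℝ) ^ (∑ j, s j)) ^ θ := by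
      rw [Real.mul_rpow (by positivity) (by positivity)]
      refine mul_le_mul_of_nonneg_right ?_ (by positivity)
      calc ((4 : ℝ) ^ d) ^ θ ≤ ((4 : ℝ) ^ d) ^ (1 : ℝ) :=
            Real.rpow_le_rpow_of_exponent_le (one_le_pow₀ (by norm_num)) (by linarith)
        _ = 4 ^ d := Real.rpow_one _
    have h6 : (2 : ℝ) ^ (-(r * ∑ j, (s j : ℝ))) * ((2 : ℝ) ^ (∑ j, s j)) ^ θ =
        ∏ j, q ^ (s j) := by
      rw [Finset.prod_pow_eq_pow_sum, hq, ← Real.rpow_natCast (2 : ℝ) (∑ j, s j),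
        ← Real.rpow_natCast ((2 : ℝ) ^ (-(r - θ))) (∑ j, s j), ← Real.rpow_mul (by norm_num),
        ← Real.rpow_mul (by norm_num), ← Real.rpow_add (by norm_num)]
      congr 1
      push_cast
      ring
    unfold term
    calc (2 : ℝ) ^ (-(r * ∑ j, (s j : ℝ))) * phi θ (Dcount m s a) ≤
        (2 : ℝ) ^ (-(r * ∑ j, (s j : ℝ))) * (4 ^ d * ((2 : ℝ) ^ (∑ j, s j)) ^ θ) :=
          mul_le_mul_of_nonneg_left (h4.trans h5) (by positivity)
      _ = 4 ^ d * ((2 : ℝ) ^ (-(r * ∑ j, (s j : ℝ))) * ((2 : ℝ) ^ (∑ j, s j)) ^ θ) := by ring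
      _ = _ := by rw [h6]
  refine (Finset.sum_le_sum fun s _ => h1 s).trans ?_
  rw [← Finset.mul_sum]
  refine mul_le_mul_of_nonneg_left ?_ (by positivity)
  calc ∑ s ∈ idx d n, ∏ j, q ^ (s j) ≤
      ∑ s ∈ Fintype.piFinset (fun _ : Fin d => Finset.range (n + 1)), ∏ j, q ^ (s j) := by
        refine Finset.sum_le_sum_of_subset_of_nonneg (Finset.erase_subset _ _) fun s _ _ => ?_
        positivity
    _ = ∏ _j : Fin d, ∑ k ∈ Finset.range (n + 1), q ^ k := by
        rw [Finset.prod_univ_sum]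
    _ ≤ ∏ _j : Fin d, (1 / (1 - q)) :=
        Finset.prod_le_prod (fun _ _ => Finset.sum_nonneg fun _ _ => by positivity)
          fun _ _ => geom_le' hq0 hq1 _
    _ = (1 / (1 - q)) ^ d := by simp

theorem exists_good (d : ℕ) (hd : 3 ≤ d) (θ r : ℝ) (hθ : 0 ≤ θ) (hθr : θ < r) (hr : r < 1) :
    ∃ C : ℝ, 0 ≤ C ∧ ∀ m : ℕ, 2 ≤ m → ∃ a : Fin d → ℤ, ∀ n,
      ∑ s ∈ idx d n, (2 : ℝ) ^ (-(r * ∑ j, (s j : ℝ))) * phi θ (Dcount m s a) ≤
        C * (m : ℝ) ^ (-r) * Real.log m ^ (d - 1) := by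
  have hr0 : 0 < r := by linarith
  obtain ⟨C, hC0, hC⟩ := sum_lev d hd hθ hθr hr
  obtain ⟨m0, hm0⟩ := gcd_small
  set q : ℝ := (2 : ℝ) ^ (-(r - θ)) with hq
  have hq1 : q < 1 := Real.rpow_lt_one_of_one_lt_of_neg (by norm_num) (by linarith)
  have hq2 : 0 ≤ 8 / (1 - q) := div_nonneg (by norm_num) (by linarith)
  have hq3 : 0 ≤ 1 / (1 - q) := div_nonneg (by norm_num) (by linarith)
  set M1 : ℕ := max m0 3 with hM1
  have hM1pos : (0 : ℝ) < M1 := by
    have : 3 ≤ M1 := le_max_right _ _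
    exact_mod_cast (by omega : 0 < M1)
  have hlog2 : 0 < Real.log 2 := Real.log_pos (by norm_num)
  set c1 : ℝ := (M1 : ℝ) ^ (-r) * Real.log 2 ^ (d - 1) with hc1
  have hc10 : 0 < c1 := by positivity
  set Cs : ℝ := 4 ^ d * (1 / (1 - q)) ^ d with hCs
  have hCs0 : 0 ≤ Cs := by positivity
  refine ⟨4 ^ d * C + d * (8 / (1 - q)) + Cs / c1, by positivity, ?_⟩
  intro m hm
  have hm1 : 1 ≤ m := by omega
  have hmp : (0 : ℝ) < m := by exact_mod_cast hm1
  set Y : ℝ := Real.log m with hY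
  have hY0 : 0 ≤ Y := Real.log_nonneg (by exact_mod_cast hm1)
  have hX0 : 0 ≤ (m : ℝ) ^ (-r) * Y ^ (d - 1) := by positivity
  rcases lt_or_ge m M1 with hlt | hge
  · -- small `m`
    refine ⟨0, fun n => ?_⟩
    have h1 := term_trivial hθ hθr hr m (0 : Fin d → ℤ) n
    have h2 : c1 ≤ (m : ℝ) ^ (-r) * Y ^ (d - 1) := by
      have h3 : (M1 : ℝ) ^ (-r) ≤ (m : ℝ) ^ (-r) :=
        Real.rpow_le_rpow_of_nonpos hmp (by exact_mod_cast hlt.le) (by linarith)
      have h4 : Real.log 2 ≤ Y := Real.log_le_log (by norm_num) (by exact_mod_cast hm)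
      exact mul_le_mul h3 (pow_le_pow_left₀ hlog2.le h4 _) (by positivity) (by positivity)
    refine h1.trans ?_
    calc Cs = Cs / c1 * c1 := by field_simp
      _ ≤ Cs / c1 * ((m : ℝ) ^ (-r) * Y ^ (d - 1)) :=
          mul_le_mul_of_nonneg_left h2 (by positivity)
      _ ≤ (4 ^ d * C + d * (8 / (1 - q)) + Cs / c1) * ((m : ℝ) ^ (-r) * Y ^ (d - 1)) := by
          refine mul_le_mul_of_nonneg_right ?_ hX0
          have : 0 ≤ 4 ^ d * C + d * (8 / (1 - q)) := by positivity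
          linarith
      _ = _ := by ring
  · -- large `m`
    have hmm0 : m0 ≤ m := le_trans (le_max_left _ _) hge
    have hm3 : 3 ≤ m := le_trans (le_max_right _ _) hge
    have hY1 : 1 ≤ Y := by
      rw [hY, Real.le_log_iff_exp_le hmp]
      have h1 := Real.exp_one_lt_d9
      have h2 : (3 : ℝ) ≤ m := by exact_mod_cast hm3
      linarith
    set S : Finset (Fin m) := (Finset.univ : Finset (Fin m)).filter
      (fun a : Fin m => ((Nat.gcd (a : ℕ) m : ℕ) : ℝ) ≤ Real.log m ^ 2) with hS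
    have hScard : (m : ℝ) / 4 ≤ S.card := hm0 m hmm0
    set G : Finset (Fin d → Fin m) := Fintype.piFinset fun _ => S with hG
    have hGcard : ((m : ℝ) / 4) ^ d ≤ G.card := by
      rw [hG, Fintype.card_piFinset]
      simp only [Finset.prod_const, Finset.card_univ, Fintype.card_fin]
      push_cast
      exact pow_le_pow_left₀ (by positivity) hScard d
    have hGpos : (0 : ℝ) < G.card := lt_of_lt_of_le (by positivity) hGcard
    set K' : ℝ := 4 ^ d * C * ((m : ℝ) ^ (-r) * Y ^ (d - 1)) with hK'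
    -- a generator that works for all `n`
    obtain ⟨a, haG, ha⟩ : ∃ a ∈ G, ∀ n, T2 m θ r n (fun j => ((a j : ℕ) : ℤ)) ≤ K' := by
      by_contra hcon
      push Not at hcon
      choose! N hN using hcon
      set N0 : ℕ := G.sup N with hN0
      have h1 : ∀ a ∈ G, K' < T2 m θ r N0 (fun j => ((a j : ℕ) : ℤ)) := by
        intro a ha
        exact (hN a ha).trans_le (T2_mono m θ r (Finset.le_sup ha) _)
      have hGne : G.Nonempty := by
        rw [← Finset.card_pos]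
        exact_mod_cast hGpos
      have h2 : (G.card : ℝ) * K' < ∑ a ∈ G, T2 m θ r N0 (fun j => ((a j : ℕ) : ℤ)) := by
        rw [← nsmul_eq_mul, ← Finset.sum_const]
        exact Finset.sum_lt_sum_of_nonempty hGne h1
      have h3 : ∑ a ∈ G, T2 m θ r N0 (fun j => ((a j : ℕ) : ℤ)) ≤
          C * (m : ℝ) ^ (-r) * Y ^ (d - 1) * (m : ℝ) ^ d := by
        refine le_trans (Finset.sum_le_sum_of_subset_of_nonneg (Finset.subset_univ G)
          fun a _ _ => T2_nonneg _ _ _ _ _) ?_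
        exact (sum_T2 m θ r N0).trans (hC m hm (d * N0))
      have h4 : C * (m : ℝ) ^ (-r) * Y ^ (d - 1) * (m : ℝ) ^ d ≤ (G.card : ℝ) * K' := by
        have h5 : (m : ℝ) ^ d = ((m : ℝ) / 4) ^ d * 4 ^ d := by
          rw [← mul_pow]
          congr 1
          ring
        calc C * (m : ℝ) ^ (-r) * Y ^ (d - 1) * (m : ℝ) ^ d =
            ((m : ℝ) / 4) ^ d * K' := by rw [h5, hK']; ring
          _ ≤ (G.card : ℝ) * K' := mul_le_mul_of_nonneg_right hGcard (by positivity)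
      linarith
    refine ⟨fun j => ((a j : ℕ) : ℤ), fun n => ?_⟩
    have h1 : ∑ s ∈ idx d n, term m θ r (fun j => ((a j : ℕ) : ℤ)) s =
        T2 m θ r n (fun j => ((a j : ℕ) : ℤ)) +
        ∑ s ∈ (idx d n).filter (fun s => ¬ 2 ≤ supp s),
          term m θ r (fun j => ((a j : ℕ) : ℤ)) s := by
      unfold T2
      rw [Finset.sum_filter_add_sum_filter_not]
    have h2 := sum_T1 hθ hθr hr hm1 a n
    have h3 : ∑ j : Fin d, 8 / (1 - (2 : ℝ) ^ (-(r - θ))) * ((Nat.gcd (a j) m : ℕ) / m : ℝ) ^ r ≤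
        ∑ _j : Fin d, 8 / (1 - q) * ((m : ℝ) ^ (-r) * Y ^ (d - 1)) := by
      refine Finset.sum_le_sum fun j _ => mul_le_mul_of_nonneg_left ?_ hq2
      have h4 : ((Nat.gcd (a j) m : ℕ) : ℝ) ≤ Y ^ 2 := by
        have h5 := (Fintype.mem_piFinset.1 haG) j
        exact (Finset.mem_filter.1 h5).2
      calc ((Nat.gcd (a j) m : ℕ) / m : ℝ) ^ r ≤ (Y ^ 2 / m) ^ r := by
            refine Real.rpow_le_rpow (by positivity) ?_ hr0.le
            exact div_le_div_of_nonneg_right h4 hmp.le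
        _ = (m : ℝ) ^ (-r) * (Y ^ 2) ^ r := by
            rw [Real.div_rpow (by positivity) hmp.le, Real.rpow_neg hmp.le, div_eq_mul_inv,
              mul_comm]
        _ ≤ (m : ℝ) ^ (-r) * Y ^ (d - 1) := by
            refine mul_le_mul_of_nonneg_left ?_ (by positivity)
            calc (Y ^ 2) ^ r ≤ (Y ^ 2) ^ (1 : ℝ) :=
                  Real.rpow_le_rpow_of_exponent_le (one_le_pow₀ hY1) hr.le
              _ = Y ^ 2 := Real.rpow_one _
              _ ≤ Y ^ (d - 1) := pow_le_pow_right₀ hY1 (by omega)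
    have h5 : ∑ _j : Fin d, 8 / (1 - q) * ((m : ℝ) ^ (-r) * Y ^ (d - 1)) =
        d * (8 / (1 - q)) * ((m : ℝ) ^ (-r) * Y ^ (d - 1)) := by
      rw [Finset.sum_const, Finset.card_univ, Fintype.card_fin, nsmul_eq_mul]
      ring
    have h6 : 0 ≤ Cs / c1 * ((m : ℝ) ^ (-r) * Y ^ (d - 1)) := by positivity
    have h7 : ∑ s ∈ idx d n, term m θ r (fun j => ((a j : ℕ) : ℤ)) s ≤
        K' + d * (8 / (1 - q)) * ((m : ℝ) ^ (-r) * Y ^ (d - 1)) := by
      rw [h1, ← h5]
      exact add_le_add (ha n) (h2.trans h3)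
    calc ∑ s ∈ idx d n, (2 : ℝ) ^ (-(r * ∑ j, (s j : ℝ))) *
          phi θ (Dcount m s (fun j => ((a j : ℕ) : ℤ))) ≤
        K' + d * (8 / (1 - q)) * ((m : ℝ) ^ (-r) * Y ^ (d - 1)) := h7
      _ ≤ K' + d * (8 / (1 - q)) * ((m : ℝ) ^ (-r) * Y ^ (d - 1)) +
          Cs / c1 * ((m : ℝ) ^ (-r) * Y ^ (d - 1)) := by linarith
      _ = _ := by rw [hK']; ring

end Pool.Agent.Lib.P51a855
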