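import Pool.Agent.Lib.P51a855.Diff

/-!
Hat functions on the circle and sums over dyadic scales.
-/

set_option autoImplicit false
set_option linter.unusedVariables false

open MeasureTheory Finset
open scoped ENNReal NNReal

noncomputable section

namespace Pool.Agent.Lib.P51a855

/-- centre of the `i`-th dyadic arc of level `s` -/
def ctr (s i : ℕ) : Circ := ((2 * Real.pi * (i + 1 / 2) / 2 ^ s : ℝ) : Circ)

/-- hat function on the `i`-th dyadic arc of level `s` -/
def hat (s i : ℕ) (x : Circ) : ℝ := max 0 (1 - 2 ^ s / Real.pi * ‖x - ctr s i‖)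

lemma continuous_hat (s i : ℕ) : Continuous (hat s i) := by
  unfold hat
  fun_prop

lemma hat_nonneg (s i : ℕ) (x : Circ) : 0 ≤ hat s i x := le_max_left _ _

lemma hat_le_one (s i : ℕ) (x : Circ) : hat s i x ≤ 1 := by
  unfold hat
  refine max_le zero_le_one ?_
  have : 0 ≤ 2 ^ s / Real.pi * ‖x - ctr s i‖ := by positivity
  linarith

lemma hat_diff (s i : ℕ) (x y : Circ) :
    |hat s i y - hat s i x| ≤ 2 ^ s * ‖y - x‖ := by
  unfold hat
  have h1 : |max 0 (1 - 2 ^ s / Real.pi * ‖y - ctr s i‖) -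
      max 0 (1 - 2 ^ s / Real.pi * ‖x - ctr s i‖)| ≤
      |(1 - 2 ^ s / Real.pi * ‖y - ctr s i‖) - (1 - 2 ^ s / Real.pi * ‖x - ctr s i‖)| := by
    rw [max_comm 0, max_comm 0]
    exact abs_max_sub_max_le_abs _ _ _
  refine h1.trans ?_
  have h2 : (1 - 2 ^ s / Real.pi * ‖y - ctr s i‖) - (1 - 2 ^ s / Real.pi * ‖x - ctr s i‖) =
      2 ^ s / Real.pi * (‖x - ctr s i‖ - ‖y - ctr s i‖) := by ring
  rw [h2, abs_mul, abs_of_nonneg (by positivity : (0 : ℝ) ≤ 2 ^ s / Real.pi)]
  have h3 : |‖x - ctr s i‖ - ‖y - ctr s i‖| ≤ ‖y - x‖ := by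
    refine (abs_norm_sub_norm_le _ _).trans (le_of_eq ?_)
    rw [norm_sub_rev y x]
    congr 1
    abel
  have h4 : (2 : ℝ) ^ s / Real.pi ≤ 2 ^ s := by
    rw [div_le_iff₀ Real.pi_pos]
    nlinarith [Real.pi_gt_three, pow_pos (by norm_num : (0 : ℝ) < 2) s]
  exact mul_le_mul h4 h3 (abs_nonneg _) (by positivity)

lemma norm_coe_le (t : ℝ) : ‖(t : Circ)‖ ≤ |t| := by
  rw [← Real.norm_eq_abs]
  exact QuotientAddGroup.norm_mk_le_norm

lemma hat_diff' (s i : ℕ) (x : Circ) (t : ℝ) :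
    |hat s i (x + t) - hat s i x| ≤ min 1 (2 ^ s * |t|) := by
  refine le_min ?_ ?_
  · have h1 := hat_nonneg s i x
    have h2 := hat_le_one s i x
    have h3 := hat_nonneg s i (x + t)
    have h4 := hat_le_one s i (x + t)
    rw [abs_le]
    constructor <;> linarith
  · refine (hat_diff s i x (x + t)).trans ?_
    rw [add_sub_cancel_left]
    exact mul_le_mul_of_nonneg_left (norm_coe_le t) (by positivity)

lemma hat_ne_zero {s i : ℕ} {x : Circ} (h : hat s i x ≠ 0) :
    ‖x - ctr s i‖ < Real.pi / 2 ^ s := by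
  by_contra hcon
  push Not at hcon
  apply h
  unfold hat
  rw [max_eq_left]
  have h1 : (2 : ℝ) ^ s / Real.pi * (Real.pi / 2 ^ s) = 1 := by
    field_simp
  have h2 : (2 : ℝ) ^ s / Real.pi * (Real.pi / 2 ^ s) ≤ 2 ^ s / Real.pi * ‖x - ctr s i‖ :=
    mul_le_mul_of_nonneg_left hcon (by positivity)
  linarith

lemma ctr_sep {s i k : ℕ} (hi : i < 2 ^ s) (hk : k < 2 ^ s) (hik : i ≠ k) :
    2 * Real.pi / 2 ^ s ≤ ‖ctr s i - ctr s k‖ := by
  unfold ctr
  rw [← AddCircle.coe_sub, AddCircle.norm_eq]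
  set R : ℤ := round ((2 * Real.pi)⁻¹ * (2 * Real.pi * (i + 1 / 2) / 2 ^ s -
    2 * Real.pi * (k + 1 / 2) / 2 ^ s)) with hR
  have h1 : 2 * Real.pi * ((i : ℝ) + 1 / 2) / 2 ^ s - 2 * Real.pi * (k + 1 / 2) / 2 ^ s -
      R * (2 * Real.pi) = 2 * Real.pi / 2 ^ s * (((i : ℤ) - k - R * 2 ^ s : ℤ) : ℝ) := by
    push_cast
    field_simp
    ring
  rw [h1, abs_mul, abs_of_nonneg (by positivity : (0 : ℝ) ≤ 2 * Real.pi / 2 ^ s)]
  have h2 : ((i : ℤ) - k - R * 2 ^ s : ℤ) ≠ 0 := by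
    intro h0
    have h3 : (i : ℤ) - k = R * 2 ^ s := by linarith
    have hi' : (i : ℤ) < 2 ^ s := by exact_mod_cast hi
    have hk' : (k : ℤ) < 2 ^ s := by exact_mod_cast hk
    have hi0 : (0 : ℤ) ≤ i := by positivity
    have hk0 : (0 : ℤ) ≤ k := by positivity
    have h4 : R = 0 := by
      by_contra hR0
      rcases lt_or_gt_of_ne hR0 with h | h
      · have : R * 2 ^ s ≤ -1 * 2 ^ s := by
          refine mul_le_mul_of_nonneg_right (by omega) (by positivity)
        linarith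
      · have : 1 * 2 ^ s ≤ R * 2 ^ s := by
          refine mul_le_mul_of_nonneg_right (by omega) (by positivity)
        linarith
    rw [h4] at h3
    apply hik
    omega
  have h5 : (1 : ℝ) ≤ |(((i : ℤ) - k - R * 2 ^ s : ℤ) : ℝ)| := by
    rw [← Int.cast_abs]
    exact_mod_cast Int.one_le_abs h2
  calc 2 * Real.pi / 2 ^ s = 2 * Real.pi / 2 ^ s * 1 := (mul_one _).symm
    _ ≤ _ := mul_le_mul_of_nonneg_left h5 (by positivity)

lemma hat_unique {s i k : ℕ} (hi : i < 2 ^ s) (hk : k < 2 ^ s) {x : Circ}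
    (h1 : hat s i x ≠ 0) (h2 : hat s k x ≠ 0) : i = k := by
  by_contra hik
  have h3 := ctr_sep hi hk hik
  have h4 := hat_ne_zero h1
  have h5 := hat_ne_zero h2
  have h6 : ‖ctr s i - ctr s k‖ ≤ ‖x - ctr s i‖ + ‖x - ctr s k‖ := by
    have : ctr s i - ctr s k = (x - ctr s k) - (x - ctr s i) := by abel
    rw [this, add_comm]
    exact norm_sub_le _ _
  have h7 : 2 * Real.pi / 2 ^ s = Real.pi / 2 ^ s + Real.pi / 2 ^ s := by ring
  linarith

lemma card_hat_le (s : ℕ) (x : Circ) :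
    ((Finset.range (2 ^ s)).filter fun i => hat s i x ≠ 0).card ≤ 1 := by
  rw [Finset.card_le_one]
  intro i hi k hk
  rw [Finset.mem_filter, Finset.mem_range] at hi hk
  exact hat_unique hi.1 hk.1 hi.2 hk.2

lemma sum_hat_le (s : ℕ) (x : Circ) : ∑ i ∈ Finset.range (2 ^ s), hat s i x ≤ 1 := by
  have h1 : ∑ i ∈ Finset.range (2 ^ s), hat s i x =
      ∑ i ∈ (Finset.range (2 ^ s)).filter (fun i => hat s i x ≠ 0), hat s i x := by
    rw [Finset.sum_filter_ne_zero]
  rw [h1]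
  calc ∑ i ∈ (Finset.range (2 ^ s)).filter (fun i => hat s i x ≠ 0), hat s i x ≤
      ∑ i ∈ (Finset.range (2 ^ s)).filter (fun i => hat s i x ≠ 0), 1 :=
        Finset.sum_le_sum fun i _ => hat_le_one s i x
    _ ≤ 1 := by
        rw [Finset.sum_const, nsmul_eq_mul, mul_one]
        exact_mod_cast card_hat_le s x

lemma sum_hat_diff_le (s : ℕ) (x : Circ) (t : ℝ) :
    ∑ i ∈ Finset.range (2 ^ s), |hat s i (x + t) - hat s i x| ≤ 2 * min 1 (2 ^ s * |t|) := by
  set M : ℝ := min 1 (2 ^ s * |t|) with hM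
  have hM0 : 0 ≤ M := le_min zero_le_one (by positivity)
  have h1 : ∀ i, |hat s i (x + t) - hat s i x| ≤
      M * ((if hat s i (x + t) ≠ 0 then 1 else 0) + (if hat s i x ≠ 0 then 1 else 0)) := by
    intro i
    have h2 := hat_diff' s i x t
    by_cases ha : hat s i (x + t) = 0
    · by_cases hb : hat s i x = 0
      · simp [ha, hb]
      · simp only [ne_eq, ha, not_true_eq_false, if_false, hb, not_false_eq_true, if_true, zero_add,
          mul_one]
        rw [ha] at h2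
        exact h2
    · have h3 : (1 : ℝ) ≤ (if hat s i (x + t) ≠ 0 then 1 else 0) +
          (if hat s i x ≠ 0 then 1 else 0) := by
        rw [if_pos ha]
        split_ifs <;> norm_num
      calc |hat s i (x + t) - hat s i x| ≤ M * 1 := by rw [mul_one]; exact h2
        _ ≤ _ := mul_le_mul_of_nonneg_left h3 hM0
  refine (Finset.sum_le_sum fun i _ => h1 i).trans ?_
  rw [← Finset.mul_sum, Finset.sum_add_distrib, ← Finset.sum_filter, ← Finset.sum_filter,
    Finset.sum_const, Finset.sum_const, nsmul_eq_mul, nsmul_eq_mul, mul_one, mul_one,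
    mul_comm 2 M]
  refine mul_le_mul_of_nonneg_left ?_ hM0
  have h4 : (((Finset.range (2 ^ s)).filter fun i => hat s i (x + t) ≠ 0).card : ℝ) ≤ 1 := by
    exact_mod_cast card_hat_le s (x + t)
  have h5 : (((Finset.range (2 ^ s)).filter fun i => hat s i x ≠ 0).card : ℝ) ≤ 1 := by
    exact_mod_cast card_hat_le s x
  linarith

/-- mass of a hat -/
lemma integral_hat (s i : ℕ) :
    (1 / 4 : ℝ) * (1 / 2) ^ s ≤ ∫ x, hat s i x ∂AddCircle.haarAddCircle := by
  set B : Set Circ := Metric.closedBall (ctr s i) (Real.pi / 2 ^ (s + 1)) with hB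
  have hvol : (AddCircle.haarAddCircle : Measure Circ).real B = (1 / 2) ^ (s + 1) := by
    have h1 := AddCircle.volume_closedBall (2 * Real.pi) (x := ctr s i) (Real.pi / 2 ^ (s + 1))
    have h2 : min (2 * Real.pi) (2 * (Real.pi / 2 ^ (s + 1))) = 2 * Real.pi * (1 / 2) ^ (s + 1) := by
      rw [min_eq_right]
      · rw [one_div, inv_pow]; ring
      · have h3 : Real.pi / 2 ^ (s + 1) ≤ Real.pi :=
          div_le_self Real.pi_pos.le (one_le_pow₀ (by norm_num))
        linarith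
    rw [h2, AddCircle.volume_eq_smul_haarAddCircle, Measure.smul_apply, smul_eq_mul,
      ENNReal.ofReal_mul Real.two_pi_pos.le] at h1
    have h4 : ENNReal.ofReal (2 * Real.pi) ≠ 0 := by
      rw [ne_eq, ENNReal.ofReal_eq_zero, not_le]
      exact Real.two_pi_pos
    have h5 := (ENNReal.mul_right_inj h4 ENNReal.ofReal_ne_top).1 h1
    rw [Measure.real, h5, ENNReal.toReal_ofReal (by positivity)]
  have hBm : MeasurableSet B := Metric.isClosed_closedBall.measurableSet
  have hint : Integrable (hat s i) AddCircle.haarAddCircle :=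
    (continuous_hat s i).integrable_of_hasCompactSupport (HasCompactSupport.of_compactSpace _)
  have hlow : ∀ x ∈ B, (1 / 2 : ℝ) ≤ hat s i x := by
    intro x hx
    have h1 : ‖x - ctr s i‖ ≤ Real.pi / 2 ^ (s + 1) := by
      rw [← dist_eq_norm]; exact hx
    unfold hat
    refine le_max_of_le_right ?_
    have h2 : (2 : ℝ) ^ s / Real.pi * ‖x - ctr s i‖ ≤
        2 ^ s / Real.pi * (Real.pi / 2 ^ (s + 1)) := mul_le_mul_of_nonneg_left h1 (by positivity)
    have h3 : (2 : ℝ) ^ s / Real.pi * (Real.pi / 2 ^ (s + 1)) = 1 / 2 := by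
      rw [pow_succ]
      field_simp
    linarith
  calc (1 / 4 : ℝ) * (1 / 2) ^ s = ∫ x in B, (1 / 2 : ℝ) ∂AddCircle.haarAddCircle := by
        rw [setIntegral_const, hvol, smul_eq_mul, pow_succ]
        ring
    _ ≤ ∫ x in B, hat s i x ∂AddCircle.haarAddCircle := by
        refine setIntegral_mono_on (integrable_const _).integrableOn hint.integrableOn hBm
          fun x hx => hlow x hx
    _ ≤ ∫ x, hat s i x ∂AddCircle.haarAddCircle :=
        setIntegral_le_integral hint (Filter.Eventually.of_forall fun x => hat_nonneg s i x)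

/-- finite geometric sums -/
lemma geom_le {q : ℝ} (h0 : 0 ≤ q) (h1 : q < 1) (n : ℕ) :
    ∑ i ∈ Finset.range n, q ^ i ≤ 1 / (1 - q) := by
  have h2 : 0 < 1 - q := by linarith
  rw [le_div_iff₀ h2]
  have h3 := geom_sum_mul_neg q n
  rw [h3]
  have : 0 ≤ q ^ n := pow_nonneg h0 n
  linarith

/-- the sum over the scales without differences -/
lemma scale_sum {r : ℝ} (hr0 : 0 < r) (n : ℕ) :
    ∑ s ∈ Finset.range (n + 1), (2 : ℝ) ^ (-(r * s)) ≤ 1 / (1 - (2 : ℝ) ^ (-r)) := by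
  have h1 : ∀ s : ℕ, (2 : ℝ) ^ (-(r * s)) = ((2 : ℝ) ^ (-r)) ^ s := by
    intro s
    rw [← Real.rpow_natCast, ← Real.rpow_mul (by norm_num)]
    congr 1
    ring
  simp_rw [h1]
  refine geom_le (by positivity) ?_ _
  exact Real.rpow_lt_one_of_one_lt_of_neg (by norm_num) (by linarith)

/-- the sum over the scales with a difference -/
lemma scale_sum_diff {r : ℝ} (hr0 : 0 < r) (hr1 : r < 1) (n : ℕ) (t : ℝ) :
    ∑ s ∈ Finset.range (n + 1), (2 : ℝ) ^ (-(r * s)) * min 1 (2 ^ s * |t|) ≤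
      (2 / (2 ^ (1 - r) - 1) + 1 / (1 - (2 : ℝ) ^ (-r))) * |t| ^ r := by
  rcases eq_or_ne t 0 with ht | ht
  · subst ht
    simp [Real.zero_rpow hr0.ne']
  have ht0 : 0 < |t| := abs_pos.2 ht
  have hq1 : (1 : ℝ) < 2 ^ (1 - r) := Real.one_lt_rpow (by norm_num) (by linarith)
  have hq2 : (2 : ℝ) ^ (-r) < 1 := Real.rpow_lt_one_of_one_lt_of_neg (by norm_num) (by linarith)
  -- the critical scale
  obtain ⟨K, hK1, hK2⟩ : ∃ K : ℕ, 1 < 2 ^ K * |t| ∧ ∀ s < K, 2 ^ s * |t| ≤ 1 := by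
    have hex : ∃ K : ℕ, 1 < 2 ^ K * |t| := by
      obtain ⟨K, hK⟩ := pow_unbounded_of_one_lt (1 / |t|) (by norm_num : (1 : ℝ) < 2)
      exact ⟨K, by rwa [div_lt_iff₀ ht0] at hK⟩
    classical
    refine ⟨Nat.find hex, Nat.find_spec hex, fun s hs => ?_⟩
    exact not_lt.1 (Nat.find_min hex hs)
  have hpow : ∀ s : ℕ, (2 : ℝ) ^ (-(r * s)) = ((2 : ℝ) ^ (-r)) ^ s := by
    intro s
    rw [← Real.rpow_natCast, ← Real.rpow_mul (by norm_num)]
    congr 1
    ring
  have hpow2 : ∀ s : ℕ, (2 : ℝ) ^ (-(r * s)) * 2 ^ s = ((2 : ℝ) ^ (1 - r)) ^ s := by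
    intro s
    rw [← Real.rpow_natCast (2 : ℝ) s, ← Real.rpow_add (by norm_num), ← Real.rpow_natCast
      ((2 : ℝ) ^ (1 - r)), ← Real.rpow_mul (by norm_num)]
    congr 1
    ring
  have h1 : ∑ s ∈ Finset.range (n + 1), (2 : ℝ) ^ (-(r * s)) * min 1 (2 ^ s * |t|) ≤
      ∑ s ∈ Finset.range K, ((2 : ℝ) ^ (1 - r)) ^ s * |t| +
        ∑ i ∈ Finset.range (n + 1), ((2 : ℝ) ^ (-r)) ^ (K + i) := by
    have h2 : ∑ s ∈ Finset.range (n + 1), (2 : ℝ) ^ (-(r * s)) * min 1 (2 ^ s * |t|) ≤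
        ∑ s ∈ Finset.range (K + (n + 1)), (2 : ℝ) ^ (-(r * s)) * min 1 (2 ^ s * |t|) := by
      refine Finset.sum_le_sum_of_subset_of_nonneg (Finset.range_mono (by omega)) ?_
      intro s _ _
      exact mul_nonneg (by positivity) (le_min zero_le_one (by positivity))
    refine h2.trans ?_
    rw [Finset.sum_range_add]
    refine add_le_add (Finset.sum_le_sum fun s _ => ?_) (Finset.sum_le_sum fun s _ => ?_)
    · calc (2 : ℝ) ^ (-(r * s)) * min 1 (2 ^ s * |t|) ≤ (2 : ℝ) ^ (-(r * s)) * (2 ^ s * |t|) :=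
            mul_le_mul_of_nonneg_left (min_le_right _ _) (by positivity)
        _ = _ := by rw [← mul_assoc, hpow2]
    · calc (2 : ℝ) ^ (-(r * ((K + s : ℕ) : ℝ))) * min 1 (2 ^ (K + s) * |t|) ≤
            (2 : ℝ) ^ (-(r * ((K + s : ℕ) : ℝ))) * 1 :=
            mul_le_mul_of_nonneg_left (min_le_left _ _) (by positivity)
        _ = _ := by rw [mul_one, hpow]
  refine h1.trans ?_
  rw [add_mul]
  refine add_le_add ?_ ?_
  · rw [← Finset.sum_mul, geom_sum_eq (ne_of_gt hq1)]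
    rcases Nat.eq_zero_or_pos K with hK0 | hKpos
    · subst hK0
      simp only [pow_zero, sub_self, zero_div, zero_mul]
      have : 0 < (2 : ℝ) ^ (1 - r) - 1 := by linarith
      positivity
    · have h3 := hK2 (K - 1) (by omega)
      have h4 : (2 : ℝ) ^ K = 2 * 2 ^ (K - 1) := by
        rw [← pow_succ']
        congr 1
        omega
      have h5 : (2 : ℝ) ^ K ≤ 2 / |t| := by
        rw [h4, le_div_iff₀ ht0]
        linarith
      have h6 : ((2 : ℝ) ^ (1 - r)) ^ K ≤ 2 * |t| ^ (r - 1) := by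
        calc ((2 : ℝ) ^ (1 - r)) ^ K = ((2 : ℝ) ^ K) ^ (1 - r) := by
              rw [← Real.rpow_natCast, ← Real.rpow_mul (by norm_num), mul_comm,
                Real.rpow_mul (by norm_num), Real.rpow_natCast]
          _ ≤ (2 / |t|) ^ (1 - r) := Real.rpow_le_rpow (by positivity) h5 (by linarith)
          _ = 2 ^ (1 - r) * |t| ^ (r - 1) := by
              rw [Real.div_rpow (by norm_num) ht0.le, div_eq_mul_inv, ← Real.rpow_neg ht0.le]
              congr 2
              ring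
          _ ≤ 2 * |t| ^ (r - 1) := by
              refine mul_le_mul_of_nonneg_right ?_ (by positivity)
              calc (2 : ℝ) ^ (1 - r) ≤ 2 ^ (1 : ℝ) :=
                    Real.rpow_le_rpow_of_exponent_le (by norm_num) (by linarith)
                _ = 2 := Real.rpow_one 2
      have h7 : 0 < (2 : ℝ) ^ (1 - r) - 1 := by linarith
      have h8 : |t| ^ (r - 1) * |t| = |t| ^ r := by
        rw [← Real.rpow_add_one ht0.ne', sub_add_cancel]
      calc (((2 : ℝ) ^ (1 - r)) ^ K - 1) / (2 ^ (1 - r) - 1) * |t| ≤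
            (2 * |t| ^ (r - 1)) / (2 ^ (1 - r) - 1) * |t| := by
              refine mul_le_mul_of_nonneg_right ?_ ht0.le
              exact div_le_div_of_nonneg_right (by linarith) h7.le
        _ = 2 / (2 ^ (1 - r) - 1) * |t| ^ r := by
              rw [← h8]; ring
  · have h3 : ∑ i ∈ Finset.range (n + 1), ((2 : ℝ) ^ (-r)) ^ (K + i) =
        ((2 : ℝ) ^ (-r)) ^ K * ∑ i ∈ Finset.range (n + 1), ((2 : ℝ) ^ (-r)) ^ i := by
      rw [Finset.mul_sum]
      exact Finset.sum_congr rfl fun i _ => pow_add _ _ _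
    have h4 : ((2 : ℝ) ^ (-r)) ^ K ≤ |t| ^ r := by
      have h5 : 1 / |t| < 2 ^ K := by rwa [div_lt_iff₀ ht0]
      calc ((2 : ℝ) ^ (-r)) ^ K = ((2 : ℝ) ^ K) ^ (-r) := by
            rw [← Real.rpow_natCast, ← Real.rpow_mul (by norm_num), mul_comm,
              Real.rpow_mul (by norm_num), Real.rpow_natCast]
        _ ≤ (1 / |t|) ^ (-r) :=
            Real.rpow_le_rpow_of_nonpos (by positivity) h5.le (by linarith)
        _ = |t| ^ r := by
            rw [one_div, Real.inv_rpow ht0.le, Real.rpow_neg ht0.le, inv_inv]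
    rw [h3, mul_comm]
    exact mul_le_mul (geom_le (by positivity) hq2 _) h4 (by positivity)
      (one_div_nonneg.2 (by linarith))

end Pool.Agent.Lib.P51a855
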