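import Pool.Agent.Lib.P51a855.Hat

/-!
The lower bound: fooling functions in the class `H^r_∞`.
-/

set_option autoImplicit false
set_option linter.unusedVariables false

open MeasureTheory Finset
open scoped ENNReal NNReal

noncomputable section

namespace Pool.Agent.Lib.P51a855

variable {d : ℕ}

/-- tensor products of continuous functions -/
def tens (g : Fin d → C(Circ, ℝ)) : C(Torus d, ℝ) :=
  ⟨fun x => ∏ j, g j (x j), continuous_finsetProd _ fun j _ =>
    (g j).continuous.comp (continuous_apply j)⟩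

lemma tens_apply (g : Fin d → C(Circ, ℝ)) (x : Torus d) : tens g x = ∏ j, g j (x j) := rfl

lemma act_tens (e : Finset (Fin d)) (t : Fin d → ℝ) (g : Fin d → C(Circ, ℝ)) :
    ∀ x : Torus d, act (∏ j ∈ e, (trj j (t j) - 1)) (tens g) x =
      ∏ j, (if j ∈ e then g j (x j + (t j : Circ)) - g j (x j) else g j (x j)) := by
  induction e using Finset.induction_on with
  | empty => intro x; simp [tens_apply]
  | insert j e hj ih =>
    intro x
    rw [Finset.prod_insert hj, act_mul_apply]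
    unfold trj
    rw [act_sub_one]
    have h1 := ih (x + Pi.single j (t j : Circ))
    have h2 := ih x
    unfold trj at h1 h2
    rw [h1, h2, ← Finset.mul_prod_erase Finset.univ _ (Finset.mem_univ j),
      ← Finset.mul_prod_erase Finset.univ (fun i => if i ∈ e then g i (x i + (t i : Circ)) -
        g i (x i) else g i (x i)) (Finset.mem_univ j),
      ← Finset.mul_prod_erase Finset.univ (fun i => if i ∈ insert j e then
        g i (x i + (t i : Circ)) - g i (x i) else g i (x i)) (Finset.mem_univ j)]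
    have h3 : ∏ i ∈ Finset.univ.erase j, (if i ∈ e then
        g i ((x + (Pi.single j (t j : Circ) : Torus d)) i + (t i : Circ)) -
          g i ((x + (Pi.single j (t j : Circ) : Torus d)) i)
        else g i ((x + (Pi.single j (t j : Circ) : Torus d)) i)) =
        ∏ i ∈ Finset.univ.erase j, (if i ∈ e then g i (x i + (t i : Circ)) - g i (x i)
          else g i (x i)) := by
      refine Finset.prod_congr rfl fun i hi => ?_
      rw [Pi.add_apply, Pi.single_eq_of_ne (Finset.ne_of_mem_erase hi), add_zero]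
    have h4 : ∏ i ∈ Finset.univ.erase j, (if i ∈ insert j e then g i (x i + (t i : Circ)) -
        g i (x i) else g i (x i)) = ∏ i ∈ Finset.univ.erase j, (if i ∈ e then
          g i (x i + (t i : Circ)) - g i (x i) else g i (x i)) := by
      refine Finset.prod_congr rfl fun i hi => ?_
      have h5 : i ∈ insert j e ↔ i ∈ e := by
        rw [Finset.mem_insert]
        exact ⟨fun h => h.resolve_left (Finset.ne_of_mem_erase hi), Or.inr⟩
      simp only [h5]
    rw [h3, h4]
    simp only [hj, if_false, Finset.mem_insert_self, if_true, Pi.add_apply, Pi.single_eq_same]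
    ring

/-- differences of higher order are bounded by first order differences in the sup norm -/
lemma norm_act_sub_one_le (h : Torus d) (f : C(Torus d, ℝ)) : ‖act (tr h - 1) f‖ ≤ 2 * ‖f‖ := by
  refine (ContinuousMap.norm_le _ (by positivity)).2 fun x => ?_
  rw [act_sub_one]
  have h1 := f.norm_coe_le_norm (x + h)
  have h2 := f.norm_coe_le_norm x
  calc ‖f (x + h) - f x‖ ≤ ‖f (x + h)‖ + ‖f x‖ := norm_sub_le _ _
    _ ≤ 2 * ‖f‖ := by linarith

lemma norm_act_pow_le (h : Torus d) (n : ℕ) (f : C(Torus d, ℝ)) :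
    ‖act ((tr h - 1) ^ n) f‖ ≤ 2 ^ n * ‖f‖ := by
  induction n with
  | zero => simp
  | succ n ih =>
    rw [pow_succ', act_mul_apply]
    refine (norm_act_sub_one_le h _).trans ?_
    rw [pow_succ']
    linarith

lemma norm_act_prod_pow_le (e : Finset (Fin d)) (t : Fin d → ℝ) (n : ℕ) (f : C(Torus d, ℝ)) :
    ‖act (∏ j ∈ e, (trj j (t j) - 1) ^ n) f‖ ≤ (2 ^ n) ^ e.card * ‖f‖ := by
  induction e using Finset.induction_on with
  | empty => simp
  | insert j e hj ih =>
    rw [Finset.prod_insert hj, act_mul_apply, Finset.card_insert_of_notMem hj, pow_succ']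
    refine (norm_act_pow_le _ n _).trans ?_
    rw [mul_assoc]
    exact mul_le_mul_of_nonneg_left ih (by positivity)

/-- hat functions as continuous maps -/
def hatC (s i : ℕ) : C(Circ, ℝ) := ⟨hat s i, continuous_hat s i⟩

/-- product hat functions -/
def hatT (s i : Fin d → ℕ) : C(Torus d, ℝ) := tens fun j => hatC (s j) (i j)

lemma hatT_apply (s i : Fin d → ℕ) (x : Torus d) : hatT s i x = ∏ j, hat (s j) (i j) (x j) := rfl

/-- the dyadic boxes of shape `s` -/
def boxes (s : Fin d → ℕ) : Finset (Fin d → ℕ) := Fintype.piFinset fun j => Finset.range (2 ^ s j)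

lemma card_boxes (s : Fin d → ℕ) : (boxes s).card = 2 ^ (∑ j, s j) := by
  unfold boxes
  rw [Fintype.card_piFinset, Finset.prod_pow_eq_pow_sum Finset.univ s 2 |>.symm]
  simp

/-- the boxes of shape `s` without nodes -/
def good {m : ℕ} (ξ : Fin m → Torus d) (s : Fin d → ℕ) : Finset (Fin d → ℕ) :=
  (boxes s).filter fun i => ∀ μ, hatT s i (ξ μ) = 0

lemma card_good {m : ℕ} (ξ : Fin m → Torus d) (s : Fin d → ℕ) :
    2 ^ (∑ j, s j) ≤ (good ξ s).card + m := by
  rw [← card_boxes s, ← Finset.card_filter_add_card_filter_not (s := boxes s)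
    (fun i => ∀ μ, hatT s i (ξ μ) = 0)]
  refine Nat.add_le_add_left ?_ _
  have h1 : (boxes s).filter (fun i => ¬ ∀ μ, hatT s i (ξ μ) = 0) ⊆
      (Finset.univ : Finset (Fin m)).biUnion fun μ =>
        (boxes s).filter fun i => hatT s i (ξ μ) ≠ 0 := by
    intro i hi
    rw [Finset.mem_filter] at hi
    obtain ⟨hi1, hi2⟩ := hi
    push Not at hi2
    obtain ⟨μ, hμ⟩ := hi2
    rw [Finset.mem_biUnion]
    exact ⟨μ, Finset.mem_univ _, Finset.mem_filter.2 ⟨hi1, hμ⟩⟩
  refine (Finset.card_le_card h1).trans (Finset.card_biUnion_le.trans ?_)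
  calc ∑ μ : Fin m, ((boxes s).filter fun i => hatT s i (ξ μ) ≠ 0).card ≤ ∑ μ : Fin m, 1 := by
        refine Finset.sum_le_sum fun μ _ => ?_
        rw [Finset.card_le_one]
        intro i hi k hk
        rw [Finset.mem_filter] at hi hk
        unfold boxes at hi hk
        rw [Fintype.mem_piFinset] at hi hk
        funext j
        have h2 := hi.2
        have h3 := hk.2
        rw [hatT_apply, Finset.prod_ne_zero_iff] at h2 h3
        exact hat_unique (Finset.mem_range.1 (hi.1 j)) (Finset.mem_range.1 (hk.1 j))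
          (h2 j (Finset.mem_univ j)) (h3 j (Finset.mem_univ j))
    _ = m := by simp

lemma integral_hatT (s i : Fin d → ℕ) :
    (1 / 4 : ℝ) ^ d * (1 / 2) ^ (∑ j, s j) ≤ mean (hatT s i) := by
  unfold mean haarT
  have h := integral_fintype_prod_eq_prod (𝕜 := ℝ) (ι := Fin d) (E := fun _ => Circ)
    (μ := fun _ => AddCircle.haarAddCircle) (fun j y => hat (s j) (i j) y)
  have h1 : ∫ x, hatT s i x ∂(Measure.pi fun _ : Fin d => (AddCircle.haarAddCircle : Measure Circ)) =
      ∏ j, ∫ y, hat (s j) (i j) y ∂AddCircle.haarAddCircle := h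
  rw [h1]
  calc (1 / 4 : ℝ) ^ d * (1 / 2) ^ (∑ j, s j) = ∏ j : Fin d, ((1 / 4 : ℝ) * (1 / 2) ^ (s j)) := by
        rw [Finset.prod_mul_distrib, Finset.prod_const, Finset.card_univ, Fintype.card_fin,
          Finset.prod_pow_eq_pow_sum]
    _ ≤ _ := Finset.prod_le_prod (fun j _ => by positivity) fun j _ => integral_hat _ _

/-- the shapes used for the fooling function -/
def shapes (d' n : ℕ) : Finset (Fin (d' + 1) → ℕ) :=
  (Fintype.piFinset fun _ : Fin d' => Finset.range (n / (d' + 1) + 1)).image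
    fun s' => Fin.cons (n - ∑ j, s' j) s'

lemma shapes_sum {d' n : ℕ} {s : Fin (d' + 1) → ℕ} (hs : s ∈ shapes d' n) : ∑ j, s j = n := by
  unfold shapes at hs
  rw [Finset.mem_image] at hs
  obtain ⟨s', hs', rfl⟩ := hs
  rw [Fintype.mem_piFinset] at hs'
  rw [Fin.sum_univ_succ]
  simp only [Fin.cons_zero, Fin.cons_succ]
  have h1 : ∑ j, s' j ≤ n := by
    calc ∑ j, s' j ≤ ∑ j : Fin d', n / (d' + 1) :=
          Finset.sum_le_sum fun j _ => Nat.lt_succ_iff.1 (Finset.mem_range.1 (hs' j))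
      _ = d' * (n / (d' + 1)) := by simp
      _ ≤ (d' + 1) * (n / (d' + 1)) := Nat.mul_le_mul_right _ (Nat.le_succ d')
      _ ≤ n := Nat.mul_div_le n (d' + 1)
  omega

lemma shapes_card (d' n : ℕ) : (shapes d' n).card = (n / (d' + 1) + 1) ^ d' := by
  unfold shapes
  rw [Finset.card_image_of_injective]
  · rw [Fintype.card_piFinset]
    simp
  · intro a b hab
    have := congrArg Fin.tail hab
    simpa using this

lemma shapes_subset (d' n : ℕ) :
    shapes d' n ⊆ Fintype.piFinset fun _ : Fin (d' + 1) => Finset.range (n + 1) := by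
  intro s hs
  rw [Fintype.mem_piFinset]
  intro j
  have h1 := shapes_sum hs
  have h2 : s j ≤ ∑ j, s j := Finset.single_le_sum (fun _ _ => Nat.zero_le _) (Finset.mem_univ j)
  rw [Finset.mem_range]
  omega

/-- the fooling function, before normalisation -/
def fool (r : ℝ) {d' m : ℕ} (n : ℕ) (ξ : Fin m → Torus (d' + 1)) : C(Torus (d' + 1), ℝ) :=
  ∑ s ∈ shapes d' n, (2 : ℝ) ^ (-(r * ∑ j, (s j : ℝ))) • ∑ i ∈ good ξ s, hatT s i

/-- the first order differences of the fooling function -/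
lemma fool_diff {r : ℝ} (hr0 : 0 < r) (hr1 : r < 1) {d' m : ℕ} (n : ℕ)
    (ξ : Fin m → Torus (d' + 1)) (e : Finset (Fin (d' + 1))) (t : Fin (d' + 1) → ℝ)
    (x : Torus (d' + 1)) :
    |act (∏ j ∈ e, (trj j (t j) - 1)) (fool r n ξ) x| ≤
      (2 * (2 / (2 ^ (1 - r) - 1) + 1 / (1 - (2 : ℝ) ^ (-r)))) ^ e.card *
        (1 / (1 - (2 : ℝ) ^ (-r))) ^ (eᶜ).card * ∏ j ∈ e, |t j| ^ r := by
  set C1 : ℝ := 2 / (2 ^ (1 - r) - 1) + 1 / (1 - (2 : ℝ) ^ (-r)) with hC1
  set C0 : ℝ := 1 / (1 - (2 : ℝ) ^ (-r)) with hC0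
  have h1 : act (∏ j ∈ e, (trj j (t j) - 1)) (fool r n ξ) x =
      ∑ s ∈ shapes d' n, (2 : ℝ) ^ (-(r * ∑ j, (s j : ℝ))) * ∑ i ∈ good ξ s,
        act (∏ j ∈ e, (trj j (t j) - 1)) (hatT s i) x := by
    unfold fool
    rw [map_sum, ContinuousMap.coe_sum, Finset.sum_apply]
    refine Finset.sum_congr rfl fun s _ => ?_
    rw [map_smul, map_sum, ContinuousMap.smul_apply, ContinuousMap.coe_sum, Finset.sum_apply,
      smul_eq_mul]
  rw [h1]
  -- one shape
  have h2 : ∀ s : Fin (d' + 1) → ℕ, |∑ i ∈ good ξ s,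
      act (∏ j ∈ e, (trj j (t j) - 1)) (hatT s i) x| ≤
        ∏ j, (if j ∈ e then 2 * min 1 (2 ^ s j * |t j|) else 1) := by
    intro s
    calc |∑ i ∈ good ξ s, act (∏ j ∈ e, (trj j (t j) - 1)) (hatT s i) x| ≤
        ∑ i ∈ good ξ s, |act (∏ j ∈ e, (trj j (t j) - 1)) (hatT s i) x| :=
          Finset.abs_sum_le_sum_abs _ _
      _ ≤ ∑ i ∈ boxes s, |act (∏ j ∈ e, (trj j (t j) - 1)) (hatT s i) x| :=
          Finset.sum_le_sum_of_subset_of_nonneg (Finset.filter_subset _ _)
            fun _ _ _ => abs_nonneg _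
      _ = ∑ i ∈ boxes s, ∏ j, (fun (j : Fin (d' + 1)) (k : ℕ) =>
          (if j ∈ e then |hat (s j) k (x j + (t j : Circ)) - hat (s j) k (x j)|
            else hat (s j) k (x j))) j (i j) := by
          refine Finset.sum_congr rfl fun i _ => ?_
          unfold hatT
          rw [act_tens, Finset.abs_prod]
          refine Finset.prod_congr rfl fun j _ => ?_
          show |if j ∈ e then hat (s j) (i j) (x j + (t j : Circ)) - hat (s j) (i j) (x j)
            else hat (s j) (i j) (x j)| = if j ∈ e then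
              |hat (s j) (i j) (x j + (t j : Circ)) - hat (s j) (i j) (x j)|
              else hat (s j) (i j) (x j)
          split_ifs
          · rfl
          · exact abs_of_nonneg (hat_nonneg _ _ _)
      _ = ∏ j, ∑ k ∈ Finset.range (2 ^ s j), (fun (j : Fin (d' + 1)) (k : ℕ) =>
          (if j ∈ e then |hat (s j) k (x j + (t j : Circ)) - hat (s j) k (x j)|
            else hat (s j) k (x j))) j k := by
          unfold boxes
          rw [Finset.prod_univ_sum]
      _ ≤ ∏ j, (if j ∈ e then 2 * min 1 (2 ^ s j * |t j|) else 1) := by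
          refine Finset.prod_le_prod (fun j _ => Finset.sum_nonneg fun k _ => ?_) fun j _ => ?_
          · show 0 ≤ if j ∈ e then |hat (s j) k (x j + (t j : Circ)) - hat (s j) k (x j)|
              else hat (s j) k (x j)
            split_ifs
            · exact abs_nonneg _
            · exact hat_nonneg _ _ _
          · by_cases hj : j ∈ e
            · simp only [hj, if_true]
              exact sum_hat_diff_le _ _ _
            · simp only [hj, if_false]
              exact sum_hat_le _ _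
  calc |∑ s ∈ shapes d' n, (2 : ℝ) ^ (-(r * ∑ j, (s j : ℝ))) * ∑ i ∈ good ξ s,
        act (∏ j ∈ e, (trj j (t j) - 1)) (hatT s i) x| ≤
      ∑ s ∈ shapes d' n, (2 : ℝ) ^ (-(r * ∑ j, (s j : ℝ))) *
        ∏ j, (if j ∈ e then 2 * min 1 (2 ^ s j * |t j|) else 1) := by
        refine (Finset.abs_sum_le_sum_abs _ _).trans (Finset.sum_le_sum fun s _ => ?_)
        rw [abs_mul, abs_of_nonneg (by positivity : (0 : ℝ) ≤ (2 : ℝ) ^ (-(r * ∑ j, (s j : ℝ))))]
        exact mul_le_mul_of_nonneg_left (h2 s) (by positivity)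
    _ ≤ ∑ s ∈ Fintype.piFinset (fun _ : Fin (d' + 1) => Finset.range (n + 1)),
        (2 : ℝ) ^ (-(r * ∑ j, (s j : ℝ))) *
        ∏ j, (if j ∈ e then 2 * min 1 (2 ^ s j * |t j|) else 1) := by
        refine Finset.sum_le_sum_of_subset_of_nonneg (shapes_subset d' n) fun s _ _ => ?_
        refine mul_nonneg (by positivity) (Finset.prod_nonneg fun j _ => ?_)
        split_ifs
        · exact mul_nonneg zero_le_two (le_min zero_le_one (by positivity))
        · exact zero_le_one
    _ = ∑ s ∈ Fintype.piFinset (fun _ : Fin (d' + 1) => Finset.range (n + 1)),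
        ∏ j, (fun (j : Fin (d' + 1)) (k : ℕ) => (2 : ℝ) ^ (-(r * k)) *
          (if j ∈ e then 2 * min 1 (2 ^ k * |t j|) else 1)) j (s j) := by
        refine Finset.sum_congr rfl fun s _ => ?_
        rw [Finset.prod_mul_distrib, ← Real.rpow_sum_of_pos (by norm_num : (0 : ℝ) < 2),
          Finset.sum_neg_distrib, ← Finset.mul_sum]
    _ = ∏ j, ∑ k ∈ Finset.range (n + 1), (fun (j : Fin (d' + 1)) (k : ℕ) =>
          (2 : ℝ) ^ (-(r * k)) * (if j ∈ e then 2 * min 1 (2 ^ k * |t j|) else 1)) j k := by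
        rw [Finset.prod_univ_sum]
    _ ≤ ∏ j, (if j ∈ e then 2 * C1 * |t j| ^ r else C0) := by
        refine Finset.prod_le_prod (fun j _ => Finset.sum_nonneg fun k _ => ?_) fun j _ => ?_
        · refine mul_nonneg (by positivity) ?_
          split_ifs
          · exact mul_nonneg zero_le_two (le_min zero_le_one (by positivity))
          · exact zero_le_one
        · by_cases hj : j ∈ e
          · simp only [hj, if_true]
            calc ∑ k ∈ Finset.range (n + 1), (2 : ℝ) ^ (-(r * k)) * (2 * min 1 (2 ^ k * |t j|)) =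
                2 * ∑ k ∈ Finset.range (n + 1), (2 : ℝ) ^ (-(r * k)) * min 1 (2 ^ k * |t j|) := by
                  rw [Finset.mul_sum]
                  exact Finset.sum_congr rfl fun k _ => by ring
              _ ≤ 2 * (C1 * |t j| ^ r) :=
                  mul_le_mul_of_nonneg_left (scale_sum_diff hr0 hr1 n (t j)) zero_le_two
              _ = 2 * C1 * |t j| ^ r := by ring
          · simp only [hj, if_false, mul_one]
            exact scale_sum hr0 n
    _ = (2 * C1) ^ e.card * C0 ^ (eᶜ).card * ∏ j ∈ e, |t j| ^ r := by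
        rw [Finset.prod_ite]
        have e1 : Finset.univ.filter (fun j => j ∈ e) = e := by ext; simp
        have e2 : Finset.univ.filter (fun j => j ∉ e) = eᶜ := by ext; simp
        rw [e1, e2, Finset.prod_mul_distrib, Finset.prod_const, Finset.prod_const]
        ring

lemma fool_mean {r : ℝ} {d' m : ℕ} (n : ℕ) (hn : 2 * m ≤ 2 ^ n) (ξ : Fin m → Torus (d' + 1)) :
    ((n / (d' + 1) : ℕ) + 1 : ℝ) ^ d' * (2 : ℝ) ^ (-(r * n)) * ((1 / 4) ^ (d' + 1) / 2) ≤
      mean (fool r n ξ) := by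
  have h1 : mean (fool r n ξ) = ∑ s ∈ shapes d' n, (2 : ℝ) ^ (-(r * ∑ j, (s j : ℝ))) *
      ∑ i ∈ good ξ s, mean (hatT s i) := by
    unfold mean fool
    have hint : ∀ g : C(Torus (d' + 1), ℝ), Integrable g (haarT (d' + 1)) := fun g =>
      g.continuous.integrable_of_hasCompactSupport (HasCompactSupport.of_compactSpace g)
    have h2 : ∀ x, (∑ s ∈ shapes d' n, (2 : ℝ) ^ (-(r * ∑ j, (s j : ℝ))) •
        ∑ i ∈ good ξ s, hatT s i : C(Torus (d' + 1), ℝ)) x =
        ∑ s ∈ shapes d' n, (2 : ℝ) ^ (-(r * ∑ j, (s j : ℝ))) * ∑ i ∈ good ξ s, hatT s i x := by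
      intro x
      rw [ContinuousMap.coe_sum, Finset.sum_apply]
      refine Finset.sum_congr rfl fun s _ => ?_
      rw [ContinuousMap.smul_apply, ContinuousMap.coe_sum, Finset.sum_apply, smul_eq_mul]
    simp_rw [h2]
    rw [integral_finsetSum _ fun s _ => ((integrable_finsetSum _ fun i _ =>
      hint (hatT s i)).const_mul _)]
    refine Finset.sum_congr rfl fun s _ => ?_
    rw [integral_const_mul, integral_finsetSum _ fun i _ => hint (hatT s i)]
  rw [h1]
  have h3 : ∀ s ∈ shapes d' n, (2 : ℝ) ^ (-(r * n)) * ((1 / 4) ^ (d' + 1) / 2) ≤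
      (2 : ℝ) ^ (-(r * ∑ j, (s j : ℝ))) * ∑ i ∈ good ξ s, mean (hatT s i) := by
    intro s hs
    have hsum := shapes_sum hs
    have h4 : ∑ j, (s j : ℝ) = n := by exact_mod_cast hsum
    rw [h4]
    refine mul_le_mul_of_nonneg_left ?_ (by positivity)
    have h5 : (2 : ℝ) ^ n / 2 ≤ (good ξ s).card := by
      have h6 := card_good ξ s
      rw [hsum] at h6
      have h7 : (2 : ℝ) ^ n ≤ (good ξ s).card + m := by exact_mod_cast h6
      have h8 : 2 * (m : ℝ) ≤ 2 ^ n := by exact_mod_cast hn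
      linarith
    calc (1 / 4 : ℝ) ^ (d' + 1) / 2 = (2 : ℝ) ^ n / 2 * ((1 / 4) ^ (d' + 1) * (1 / 2) ^ n) := by
          have : (2 : ℝ) ^ n * (1 / 2) ^ n = 1 := by
            rw [← mul_pow]; norm_num
          linear_combination (-(1 / 4 : ℝ) ^ (d' + 1) / 2) * this
      _ ≤ (good ξ s).card * ((1 / 4) ^ (d' + 1) * (1 / 2) ^ n) :=
          mul_le_mul_of_nonneg_right h5 (by positivity)
      _ = ∑ i ∈ good ξ s, ((1 / 4 : ℝ) ^ (d' + 1) * (1 / 2) ^ n) := by
          rw [Finset.sum_const, nsmul_eq_mul]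
      _ ≤ ∑ i ∈ good ξ s, mean (hatT s i) := by
          refine Finset.sum_le_sum fun i _ => ?_
          have := integral_hatT s i
          rwa [hsum] at this
  calc ((n / (d' + 1) : ℕ) + 1 : ℝ) ^ d' * (2 : ℝ) ^ (-(r * n)) * ((1 / 4) ^ (d' + 1) / 2) =
      ∑ s ∈ shapes d' n, (2 : ℝ) ^ (-(r * n)) * ((1 / 4) ^ (d' + 1) / 2) := by
        rw [Finset.sum_const, shapes_card, nsmul_eq_mul]
        push_cast
        ring
    _ ≤ _ := Finset.sum_le_sum h3

theorem fooling (d l : ℕ) (hd : 1 ≤ d) (hl : 1 ≤ l) (r : ℝ) (hr0 : 0 < r) (hr1 : r < 1) :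
    ∃ c : ℝ, 0 < c ∧ ∀ m : ℕ, 2 ≤ m → ∀ ξ : Fin m → Torus d, ∃ f : C(Torus d, ℝ),
      (∀ x, |f x| ≤ 1) ∧
      (∀ e : Finset (Fin d), e.Nonempty → ∀ (t : Fin d → ℝ) x,
        |mixedDiff l e t f x| ≤ ∏ j ∈ e, |t j| ^ r) ∧
      (∀ μ, f (ξ μ) = 0) ∧ c * (m : ℝ) ^ (-r) * Real.log m ^ (d - 1) ≤ mean f := by
  obtain ⟨d', rfl⟩ : ∃ d', d = d' + 1 := ⟨d - 1, by omega⟩
  obtain ⟨l', rfl⟩ : ∃ l', l = l' + 1 := ⟨l - 1, by omega⟩
  have hq1 : (1 : ℝ) < 2 ^ (1 - r) := Real.one_lt_rpow (by norm_num) (by linarith)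
  have hq2 : (2 : ℝ) ^ (-r) < 1 := Real.rpow_lt_one_of_one_lt_of_neg (by norm_num) (by linarith)
  have hC0 : 0 ≤ 1 / (1 - (2 : ℝ) ^ (-r)) := one_div_nonneg.2 (by linarith)
  have hC1 : 0 ≤ 2 / ((2 : ℝ) ^ (1 - r) - 1) := div_nonneg zero_le_two (by linarith)
  set C0 : ℝ := 1 / (1 - (2 : ℝ) ^ (-r)) with hC0d
  set C1 : ℝ := 2 / ((2 : ℝ) ^ (1 - r) - 1) + C0 with hC1d
  set A : ℝ := 1 + 2 * C1 + C0 with hA
  have hC1' : 0 ≤ C1 := add_nonneg hC1 hC0
  have hA1 : 1 ≤ A := by rw [hA]; linarith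
  set B : ℝ := (2 ^ l') ^ (d' + 1) * A ^ (d' + 1) with hB
  have h2l : (1 : ℝ) ≤ 2 ^ l' := one_le_pow₀ (by norm_num)
  have hB1 : 1 ≤ B := one_le_mul_of_one_le_of_one_le (one_le_pow₀ h2l) (one_le_pow₀ hA1)
  have hAB : A ^ (d' + 1) ≤ B := by
    rw [hB]
    exact le_mul_of_one_le_left (by positivity) (one_le_pow₀ h2l)
  have hB0 : 0 < B := by linarith
  refine ⟨B⁻¹ * ((4 : ℝ) ^ (-r) * ((1 / 4) ^ (d' + 1) / 2) * (1 / (d' + 1)) ^ d'),
    by positivity, ?_⟩
  intro m hm ξ
  have hm0 : (0 : ℝ) < m := by positivity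
  set n : ℕ := Nat.log 2 m + 2 with hn
  have hn1 : 2 * m ≤ 2 ^ n := by
    have h1 : m < 2 ^ (Nat.log 2 m + 1) := Nat.lt_pow_succ_log_self (by norm_num) m
    rw [hn, pow_succ]
    omega
  have hn2 : 2 ^ n ≤ 4 * m := by
    have h1 : 2 ^ (Nat.log 2 m) ≤ m := Nat.pow_log_le_self 2 (by omega)
    rw [hn, pow_add]
    omega
  have hlogn : Real.log m ≤ n := by
    have h1 : (m : ℝ) ≤ 2 ^ n := by
      have : m ≤ 2 ^ n := by omega
      exact_mod_cast this
    calc Real.log m ≤ Real.log ((2 : ℝ) ^ n) := Real.log_le_log hm0 h1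
      _ = n * Real.log 2 := by rw [Real.log_pow]
      _ ≤ n * 1 := by
          refine mul_le_mul_of_nonneg_left ?_ (by positivity)
          have := Real.log_two_lt_d9
          linarith
      _ = n := mul_one _
  -- first order differences
  have hfirst : ∀ (e : Finset (Fin (d' + 1))) (t : Fin (d' + 1) → ℝ),
      ‖act (∏ j ∈ e, (trj j (t j) - 1)) (fool r n ξ)‖ ≤ A ^ (d' + 1) * ∏ j ∈ e, |t j| ^ r := by
    intro e t
    have hp : 0 ≤ ∏ j ∈ e, |t j| ^ r :=
      Finset.prod_nonneg fun _ _ => Real.rpow_nonneg (abs_nonneg _) _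
    refine (ContinuousMap.norm_le _ (by positivity)).2 fun x => ?_
    rw [Real.norm_eq_abs]
    refine (fool_diff hr0 hr1 n ξ e t x).trans (mul_le_mul_of_nonneg_right ?_ hp)
    have h1 : (2 * C1) ^ e.card ≤ A ^ e.card :=
      pow_le_pow_left₀ (by positivity) (by rw [hA]; linarith) _
    have h2 : C0 ^ (eᶜ).card ≤ A ^ (eᶜ).card :=
      pow_le_pow_left₀ hC0 (by rw [hA]; linarith) _
    have h3 : e.card + (eᶜ).card = d' + 1 := by
      rw [Finset.card_add_card_compl, Fintype.card_fin]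
    calc (2 * C1) ^ e.card * C0 ^ (eᶜ).card ≤ A ^ e.card * A ^ (eᶜ).card :=
          mul_le_mul h1 h2 (by positivity) (by positivity)
      _ = A ^ (d' + 1) := by rw [← pow_add, h3]
  refine ⟨B⁻¹ • fool r n ξ, ?_, ?_, ?_, ?_⟩
  · intro x
    have h1 := hfirst ∅ 0
    simp only [Finset.prod_empty, mul_one, map_one] at h1
    have h2 : |fool r n ξ x| ≤ A ^ (d' + 1) := by
      have := (fool r n ξ).norm_coe_le_norm x
      rw [Real.norm_eq_abs] at this
      exact this.trans h1
    rw [ContinuousMap.smul_apply, smul_eq_mul, abs_mul, abs_of_pos (inv_pos.2 hB0),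
      inv_mul_le_iff₀ hB0, mul_one]
    exact h2.trans hAB
  · intro e he t x
    have hp : 0 ≤ ∏ j ∈ e, |t j| ^ r :=
      Finset.prod_nonneg fun _ _ => Real.rpow_nonneg (abs_nonneg _) _
    rw [mixedDiff_eq, map_smul]
    have h1 : ∏ j ∈ e, (trj j (t j) - 1) ^ (l' + 1) =
        (∏ j ∈ e, (trj j (t j) - 1) ^ l') * ∏ j ∈ e, (trj j (t j) - 1) := by
      rw [← Finset.prod_mul_distrib]
      exact Finset.prod_congr rfl fun j _ => pow_succ _ _
    have h2 : ‖act (∏ j ∈ e, (trj j (t j) - 1) ^ (l' + 1)) (fool r n ξ)‖ ≤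
        B * ∏ j ∈ e, |t j| ^ r := by
      rw [h1, act_mul_apply]
      refine (norm_act_prod_pow_le e t l' _).trans ?_
      calc (2 ^ l') ^ e.card * ‖act (∏ j ∈ e, (trj j (t j) - 1)) (fool r n ξ)‖ ≤
          (2 ^ l') ^ (d' + 1) * (A ^ (d' + 1) * ∏ j ∈ e, |t j| ^ r) := by
            refine mul_le_mul ?_ (hfirst e t) (norm_nonneg _) (by positivity)
            exact pow_le_pow_right₀ h2l (by simpa using Finset.card_le_univ e)
        _ = _ := by rw [hB]; ring
    have h3 : |act (∏ j ∈ e, (trj j (t j) - 1) ^ (l' + 1)) (fool r n ξ) x| ≤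
        B * ∏ j ∈ e, |t j| ^ r := by
      have := (act (∏ j ∈ e, (trj j (t j) - 1) ^ (l' + 1)) (fool r n ξ)).norm_coe_le_norm x
      rw [Real.norm_eq_abs] at this
      exact this.trans h2
    rw [ContinuousMap.smul_apply, smul_eq_mul, abs_mul, abs_of_pos (inv_pos.2 hB0),
      inv_mul_le_iff₀ hB0]
    exact h3
  · intro μ
    rw [ContinuousMap.smul_apply]
    have h1 : fool r n ξ (ξ μ) = 0 := by
      unfold fool
      rw [ContinuousMap.coe_sum, Finset.sum_apply]
      refine Finset.sum_eq_zero fun s _ => ?_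
      rw [ContinuousMap.smul_apply, ContinuousMap.coe_sum, Finset.sum_apply]
      have h2 : ∑ i ∈ good ξ s, hatT s i (ξ μ) = 0 := by
        refine Finset.sum_eq_zero fun i hi => ?_
        exact (Finset.mem_filter.1 hi).2 μ
      rw [h2, smul_zero]
    rw [h1, smul_zero]
  · have h1 := fool_mean (r := r) n hn1 ξ
    have h2 : mean (B⁻¹ • fool r n ξ : C(Torus (d' + 1), ℝ)) = B⁻¹ * mean (fool r n ξ) := by
      unfold mean
      rw [← integral_const_mul]
      rfl
    rw [h2]
    have h3 : (4 : ℝ) ^ (-r) * (m : ℝ) ^ (-r) ≤ (2 : ℝ) ^ (-(r * n)) := by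
      have h4 : (2 : ℝ) ^ (-(r * n)) = ((2 : ℝ) ^ n) ^ (-r) := by
        rw [← Real.rpow_natCast, ← Real.rpow_mul (by norm_num)]
        congr 1
        ring
      rw [h4, ← Real.mul_rpow (by norm_num) hm0.le]
      refine Real.rpow_le_rpow_of_nonpos (by positivity) ?_ (by linarith)
      exact_mod_cast hn2
    have h5 : Real.log m * (1 / (d' + 1)) ≤ ((n / (d' + 1) : ℕ) : ℝ) + 1 := by
      have h6 : (n : ℝ) < ((n / (d' + 1) : ℕ) + 1 : ℝ) * (d' + 1) := by
        have h7 := Nat.lt_mul_div_succ n (Nat.succ_pos d')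
        rw [Nat.succ_eq_add_one] at h7
        have h8 : (n : ℝ) < ((d' + 1 : ℕ) : ℝ) * ((n / (d' + 1) + 1 : ℕ) : ℝ) := by exact_mod_cast h7
        push_cast at h8
        push_cast
        linarith
      have hd0 : (0 : ℝ) < (d' : ℝ) + 1 := by positivity
      rw [mul_one_div, div_le_iff₀ hd0]
      linarith
    have hlog0 : 0 ≤ Real.log m := Real.log_nonneg (by exact_mod_cast (by omega : 1 ≤ m))
    have h9 : (Real.log m * (1 / (d' + 1))) ^ d' ≤ (((n / (d' + 1) : ℕ) : ℝ) + 1) ^ d' :=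
      pow_le_pow_left₀ (by positivity) h5 _
    rw [Nat.add_sub_cancel]
    calc B⁻¹ * ((4 : ℝ) ^ (-r) * ((1 / 4) ^ (d' + 1) / 2) * (1 / (d' + 1)) ^ d') *
        (m : ℝ) ^ (-r) * Real.log m ^ d' =
        B⁻¹ * ((Real.log m * (1 / (d' + 1))) ^ d' * ((4 : ℝ) ^ (-r) * (m : ℝ) ^ (-r)) *
          ((1 / 4) ^ (d' + 1) / 2)) := by
          rw [mul_pow]; ring
      _ ≤ B⁻¹ * ((((n / (d' + 1) : ℕ) : ℝ) + 1) ^ d' * (2 : ℝ) ^ (-(r * n)) *
          ((1 / 4) ^ (d' + 1) / 2)) := by
          refine mul_le_mul_of_nonneg_left ?_ (by positivity)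
          refine mul_le_mul_of_nonneg_right ?_ (by positivity)
          exact mul_le_mul h9 h3 (by positivity) (by positivity)
      _ ≤ B⁻¹ * mean (fool r n ξ) := mul_le_mul_of_nonneg_left h1 (by positivity)

end Pool.Agent.Lib.P51a855
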