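import Pool.Agent.Lib.P51a855.Diff
import Pool.Agent.Lib.P51a855.Fejer

/-!
The kernels of the Korobov formula applied to one dyadic block.
-/

set_option autoImplicit false

open MeasureTheory Finset
open scoped ENNReal NNReal

noncomputable section

namespace Pool.Agent.Lib.P51a855

variable {d : ℕ}

/-- continuous functions on compact spaces are integrable -/
lemma integrable_of_cont {X : Type*} [TopologicalSpace X] [CompactSpace X] [MeasurableSpace X]
    [OpensMeasurableSpace X] {ν : Measure X} [IsFiniteMeasure ν]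
    {g : X → ℝ} (hg : Continuous g) : Integrable g ν :=
  hg.integrable_of_hasCompactSupport (HasCompactSupport.of_compactSpace g)

lemma integral_prod_haarT (g : Fin d → Circ → ℝ) :
    ∫ x, ∏ j, g j (x j) ∂(haarT d) = ∏ j, ∫ u, g j u ∂AddCircle.haarAddCircle := by
  unfold haarT
  exact integral_fintype_prod_eq_prod (𝕜 := ℝ) (ι := Fin d) (E := fun _ => Circ) g

/-- parametric integrals of continuous functions are continuous -/
lemma continuous_param {X : Type*} [TopologicalSpace X] [FirstCountableTopology X]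
    [LocallyCompactSpace X] {F : X → Torus d → ℝ} (hF : Continuous F.uncurry) :
    Continuous fun x => ∫ y, F x y ∂(haarT d) := by
  have h := continuous_parametric_integral_of_continuous (μ := haarT d) hF
    (isCompact_univ (X := Torus d))
  simpa using h

/-- product kernels -/
def VK (s : Fin d → ℕ) (x : Torus d) : ℝ := ∏ j, vker (s j) (x j)
/-- product kernels -/
def WK (s : Fin d → ℕ) (x : Torus d) : ℝ := ∏ j, wker (s j) (x j)

lemma continuous_VK (s : Fin d → ℕ) : Continuous (VK s) := by
  unfold VK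
  exact continuous_finsetProd _ fun j _ => (continuous_vker (s j)).comp (continuous_apply j)

lemma continuous_WK (s : Fin d → ℕ) : Continuous (WK s) := by
  unfold WK
  exact continuous_finsetProd _ fun j _ => (continuous_wker (s j)).comp (continuous_apply j)

lemma VK_conv_WK (s : Fin d → ℕ) (x : Torus d) :
    ∫ t, VK s t * WK s (x - t) ∂(haarT d) = VK s x := by
  have h1 : ∀ t : Torus d, VK s t * WK s (x - t) =
      ∏ j, (fun (j : Fin d) (u : Circ) => vker (s j) u * wker (s j) (x j - u)) j (t j) := by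
    intro t
    unfold VK WK
    rw [← Finset.prod_mul_distrib]
    rfl
  have h2 := integral_prod_haarT
    (fun (j : Fin d) (u : Circ) => vker (s j) u * wker (s j) (x j - u))
  rw [integral_congr_ae (Filter.Eventually.of_forall h1), h2]
  exact Finset.prod_congr rfl fun j _ => vker_conv_wker (s j) (x j)

/-- the block `s` of `f` at `x` -/
def blk (s : Fin d → ℕ) (f : C(Torus d, ℝ)) (x : Torus d) : ℝ :=
  ∫ t, VK s t * f (x - t) ∂(haarT d)

lemma blk_eq (s : Fin d → ℕ) (f : C(Torus d, ℝ)) (x : Torus d) :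
    blk s f x = ∫ u, VK s u * ∫ z, WK s (x - z) * f (z - u) ∂(haarT d) ∂(haarT d) := by
  unfold blk
  have hV := continuous_VK s
  have hW := continuous_WK s
  have hf := f.continuous
  have h1 : ∀ t, VK s t * f (x - t) = ∫ u, VK s u * WK s (t - u) * f (x - t) ∂(haarT d) := by
    intro t
    rw [integral_mul_const, VK_conv_WK]
  simp_rw [h1]
  rw [integral_integral_swap]
  · refine integral_congr_ae (Filter.Eventually.of_forall fun u => ?_)
    show ∫ t, VK s u * WK s (t - u) * f (x - t) ∂(haarT d) =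
      VK s u * ∫ z, WK s (x - z) * f (z - u) ∂(haarT d)
    rw [← integral_const_mul, ← integral_sub_left_eq_self
      (fun t => VK s u * WK s (t - u) * f (x - t)) (haarT d) (x + u)]
    refine integral_congr_ae (Filter.Eventually.of_forall fun z => ?_)
    show VK s u * WK s (x + u - z - u) * f (x - (x + u - z)) = VK s u * (WK s (x - z) * f (z - u))
    have e1 : x + u - z - u = x - z := by abel
    have e2 : x - (x + u - z) = z - u := by abel
    rw [e1, e2, mul_assoc]
  · refine integrable_of_cont ?_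
    show Continuous fun p : Torus d × Torus d => VK s p.2 * WK s (p.1 - p.2) * f (x - p.1)
    exact ((hV.comp continuous_snd).mul (hW.comp (continuous_fst.sub continuous_snd))).mul
      (hf.comp (continuous_const.sub continuous_fst))

/-- the kernel of the formula on the block `s` -/
def Psi (m : ℕ) (a : Fin d → ℤ) (s : Fin d → ℕ) (z : Torus d) : ℝ :=
  (1 / (m : ℝ)) * ∑ μ ∈ Finset.Icc 1 m, WK s (korobovNode m a μ - z)

lemma continuous_Psi (m : ℕ) (a : Fin d → ℤ) (s : Fin d → ℕ) : Continuous (Psi m a s) := by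
  unfold Psi
  refine continuous_const.mul (continuous_finsetSum _ fun μ _ => ?_)
  exact (continuous_WK s).comp (by fun_prop : Continuous fun z : Torus d => korobovNode m a μ - z)

lemma korobov_blk (m : ℕ) (a : Fin d → ℤ) (s : Fin d → ℕ) (f : C(Torus d, ℝ)) :
    korobov m a (blk s f) =
      ∫ u, VK s u * ∫ z, Psi m a s z * f (z - u) ∂(haarT d) ∂(haarT d) := by
  unfold korobov
  simp_rw [blk_eq]
  have hV := continuous_VK s
  have hW := continuous_WK s
  have hf := f.continuous
  have hint : ∀ (x : Torus d), Integrable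
      (fun u => VK s u * ∫ z, WK s (x - z) * f (z - u) ∂(haarT d)) (haarT d) := by
    intro x
    refine integrable_of_cont (hV.mul (continuous_param
      (F := fun u z => WK s (x - z) * f (z - u)) ?_))
    show Continuous fun p : Torus d × Torus d => WK s (x - p.2) * f (p.2 - p.1)
    exact (hW.comp (continuous_const.sub continuous_snd)).mul
      (hf.comp (continuous_snd.sub continuous_fst))
  rw [← integral_finsetSum _ fun μ _ => hint _, ← integral_const_mul]
  refine integral_congr_ae (Filter.Eventually.of_forall fun u => ?_)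
  show (1 / (m : ℝ)) * ∑ μ ∈ Finset.Icc 1 m,
      VK s u * ∫ z, WK s (korobovNode m a μ - z) * f (z - u) ∂(haarT d) =
    VK s u * ∫ z, Psi m a s z * f (z - u) ∂(haarT d)
  have hint2 : ∀ μ ∈ Finset.Icc 1 m, Integrable
      (fun z => WK s (korobovNode m a μ - z) * f (z - u)) (haarT d) := by
    intro μ _
    exact integrable_of_cont ((hW.comp (by fun_prop :
      Continuous fun z : Torus d => korobovNode m a μ - z)).mul
      (hf.comp (by fun_prop : Continuous fun z : Torus d => z - u)))
  have h1 : ∫ z, Psi m a s z * f (z - u) ∂(haarT d) = (1 / (m : ℝ)) * ∑ μ ∈ Finset.Icc 1 m,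
      ∫ z, WK s (korobovNode m a μ - z) * f (z - u) ∂(haarT d) := by
    rw [← integral_finsetSum _ hint2, ← integral_const_mul]
    refine integral_congr_ae (Filter.Eventually.of_forall fun z => ?_)
    show Psi m a s z * f (z - u) = _
    unfold Psi
    rw [mul_assoc, Finset.sum_mul]
  rw [h1, ← Finset.mul_sum]
  ring

/-- sum of the powers of a root of unity -/
lemma sum_exp (m : ℕ) (hm : 1 ≤ m) (n : ℤ) :
    ∑ μ ∈ Finset.Icc 1 m, Complex.exp (2 * Real.pi * Complex.I * (n * μ / m)) =
      if (m : ℤ) ∣ n then (m : ℂ) else 0 := by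
  have hm0 : (m : ℂ) ≠ 0 := by exact_mod_cast (by omega : m ≠ 0)
  set ζ : ℂ := Complex.exp (2 * Real.pi * Complex.I * (n / m)) with hζ
  have h1 : ∀ μ : ℕ, Complex.exp (2 * Real.pi * Complex.I * (n * μ / m)) = ζ ^ μ := by
    intro μ
    rw [hζ, ← Complex.exp_nat_mul]
    congr 1
    ring
  simp_rw [h1]
  have h2 : ζ ^ m = 1 := by
    rw [hζ, ← Complex.exp_nat_mul, Complex.exp_eq_one_iff]
    refine ⟨n, ?_⟩
    field_simp
  have h3 : ζ = 1 ↔ (m : ℤ) ∣ n := by
    rw [hζ, Complex.exp_eq_one_iff]
    constructor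
    · rintro ⟨k, hk⟩
      refine ⟨k, ?_⟩
      have h4 : (n : ℂ) / m = k := by
        have h5 : (2 * Real.pi * Complex.I : ℂ) ≠ 0 := by
          simp [Real.pi_ne_zero, Complex.I_ne_zero]
        have h6 : (2 * Real.pi * Complex.I : ℂ) * (n / m) = (2 * Real.pi * Complex.I) * k := by
          rw [hk]; ring
        exact mul_left_cancel₀ h5 h6
      rw [div_eq_iff hm0] at h4
      have : (n : ℂ) = ((m * k : ℤ) : ℂ) := by
        rw [h4]; push_cast; ring
      exact_mod_cast this
    · rintro ⟨k, hk⟩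
      refine ⟨k, ?_⟩
      rw [hk]
      push_cast
      field_simp
  split_ifs with h
  · rw [h3.2 h]
    simp
  · have h4 : ζ ≠ 1 := fun h' => h (h3.1 h')
    have h5 : Finset.Icc 1 m = (Finset.range m).image (· + 1) := by
      ext k
      simp only [Finset.mem_Icc, Finset.mem_image, Finset.mem_range]
      constructor
      · intro hk
        exact ⟨k - 1, by omega, by omega⟩
      · rintro ⟨b, hb, rfl⟩
        omega
    rw [h5, Finset.sum_image (fun a _ b _ hab => by simpa using hab)]
    have h6 : ∑ x ∈ Finset.range m, ζ ^ (x + 1) = ζ * ∑ x ∈ Finset.range m, ζ ^ x := by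
      rw [Finset.mul_sum]
      exact Finset.sum_congr rfl fun x _ => by ring
    rw [h6, geom_sum_eq h4, h2]
    simp

/-- characters at the nodes -/
lemma prod_fourier_node (m : ℕ) (a : Fin d → ℤ) (k : Fin d → ℤ) (μ : ℕ) :
    ∏ j, (fourier (k j) (korobovNode m a μ j) : ℂ) =
      Complex.exp (2 * Real.pi * Complex.I * (((∑ j, k j * a j : ℤ) : ℂ) * μ / m)) := by
  have h1 : ∀ j, (fourier (k j) (korobovNode m a μ j) : ℂ) =
      Complex.exp (2 * Real.pi * Complex.I * ((k j * a j : ℤ) * μ / m)) := by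
    intro j
    unfold korobovNode
    rw [fourier_coe_apply]
    have hpi : (Real.pi : ℂ) ≠ 0 := by exact_mod_cast Real.pi_ne_zero
    rw [Complex.exp_eq_exp_iff_exists_int]
    refine ⟨-(k j * ⌊(μ : ℝ) * (a j : ℝ) / (m : ℝ)⌋), ?_⟩
    have h2 : Int.fract ((μ : ℝ) * (a j : ℝ) / (m : ℝ)) =
        (μ : ℝ) * (a j : ℝ) / (m : ℝ) - ⌊(μ : ℝ) * (a j : ℝ) / (m : ℝ)⌋ := rfl
    rw [h2]
    push_cast
    field_simp
    ring
  rw [Finset.prod_congr rfl fun j _ => h1 j, ← Complex.exp_sum]
  congr 1
  push_cast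
  rw [← Finset.mul_sum]
  congr 1
  rw [Finset.sum_mul, Finset.sum_div]

lemma abs_Psi_le (m : ℕ) (hm : 1 ≤ m) (a : Fin d → ℤ) (s : Fin d → ℕ) (z : Torus d) :
    |Psi m a s z| ≤ Dcount m s a := by
  choose c hc using fun j : Fin d => wker_expansion (s j)
  have hm0 : (m : ℂ) ≠ 0 := by exact_mod_cast (by omega : m ≠ 0)
  have h1 : (Psi m a s z : ℂ) = ∑ k ∈ Fintype.piFinset (fun j => fbox (s j)),
      (∏ j, ((c j (k j) : ℂ) * fourier (k j) (-(z j)))) *
        (if (m : ℤ) ∣ ∑ j, k j * a j then 1 else 0) := by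
    unfold Psi WK
    push_cast
    have h2 : ∀ μ : ℕ, ∏ j, (wker (s j) ((korobovNode m a μ - z) j) : ℂ) =
        ∑ k ∈ Fintype.piFinset (fun j => fbox (s j)),
          (∏ j, ((c j (k j) : ℂ) * fourier (k j) (-(z j)))) *
            Complex.exp (2 * Real.pi * Complex.I * (((∑ j, k j * a j : ℤ) : ℂ) * μ / m)) := by
      intro μ
      rw [Finset.prod_congr rfl fun j _ => (hc j).2 _, Finset.prod_univ_sum]
      refine Finset.sum_congr rfl fun k _ => ?_
      rw [← prod_fourier_node, ← Finset.prod_mul_distrib]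
      refine Finset.prod_congr rfl fun j _ => ?_
      rw [Pi.sub_apply, sub_eq_add_neg, fourier_apply, fourier_apply, fourier_apply, smul_add,
        AddCircle.toCircle_add]
      push_cast
      ring
    rw [Finset.sum_congr rfl fun μ _ => h2 μ, Finset.sum_comm, Finset.mul_sum]
    refine Finset.sum_congr rfl fun k _ => ?_
    rw [← Finset.mul_sum, sum_exp m hm]
    split_ifs
    · field_simp
    · simp
  have h3 : |Psi m a s z| = ‖(Psi m a s z : ℂ)‖ := by
    rw [Complex.norm_real, Real.norm_eq_abs]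
  rw [h3, h1]
  refine (norm_sum_le _ _).trans ?_
  unfold Dcount
  rw [Finset.card_filter, Nat.cast_sum]
  refine Finset.sum_le_sum fun k _ => ?_
  rw [norm_mul, norm_prod]
  have h4 : ∏ j, ‖(c j (k j) : ℂ) * fourier (k j) (-(z j))‖ ≤ 1 := by
    refine Finset.prod_le_one (fun _ _ => norm_nonneg _) fun j _ => ?_
    rw [norm_mul, Complex.norm_real, Real.norm_eq_abs, abs_of_nonneg ((hc j).1 (k j)).1,
      fourier_apply, Circle.norm_coe, mul_one]
    exact ((hc j).1 (k j)).2
  split_ifs
  · simpa using h4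
  · simp

lemma integral_abs_Psi (m : ℕ) (hm : 1 ≤ m) (a : Fin d → ℤ) (s : Fin d → ℕ) :
    ∫ z, |Psi m a s z| ∂(haarT d) ≤ 4 ^ d := by
  have hW := continuous_WK s
  have hm0 : (0 : ℝ) < m := by exact_mod_cast hm
  have h0 : ∫ z, |WK s z| ∂(haarT d) ≤ 4 ^ d := by
    have h1 : ∀ t : Torus d, |WK s t| =
        ∏ j, (fun (j : Fin d) (u : Circ) => |wker (s j) u|) j (t j) := by
      intro t
      unfold WK
      rw [Finset.abs_prod]
    have h2 := integral_prod_haarT (fun (j : Fin d) (u : Circ) => |wker (s j) u|)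
    rw [integral_congr_ae (Filter.Eventually.of_forall h1), h2]
    calc ∏ j : Fin d, ∫ x, |wker (s j) x| ∂AddCircle.haarAddCircle ≤ ∏ j : Fin d, (4 : ℝ) :=
          Finset.prod_le_prod (fun j _ => integral_nonneg fun _ => abs_nonneg _)
            fun j _ => wker_L1 (s j)
      _ = 4 ^ d := by simp
  have h2 : ∀ z, |Psi m a s z| ≤ (1 / (m : ℝ)) * ∑ μ ∈ Finset.Icc 1 m,
      |WK s (korobovNode m a μ - z)| := by
    intro z
    unfold Psi
    rw [abs_mul, abs_of_pos (one_div_pos.2 hm0)]
    exact mul_le_mul_of_nonneg_left (Finset.abs_sum_le_sum_abs _ _) (one_div_pos.2 hm0).le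
  have hint : ∀ μ ∈ Finset.Icc 1 m, Integrable
      (fun z => |WK s (korobovNode m a μ - z)|) (haarT d) := by
    intro μ _
    exact integrable_of_cont (hW.comp (by fun_prop :
      Continuous fun z : Torus d => korobovNode m a μ - z)).abs
  calc ∫ z, |Psi m a s z| ∂(haarT d) ≤ ∫ z, (1 / (m : ℝ)) * ∑ μ ∈ Finset.Icc 1 m,
      |WK s (korobovNode m a μ - z)| ∂(haarT d) := by
        refine integral_mono (integrable_of_cont (continuous_Psi m a s).abs)
          ((integrable_finsetSum _ hint).const_mul _) h2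
    _ = (1 / (m : ℝ)) * ∑ μ ∈ Finset.Icc 1 m, ∫ z, |WK s (korobovNode m a μ - z)| ∂(haarT d) := by
        rw [integral_const_mul, integral_finsetSum _ hint]
    _ = (1 / (m : ℝ)) * ∑ μ ∈ Finset.Icc 1 m, ∫ z, |WK s z| ∂(haarT d) := by
        congr 1
        refine Finset.sum_congr rfl fun μ _ => ?_
        exact integral_sub_left_eq_self (fun z => |WK s z|) (haarT d) _
    _ = ∫ z, |WK s z| ∂(haarT d) := by
        rw [Finset.sum_const, Nat.card_Icc, Nat.add_sub_cancel, nsmul_eq_mul]
        field_simp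
    _ ≤ 4 ^ d := h0

end Pool.Agent.Lib.P51a855
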