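import Pool.Agent.Lib.P51a855.Exist

/-!
Boxes with one-dimensional support.
-/

set_option autoImplicit false
set_option linter.unusedVariables false

open Finset

noncomputable section

namespace Pool.Agent.Lib.P51a855

open CountAux

variable {d : ℕ}

/-- the count for a one-dimensional box -/
lemma Dcount_single_le {m : ℕ} (hm : 1 ≤ m) (a : Fin d → Fin m) (j : Fin d) (k : ℕ) :
    Dcount m (Pi.single j k) (fun j => ((a j : ℕ) : ℤ)) ≤
      ((fbox k).filter fun x => ((m / Nat.gcd (a j) m : ℕ) : ℤ) ∣ x).card := by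
  unfold Dcount
  refine Finset.card_le_card_of_injOn (fun κ => κ j) ?_ ?_
  · intro κ hκ
    rw [Finset.mem_coe, Finset.mem_filter, Fintype.mem_piFinset] at hκ
    obtain ⟨h1, h2⟩ := hκ
    rw [Finset.mem_coe, Finset.mem_filter]
    have h3 := h1 j
    rw [Pi.single_eq_same] at h3
    refine ⟨h3, ?_⟩
    have h4 : ∑ i, κ i * ((a i : ℕ) : ℤ) = κ j * ((a j : ℕ) : ℤ) := by
      refine Finset.sum_eq_single j (fun i _ hij => ?_) (fun h => absurd (Finset.mem_univ j) h)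
      have h5 := h1 i
      rw [Pi.single_eq_of_ne hij] at h5
      simp only [fbox, if_true, Finset.mem_singleton] at h5
      rw [h5, zero_mul]
    rw [h4] at h2
    have hg : 0 < Nat.gcd (a j) m := Nat.gcd_pos_of_pos_right _ (by omega)
    have h6 : ((m / Nat.gcd (a j) m : ℕ) : ℤ) ∣ κ j * ((((a j : ℕ) / Nat.gcd (a j) m : ℕ) : ℤ)) := by
      obtain ⟨c, hc⟩ := h2
      refine ⟨c, ?_⟩
      have hg' : ((Nat.gcd (a j) m : ℕ) : ℤ) ≠ 0 := by exact_mod_cast hg.ne'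
      apply mul_right_cancel₀ hg'
      have e1 : (((a j : ℕ) / Nat.gcd (a j) m : ℕ) : ℤ) * ((Nat.gcd (a j) m : ℕ) : ℤ) =
          ((a j : ℕ) : ℤ) := by
        exact_mod_cast Nat.div_mul_cancel (Nat.gcd_dvd_left (a j : ℕ) m)
      have e2 : ((m / Nat.gcd (a j) m : ℕ) : ℤ) * ((Nat.gcd (a j) m : ℕ) : ℤ) = (m : ℤ) := by
        exact_mod_cast Nat.div_mul_cancel (Nat.gcd_dvd_right (a j : ℕ) m)
      calc κ j * (((a j : ℕ) / Nat.gcd (a j) m : ℕ) : ℤ) * ((Nat.gcd (a j) m : ℕ) : ℤ) =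
          κ j * ((a j : ℕ) : ℤ) := by rw [mul_assoc, e1]
        _ = (m : ℤ) * c := hc
        _ = ((m / Nat.gcd (a j) m : ℕ) : ℤ) * c * ((Nat.gcd (a j) m : ℕ) : ℤ) := by
            rw [← e2]; ring
    have h7 : IsCoprime ((m / Nat.gcd (a j) m : ℕ) : ℤ)
        ((((a j : ℕ) / Nat.gcd (a j) m : ℕ) : ℤ)) := by
      rw [Nat.isCoprime_iff_coprime]
      exact (Nat.coprime_div_gcd_div_gcd hg).symm
    exact h7.dvd_of_dvd_mul_right h6
  · intro κ hκ κ' hκ' h
    rw [Finset.mem_coe, Finset.mem_filter, Fintype.mem_piFinset] at hκ hκ'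
    funext i
    by_cases hij : i = j
    · rw [hij]; exact h
    · have h5 := hκ.1 i
      have h6 := hκ'.1 i
      rw [Pi.single_eq_of_ne hij] at h5 h6
      simp only [fbox, if_true, Finset.mem_singleton] at h5 h6
      rw [h5, h6]

/-- the sum over the one-dimensional boxes in one direction -/
lemma single_sum {θ r : ℝ} (hθ0 : 0 ≤ θ) (hθr : θ < r) (hr1 : r < 1) {m : ℕ} (hm : 1 ≤ m)
    (a : Fin d → Fin m) (j : Fin d) (n : ℕ) :
    ∑ k ∈ Finset.Icc 1 n, (2 : ℝ) ^ (-(r * k)) *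
        phi θ (Dcount m (Pi.single j k) (fun j => ((a j : ℕ) : ℤ))) ≤
      8 / (1 - (2 : ℝ) ^ (-(r - θ))) * ((Nat.gcd (a j) m : ℕ) / m : ℝ) ^ r := by
  have hr0 : 0 < r := by linarith
  set g : ℕ := Nat.gcd (a j) m with hg
  have hgpos : 0 < g := Nat.gcd_pos_of_pos_right _ (by omega)
  have hgdvd : g ∣ m := Nat.gcd_dvd_right _ _
  set M : ℕ := m / g with hM
  have hMpos : 0 < M := Nat.div_pos (Nat.le_of_dvd (by omega) hgdvd) hgpos
  have hM0 : (0 : ℝ) < M := by exact_mod_cast hMpos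
  have hm0 : (0 : ℝ) < m := by exact_mod_cast hm
  have hgM : (g : ℝ) / m = (M : ℝ)⁻¹ := by
    have h1 : (M : ℝ) * g = m := by exact_mod_cast Nat.div_mul_cancel hgdvd
    have hg0 : (0 : ℝ) < g := by exact_mod_cast hgpos
    rw [← h1]
    field_simp
  set q : ℝ := (2 : ℝ) ^ (-(r - θ)) with hq
  have hq0 : 0 ≤ q := by positivity
  have hq1 : q < 1 := Real.rpow_lt_one_of_one_lt_of_neg (by norm_num) (by linarith)
  -- the critical scale
  obtain ⟨K, hK1, hK2⟩ : ∃ K : ℕ, M < 2 ^ (K + 1) ∧ ∀ k < K, 2 ^ (k + 1) ≤ M := by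
    have hex : ∃ K : ℕ, M < 2 ^ (K + 1) :=
      ⟨M, (Nat.lt_two_pow_self).trans (Nat.pow_lt_pow_right (by norm_num) (Nat.lt_succ_self M))⟩
    classical
    exact ⟨Nat.find hex, Nat.find_spec hex, fun k hk => not_lt.1 (Nat.find_min hex hk)⟩
  -- termwise
  have hterm : ∀ k ∈ Finset.Icc 1 n, (2 : ℝ) ^ (-(r * k)) *
      phi θ (Dcount m (Pi.single j k) (fun j => ((a j : ℕ) : ℤ))) ≤
      if K ≤ k then 4 * (M : ℝ) ^ (-θ) * q ^ k else 0 := by
    intro k hk
    have hk1 : 1 ≤ k := (Finset.mem_Icc.1 hk).1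
    have hD := Dcount_single_le hm a j k
    split_ifs with hKk
    · have h1 : ((Dcount m (Pi.single j k) (fun j => ((a j : ℕ) : ℤ)) : ℕ) : ℝ) ≤
          (2 : ℝ) ^ (k + 2) / M := by
        have h2 := card_fbox_dvd k M hMpos
        rw [if_neg (by omega)] at h2
        refine le_trans ?_ h2
        exact_mod_cast hD
      have h3 := phi_le_rpow hθ0 h1
      have h4 : ((2 : ℝ) ^ (k + 2) / M) ^ θ ≤ 4 * ((2 : ℝ) ^ k) ^ θ * (M : ℝ) ^ (-θ) := by
        rw [Real.div_rpow (by positivity) hM0.le, Real.rpow_neg hM0.le, div_eq_mul_inv, pow_add,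
          Real.mul_rpow (by positivity) (by positivity)]
        refine mul_le_mul_of_nonneg_right ?_ (by positivity)
        have h5 : ((2 : ℝ) ^ 2) ^ θ ≤ 4 := by
          calc ((2 : ℝ) ^ 2) ^ θ ≤ ((2 : ℝ) ^ 2) ^ (1 : ℝ) :=
                Real.rpow_le_rpow_of_exponent_le (by norm_num) (by linarith)
            _ = 4 := by rw [Real.rpow_one]; norm_num
        have h6 : 0 ≤ ((2 : ℝ) ^ k) ^ θ := by positivity
        nlinarith
      have h7 : (2 : ℝ) ^ (-(r * k)) * ((2 : ℝ) ^ k) ^ θ = q ^ k := by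
        rw [hq, ← Real.rpow_natCast (2 : ℝ) k, ← Real.rpow_natCast ((2 : ℝ) ^ (-(r - θ))) k,
          ← Real.rpow_mul (by norm_num), ← Real.rpow_mul (by norm_num),
          ← Real.rpow_add (by norm_num)]
        congr 1
        ring
      calc (2 : ℝ) ^ (-(r * k)) *
          phi θ (Dcount m (Pi.single j k) (fun j => ((a j : ℕ) : ℤ))) ≤
          (2 : ℝ) ^ (-(r * k)) * (4 * ((2 : ℝ) ^ k) ^ θ * (M : ℝ) ^ (-θ)) :=
            mul_le_mul_of_nonneg_left (h3.trans h4) (by positivity)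
        _ = 4 * (M : ℝ) ^ (-θ) * ((2 : ℝ) ^ (-(r * k)) * ((2 : ℝ) ^ k) ^ θ) := by ring
        _ = 4 * (M : ℝ) ^ (-θ) * q ^ k := by rw [h7]
    · have h1 : ((fbox k).filter fun x => ((M : ℕ) : ℤ) ∣ x) = ∅ := by
        rw [Finset.filter_eq_empty_iff]
        intro x hx hdvd
        unfold fbox at hx
        rw [if_neg (by omega), Finset.mem_erase, Finset.mem_Ioo] at hx
        obtain ⟨hx0, hx1, hx2⟩ := hx
        have h2 : (M : ℤ) ≤ |x| := Int.le_of_dvd (abs_pos.2 hx0) ((dvd_abs _ _).2 hdvd)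
        have h3 : |x| < 2 ^ (k + 1) := abs_lt.2 ⟨hx1, hx2⟩
        have h4 : ((2 ^ (k + 1) : ℕ) : ℤ) ≤ (M : ℤ) := by exact_mod_cast hK2 k (by omega)
        push_cast at h4
        linarith
      rw [h1, Finset.card_empty, Nat.le_zero] at hD
      rw [hD]
      simp [phi]
  refine (Finset.sum_le_sum hterm).trans ?_
  -- the geometric sum
  have h1 : ∑ k ∈ Finset.Icc 1 n, (if K ≤ k then 4 * (M : ℝ) ^ (-θ) * q ^ k else 0) ≤
      4 * (M : ℝ) ^ (-θ) * (q ^ K * (1 / (1 - q))) := by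
    have h2 : ∑ k ∈ Finset.Icc 1 n, (if K ≤ k then 4 * (M : ℝ) ^ (-θ) * q ^ k else 0) ≤
        ∑ k ∈ Finset.range (K + (n + 1)), (if K ≤ k then 4 * (M : ℝ) ^ (-θ) * q ^ k else 0) := by
      refine Finset.sum_le_sum_of_subset_of_nonneg ?_ ?_
      · intro k hk
        have := (Finset.mem_Icc.1 hk).2
        rw [Finset.mem_range]
        omega
      · intro k _ _
        split_ifs
        · positivity
        · exact le_rfl
    refine h2.trans ?_
    rw [Finset.sum_range_add]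
    have h3 : ∑ k ∈ Finset.range K, (if K ≤ k then 4 * (M : ℝ) ^ (-θ) * q ^ k else 0) = 0 := by
      refine Finset.sum_eq_zero fun k hk => ?_
      rw [if_neg (not_le.2 (Finset.mem_range.1 hk))]
    have h4 : ∑ i ∈ Finset.range (n + 1), (if K ≤ K + i then 4 * (M : ℝ) ^ (-θ) * q ^ (K + i)
        else 0) = 4 * (M : ℝ) ^ (-θ) * (q ^ K * ∑ i ∈ Finset.range (n + 1), q ^ i) := by
      rw [Finset.mul_sum, Finset.mul_sum]
      refine Finset.sum_congr rfl fun i _ => ?_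
      rw [if_pos (Nat.le_add_right K i), pow_add]
    rw [h3, zero_add, h4]
    refine mul_le_mul_of_nonneg_left ?_ (by positivity)
    exact mul_le_mul_of_nonneg_left (geom_le' hq0 hq1 _) (by positivity)
  refine h1.trans ?_
  have h5 : q ^ K ≤ 2 * (M : ℝ) ^ (-(r - θ)) := by
    have h6 : (M : ℝ) / 2 ≤ 2 ^ K := by
      have h7 : (M : ℝ) ≤ 2 ^ (K + 1) := by exact_mod_cast hK1.le
      rw [pow_succ] at h7
      linarith
    have h8 : q ^ K = ((2 : ℝ) ^ K) ^ (-(r - θ)) := by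
      rw [hq, ← Real.rpow_natCast, ← Real.rpow_mul (by norm_num), mul_comm,
        Real.rpow_mul (by norm_num), Real.rpow_natCast]
    rw [h8]
    calc ((2 : ℝ) ^ K) ^ (-(r - θ)) ≤ ((M : ℝ) / 2) ^ (-(r - θ)) :=
          Real.rpow_le_rpow_of_nonpos (by positivity) h6 (by linarith)
      _ = 2 ^ (r - θ) * (M : ℝ) ^ (-(r - θ)) := by
          rw [Real.div_rpow hM0.le (by norm_num), Real.rpow_neg (by norm_num : (0 : ℝ) ≤ 2),
            div_inv_eq_mul, mul_comm]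
      _ ≤ 2 * (M : ℝ) ^ (-(r - θ)) := by
          refine mul_le_mul_of_nonneg_right ?_ (by positivity)
          calc (2 : ℝ) ^ (r - θ) ≤ 2 ^ (1 : ℝ) :=
                Real.rpow_le_rpow_of_exponent_le (by norm_num) (by linarith)
            _ = 2 := Real.rpow_one 2
  have h9 : (M : ℝ) ^ (-θ) * (M : ℝ) ^ (-(r - θ)) = ((g : ℝ) / m) ^ r := by
    rw [← Real.rpow_add hM0, hgM, Real.inv_rpow hM0.le, ← Real.rpow_neg hM0.le]
    congr 1
    ring
  have h10 : 0 ≤ 1 / (1 - q) := one_div_nonneg.2 (by linarith)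
  calc 4 * (M : ℝ) ^ (-θ) * (q ^ K * (1 / (1 - q))) ≤
      4 * (M : ℝ) ^ (-θ) * (2 * (M : ℝ) ^ (-(r - θ)) * (1 / (1 - q))) := by
        refine mul_le_mul_of_nonneg_left ?_ (by positivity)
        exact mul_le_mul_of_nonneg_right h5 h10
    _ = 8 / (1 - q) * ((M : ℝ) ^ (-θ) * (M : ℝ) ^ (-(r - θ))) := by ring
    _ = _ := by rw [h9]

end Pool.Agent.Lib.P51a855
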