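import Pool.Agent.Lib.P51a855.Block

/-!
The upper bound for the error of the Korobov formula on the classes `H^r_p`.
-/

set_option autoImplicit false
set_option linter.unusedVariables false

open MeasureTheory Finset Filter
open scoped ENNReal NNReal Topology

noncomputable section

namespace Pool.Agent.Lib.P51a855

variable {d : ℕ}

/-- the product Fejér kernel -/
def FK (n : ℕ) (x : Torus d) : ℝ := ∏ j, fej (2 ^ n) (x j)

lemma continuous_FK (n : ℕ) : Continuous (FK (d := d) n) := by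
  unfold FK
  exact continuous_finsetProd _ fun j _ => (continuous_fej _).comp (continuous_apply j)

lemma FK_nonneg (n : ℕ) (x : Torus d) : 0 ≤ FK n x :=
  Finset.prod_nonneg fun _ _ => fej_nonneg _ _

lemma integral_FK (n : ℕ) : ∫ x : Torus d, FK n x ∂(haarT d) = 1 := by
  have h := integral_prod_haarT (d := d) (fun _ y => fej (2 ^ n) y)
  have h1 : ∀ x : Torus d, FK n x = ∏ j, (fun (_ : Fin d) (y : Circ) => fej (2 ^ n) y) j (x j) :=
    fun x => rfl
  rw [integral_congr_ae (Eventually.of_forall h1), h]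
  exact Finset.prod_eq_one fun j _ => integral_fej _ Nat.one_le_two_pow

lemma FK_moment {r : ℝ} (hr0 : 0 < r) {C : ℝ}
    (hC : ∀ N : ℕ, 1 ≤ N →
      ∫ x, fej N x * ‖x‖ ^ r ∂AddCircle.haarAddCircle ≤ C * (N : ℝ) ^ (-r)) (n : ℕ) (i : Fin d) :
    ∫ x : Torus d, FK n x * ‖x i‖ ^ r ∂(haarT d) ≤ C * ((2 : ℝ) ^ n) ^ (-r) := by
  have h := integral_prod_haarT (d := d)
    (fun j y => fej (2 ^ n) y * (if j = i then ‖y‖ ^ r else 1))
  have h1 : ∀ x : Torus d, FK n x * ‖x i‖ ^ r =
      ∏ j, (fun (j : Fin d) (y : Circ) => fej (2 ^ n) y * (if j = i then ‖y‖ ^ r else 1)) j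
        (x j) := by
    intro x
    rw [Finset.prod_mul_distrib]
    congr 1
    rw [Finset.prod_ite_eq' Finset.univ i]
    simp
  rw [integral_congr_ae (Eventually.of_forall h1), h, ← Finset.mul_prod_erase _ _
    (Finset.mem_univ i)]
  have h2 : ∏ j ∈ Finset.univ.erase i, ∫ u, (fun (j : Fin d) (y : Circ) =>
      fej (2 ^ n) y * (if j = i then ‖y‖ ^ r else 1)) j u ∂AddCircle.haarAddCircle = 1 := by
    refine Finset.prod_eq_one fun j hj => ?_
    simp only [Finset.ne_of_mem_erase hj, if_false, mul_one]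
    exact integral_fej _ Nat.one_le_two_pow
  rw [h2, mul_one]
  have h3 := hC (2 ^ n) Nat.one_le_two_pow
  simp only [if_true]
  push_cast at h3
  exact h3

/-- convolution with the product kernel -/
def convF (n : ℕ) (f : C(Torus d, ℝ)) (x : Torus d) : ℝ := ∫ t, FK n t * f (x - t) ∂(haarT d)

lemma convF_eq (n : ℕ) (f : C(Torus d, ℝ)) (x : Torus d) :
    convF n f x = ∫ z, f z ∂(haarT d) + ∑ s ∈ idx d n, blk s f x := by
  have hf : Continuous fun t : Torus d => f (x - t) := f.continuous.comp (by fun_prop)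
  have h1 : ∀ t : Torus d, FK n t * f (x - t) =
      ∑ s ∈ Fintype.piFinset (fun _ : Fin d => Finset.range (n + 1)), VK s t * f (x - t) := by
    intro t
    rw [← Finset.sum_mul]
    congr 1
    unfold FK VK
    have h3 := Finset.prod_univ_sum (fun _ : Fin d => Finset.range (n + 1))
      (fun (j : Fin d) (s : ℕ) => vker s (t j))
    rw [← h3]
    exact Finset.prod_congr rfl fun j _ => (sum_vker n (t j)).symm
  have h0 : (0 : Fin d → ℕ) ∈ Fintype.piFinset (fun _ : Fin d => Finset.range (n + 1)) := by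
    simp
  have h2 : blk 0 f x = ∫ z, f z ∂(haarT d) := by
    unfold blk
    have h3 : ∀ t : Torus d, VK 0 t * f (x - t) = f (x - t) := by
      intro t
      unfold VK
      simp [vker]
    simp_rw [h3]
    exact integral_sub_left_eq_self (fun z => f z) (haarT d) x
  unfold convF idx
  simp_rw [h1]
  rw [integral_finsetSum _ fun s _ => integrable_mul' (continuous_VK s) hf,
    ← Finset.add_sum_erase _ _ h0]
  congr 1

/-- the convolutions converge pointwise -/
lemma tendsto_convF {r : ℝ} (hr0 : 0 < r) (hr1 : r < 1) (f : C(Torus d, ℝ)) (x : Torus d) :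
    Tendsto (fun n => convF n f x) atTop (𝓝 (f x)) := by
  obtain ⟨C, hC0, hC⟩ := fej_moment r hr0 hr1
  rw [Metric.tendsto_atTop]
  intro ε hε
  obtain ⟨δ, hδ, hfδ⟩ : ∃ δ > 0, ∀ t : Torus d, ‖t‖ < δ → |f (x - t) - f x| < ε / 2 := by
    have h1 : ContinuousAt (fun t : Torus d => f (x - t)) 0 :=
      (f.continuous.comp (by fun_prop)).continuousAt
    obtain ⟨δ, hδ, h2⟩ := Metric.continuousAt_iff.1 h1 (ε / 2) (by positivity)
    refine ⟨δ, hδ, fun t ht => ?_⟩
    have h3 := h2 (x := t) (by simpa using ht)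
    simpa [Real.dist_eq] using h3
  set B : ℝ := 2 * ‖f‖ * δ ^ (-r) with hB
  have hB0 : 0 ≤ B := by positivity
  have hpt : ∀ t : Torus d, |f (x - t) - f x| ≤ ε / 2 + B * ∑ i, ‖t i‖ ^ r := by
    intro t
    by_cases ht : ‖t‖ < δ
    · have h1 := (hfδ t ht).le
      have h2 : 0 ≤ B * ∑ i, ‖t i‖ ^ r :=
        mul_nonneg hB0 (Finset.sum_nonneg fun i _ => Real.rpow_nonneg (norm_nonneg _) _)
      linarith
    · have h1 : ∃ i, δ ≤ ‖t i‖ := by
        by_contra hcon
        push Not at hcon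
        exact ht ((pi_norm_lt_iff hδ).2 hcon)
      obtain ⟨i, hi⟩ := h1
      have h2 : |f (x - t) - f x| ≤ 2 * ‖f‖ := by
        have h3 := f.norm_coe_le_norm (x - t)
        have h4 := f.norm_coe_le_norm x
        rw [Real.norm_eq_abs] at h3 h4
        have h5 := abs_sub (f (x - t)) (f x)
        linarith
      have h3 : 1 ≤ δ ^ (-r) * ∑ i, ‖t i‖ ^ r := by
        have h4 : δ ^ r ≤ ∑ i, ‖t i‖ ^ r := by
          calc δ ^ r ≤ ‖t i‖ ^ r := Real.rpow_le_rpow hδ.le hi hr0.le
            _ ≤ _ := Finset.single_le_sum (f := fun i => ‖t i‖ ^ r)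
              (fun i _ => Real.rpow_nonneg (norm_nonneg _) _) (Finset.mem_univ i)
        rw [Real.rpow_neg hδ.le]
        have h5 : 0 < δ ^ r := Real.rpow_pos_of_pos hδ r
        rw [inv_mul_eq_div, one_le_div h5]
        exact h4
      calc |f (x - t) - f x| ≤ 2 * ‖f‖ * 1 := by linarith
        _ ≤ 2 * ‖f‖ * (δ ^ (-r) * ∑ i, ‖t i‖ ^ r) :=
            mul_le_mul_of_nonneg_left h3 (by positivity)
        _ = B * ∑ i, ‖t i‖ ^ r := by rw [hB]; ring
        _ ≤ ε / 2 + B * ∑ i, ‖t i‖ ^ r := by linarith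
  -- the main estimate
  have hmain : ∀ n, |convF n f x - f x| ≤ ε / 2 + B * d * C * ((2 : ℝ) ^ n) ^ (-r) := by
    intro n
    have hFK := continuous_FK (d := d) n
    have hf : Continuous fun t : Torus d => f (x - t) := f.continuous.comp (by fun_prop)
    have h1 : convF n f x - f x = ∫ t, FK n t * (f (x - t) - f x) ∂(haarT d) := by
      have h2 : f x = ∫ t, FK n t * f x ∂(haarT d) := by
        rw [integral_mul_const, integral_FK, one_mul]
      conv_lhs => rw [h2]
      unfold convF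
      rw [← integral_sub (integrable_mul' hFK hf) ((integrable_of_cont hFK).mul_const _)]
      refine integral_congr_ae (Eventually.of_forall fun t => ?_)
      show FK n t * f (x - t) - FK n t * f x = FK n t * (f (x - t) - f x)
      ring
    rw [h1]
    have hci : ∀ i : Fin d, Continuous fun t : Torus d => ‖t i‖ ^ r := fun i =>
      ((continuous_apply i).norm).rpow_const fun _ => Or.inr hr0.le
    have hint : Integrable (fun t : Torus d => FK n t * (ε / 2) +
        B * ∑ i, FK n t * ‖t i‖ ^ r) (haarT d) := by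
      refine ((integrable_of_cont hFK).mul_const _).add (Integrable.const_mul ?_ _)
      exact integrable_finsetSum _ fun i _ => integrable_mul' hFK (hci i)
    calc |∫ t, FK n t * (f (x - t) - f x) ∂(haarT d)| ≤
        ∫ t, |FK n t * (f (x - t) - f x)| ∂(haarT d) := abs_integral_le_integral_abs
      _ ≤ ∫ t, (FK n t * (ε / 2) + B * ∑ i, FK n t * ‖t i‖ ^ r) ∂(haarT d) := by
          refine integral_mono (integrable_mul' hFK (hf.sub continuous_const)).abs hint fun t => ?_
          show |FK n t * (f (x - t) - f x)| ≤ FK n t * (ε / 2) + B * ∑ i, FK n t * ‖t i‖ ^ r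
          rw [abs_mul, abs_of_nonneg (FK_nonneg n t)]
          calc FK n t * |f (x - t) - f x| ≤ FK n t * (ε / 2 + B * ∑ i, ‖t i‖ ^ r) :=
                mul_le_mul_of_nonneg_left (hpt t) (FK_nonneg n t)
            _ = _ := by rw [← Finset.mul_sum]; ring
      _ = ε / 2 + B * ∑ i, ∫ t, FK n t * ‖t i‖ ^ r ∂(haarT d) := by
          rw [integral_add ((integrable_of_cont hFK).mul_const _)
            (Integrable.const_mul (integrable_finsetSum _ fun i _ =>
              integrable_mul' hFK (hci i)) _), integral_mul_const, integral_FK, one_mul,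
            integral_const_mul, integral_finsetSum _ fun i _ => integrable_mul' hFK (hci i)]
      _ ≤ ε / 2 + B * ∑ i : Fin d, C * ((2 : ℝ) ^ n) ^ (-r) := by
          refine add_le_add le_rfl (mul_le_mul_of_nonneg_left ?_ hB0)
          exact Finset.sum_le_sum fun i _ => FK_moment hr0 hC n i
      _ = ε / 2 + B * d * C * ((2 : ℝ) ^ n) ^ (-r) := by
          rw [Finset.sum_const, Finset.card_univ, Fintype.card_fin, nsmul_eq_mul]
          ring
  -- conclusion
  have hlim : Tendsto (fun n : ℕ => ε / 2 + B * d * C * ((2 : ℝ) ^ n) ^ (-r)) atTop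
      (𝓝 (ε / 2 + B * d * C * 0)) := by
    refine tendsto_const_nhds.add (tendsto_const_nhds.mul ?_)
    have h1 : Tendsto (fun n : ℕ => (2 : ℝ) ^ n) atTop atTop :=
      tendsto_pow_atTop_atTop_of_one_lt (by norm_num)
    exact (tendsto_rpow_neg_atTop hr0).comp h1
  have hev := hlim.eventually_lt_const (u := ε) (by rw [mul_zero, add_zero]; linarith)
  obtain ⟨N, hN⟩ := eventually_atTop.1 hev
  refine ⟨N, fun n hn => ?_⟩
  rw [Real.dist_eq]
  exact (hmain n).trans_lt (hN n hn)

theorem korobov_upper (d l : ℕ) (hl : 1 ≤ l) (r : ℝ) (hr0 : 0 < r) (hr1 : r < 1) (p : ℝ≥0∞)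
    (hp : 1 ≤ p) : ∃ C : ℝ, 0 ≤ C ∧ ∀ m : ℕ, 1 ≤ m → ∀ (a : Fin d → ℤ) (X : ℝ),
      (∀ n, ∑ s ∈ idx d n, (2 : ℝ) ^ (-(r * ∑ j, (s j : ℝ))) *
        phi (1 / p.toReal) (Dcount m s a) ≤ X) →
      ∀ f ∈ HClass d l r p, |korobov m a f - mean f| ≤ C * X := by
  have : Fact (1 ≤ p) := ⟨hp⟩
  obtain ⟨C1, hC1, hfirst⟩ := mixed_first d l hl r hr0 hr1 p
  obtain ⟨Cv0, hCv0, hCv⟩ := vker_moment r hr0 hr1
  set Cv : ℝ := max 1 Cv0 with hCvd
  have hCv1 : 1 ≤ Cv := le_max_left _ _
  have hCv' : ∀ s : ℕ, 1 ≤ s →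
      ∫ x, |vker s x| * ‖x‖ ^ r ∂AddCircle.haarAddCircle ≤ Cv * (2 : ℝ) ^ (-(r * s)) := by
    intro s hs
    refine (hCv s hs).trans ?_
    exact mul_le_mul_of_nonneg_right (le_max_right _ _) (by positivity)
  refine ⟨4 ^ d * C1 * Cv ^ d, by positivity, ?_⟩
  intro m hm a X hX f hf
  have hf1 := hfirst f hf
  have hm0 : (0 : ℝ) < m := by exact_mod_cast hm
  -- the approximations
  have hn : ∀ n, |korobov m a (convF n f) - mean f| ≤ 4 ^ d * C1 * Cv ^ d * X := by
    intro n
    have h1 : korobov m a (convF n f) = mean f + ∑ s ∈ idx d n, korobov m a (blk s f) := by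
      unfold korobov
      simp_rw [convF_eq]
      rw [Finset.sum_add_distrib, mul_add, Finset.sum_const, Nat.card_Icc, Nat.add_sub_cancel,
        nsmul_eq_mul, Finset.sum_comm, Finset.mul_sum]
      congr 1
      unfold mean
      field_simp
    rw [h1, add_sub_cancel_left]
    calc |∑ s ∈ idx d n, korobov m a (blk s f)| ≤ ∑ s ∈ idx d n, |korobov m a (blk s f)| :=
          Finset.abs_sum_le_sum_abs _ _
      _ ≤ ∑ s ∈ idx d n, 4 ^ d * C1 * Cv ^ d *
          ((2 : ℝ) ^ (-(r * ∑ j, (s j : ℝ))) * phi (1 / p.toReal) (Dcount m s a)) :=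
          Finset.sum_le_sum fun s _ => block_bound hr0 hr1 hC1 hCv1 hCv' hf1 hm a s
      _ = 4 ^ d * C1 * Cv ^ d * ∑ s ∈ idx d n,
          (2 : ℝ) ^ (-(r * ∑ j, (s j : ℝ))) * phi (1 / p.toReal) (Dcount m s a) := by
          rw [Finset.mul_sum]
      _ ≤ 4 ^ d * C1 * Cv ^ d * X := mul_le_mul_of_nonneg_left (hX n) (by positivity)
  have hlim : Tendsto (fun n => korobov m a (convF n f)) atTop (𝓝 (korobov m a f)) := by
    unfold korobov
    exact (tendsto_finsetSum _ fun μ _ => tendsto_convF hr0 hr1 f _).const_mul _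
  have hlim2 : Tendsto (fun n => |korobov m a (convF n f) - mean f|) atTop
      (𝓝 |korobov m a f - mean f|) := (hlim.sub_const _).abs
  exact le_of_tendsto hlim2 (Eventually.of_forall hn)

end Pool.Agent.Lib.P51a855
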